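import Mathlib

/-!
Switching of the Gold functions, part 1: sums of few signed powers of two which vanish modulo
`2 ^ n - 1` split at free windows.
-/

set_option autoImplicit false

namespace Pool.Agent.Lib.MP_eacabd_co.Gold8

open Finset

/-- exponents modulo `2 ^ n - 1` -/
abbrev R (n : ℕ) := ZMod (2 ^ n - 1)

/-- the power of two at a cyclic position -/
def pw {n : ℕ} (z : ZMod n) : R n := 2 ^ z.val

theorem two_pow_n (n : ℕ) : (2 : R n) ^ n = 1 := by
  have h1 : ((2 ^ n - 1 : ℕ) : R n) = 0 := ZMod.natCast_self _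
  have h2 : 2 ^ n = (2 ^ n - 1) + 1 := by
    have : 0 < 2 ^ n := by positivity
    omega
  have h3 : ((2 ^ n : ℕ) : R n) = (((2 ^ n - 1) + 1 : ℕ) : R n) := congrArg _ h2
  rw [Nat.cast_add, h1, zero_add, Nat.cast_one, Nat.cast_pow, Nat.cast_ofNat] at h3
  exact h3

theorem two_pow_mod (n m : ℕ) : (2 : R n) ^ (m % n) = 2 ^ m := by
  conv_rhs => rw [← Nat.div_add_mod m n, pow_add, pow_mul, two_pow_n, one_pow, one_mul]

theorem pw_natCast {n : ℕ} [NeZero n] (m : ℕ) : pw ((m : ℕ) : ZMod n) = (2 : R n) ^ m := by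
  rw [pw, ZMod.val_natCast, two_pow_mod]

theorem pw_add {n : ℕ} [NeZero n] (a b : ZMod n) : pw (a + b) = pw a * pw b := by
  rw [pw, ZMod.val_add, two_pow_mod, pow_add]
  rfl

theorem pw_zero {n : ℕ} [NeZero n] : pw (0 : ZMod n) = 1 := by
  rw [pw, ZMod.val_zero, pow_zero]

theorem pw_neg_mul {n : ℕ} [NeZero n] (a : ZMod n) : pw (-a) * pw a = 1 := by
  rw [← pw_add, neg_add_cancel, pw_zero]

/-- the relation after a rotation, as an integer equation -/
theorem rot {n : ℕ} (hn : 8 ≤ n) [NeZero n] {κ : Type} [Fintype κ] {m : κ → ZMod n}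
    {c : κ → ℤ} {l w : κ → ℕ} (hc : ∀ k, |c k| ≤ w k * 2 ^ l k) (hw : ∑ k, w k ≤ 12)
    (hrel : ∑ k, ((c k : ℤ) : R n) * pw (m k) = 0) {h : ZMod n}
    (hh : ∀ k, (m k - h).val + l k + 5 ≤ n) :
    ∑ k, c k * 2 ^ (m k - h).val = 0 := by
  have h1 : ∑ k, ((c k : ℤ) : R n) * pw (m k - h) = 0 := by
    have e : ∀ k, ((c k : ℤ) : R n) * pw (m k - h) = (((c k : ℤ) : R n) * pw (m k)) * pw (-h) := by
      intro k
      rw [sub_eq_add_neg, pw_add]
      ring
    rw [sum_congr rfl fun k _ => e k, ← sum_mul, hrel, zero_mul]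
  have h2 : ((∑ k, c k * 2 ^ (m k - h).val : ℤ) : R n) = 0 := by
    push_cast
    exact h1
  have h3 : (((2 ^ n - 1 : ℕ) : ℤ)) ∣ ∑ k, c k * 2 ^ (m k - h).val :=
    (ZMod.intCast_zmod_eq_zero_iff_dvd _ _).1 h2
  apply Int.eq_zero_of_abs_lt_dvd h3
  have h4 : ∀ k, |c k * 2 ^ (m k - h).val| ≤ w k * 2 ^ (n - 5) := by
    intro k
    rw [abs_mul, abs_pow]
    have e1 : |(2 : ℤ)| = 2 := by norm_num
    rw [e1]
    calc |c k| * 2 ^ (m k - h).val ≤ (w k * 2 ^ l k) * 2 ^ (m k - h).val :=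
          mul_le_mul_of_nonneg_right (hc k) (by positivity)
      _ = w k * 2 ^ (l k + (m k - h).val) := by rw [pow_add]; ring
      _ ≤ w k * 2 ^ (n - 5) := by
          apply mul_le_mul_of_nonneg_left _ (by positivity)
          exact pow_le_pow_right₀ (by norm_num) (by have := hh k; omega)
  have h5 : |∑ k, c k * 2 ^ (m k - h).val| ≤ 12 * 2 ^ (n - 5) := by
    calc |∑ k, c k * 2 ^ (m k - h).val| ≤ ∑ k, |c k * 2 ^ (m k - h).val| := abs_sum_le_sum_abs _ _
      _ ≤ ∑ k, (w k : ℤ) * 2 ^ (n - 5) := sum_le_sum fun k _ => h4 k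
      _ = ((∑ k, w k : ℕ) : ℤ) * 2 ^ (n - 5) := by rw [← sum_mul]; push_cast; ring
      _ ≤ 12 * 2 ^ (n - 5) := by
          apply mul_le_mul_of_nonneg_right _ (by positivity)
          exact_mod_cast hw
  refine lt_of_le_of_lt h5 ?_
  obtain ⟨r, rfl⟩ : ∃ r, n = r + 5 := ⟨n - 5, by omega⟩
  have e1 : r + 5 - 5 = r := by omega
  rw [e1]
  have e2 : (2 : ℕ) ^ (r + 5) = 32 * 2 ^ r := by rw [pow_add]; ring
  have e3 : 0 < (2 : ℕ) ^ r := by positivity
  have e4 : 12 * 2 ^ r < 2 ^ (r + 5) - 1 := by omega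
  exact_mod_cast e4

/-- splitting at a free window -/
theorem cut {n : ℕ} (hn : 8 ≤ n) [NeZero n] {κ : Type} [Fintype κ] {m : κ → ZMod n}
    {c : κ → ℤ} {l w : κ → ℕ} (hc : ∀ k, |c k| ≤ w k * 2 ^ l k) (hw : ∑ k, w k ≤ 12)
    (hrel : ∑ k, ((c k : ℤ) : R n) * pw (m k) = 0) {h : ZMod n}
    (hh : ∀ k, (m k - h).val + l k + 5 ≤ n) {s : ℕ}
    (hs : ∀ k, (m k - h).val + l k < s ∨ s + 4 ≤ (m k - h).val) :
    ∑ k, (if (m k - h).val < s then c k * 2 ^ (m k - h).val else 0) = 0 := by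
  have h0 := rot hn hc hw hrel hh
  have hsplit : ∑ k, c k * 2 ^ (m k - h).val
      = ∑ k, (if (m k - h).val < s then c k * 2 ^ (m k - h).val else 0)
        + ∑ k, (if (m k - h).val < s then 0 else c k * 2 ^ (m k - h).val) := by
    rw [← sum_add_distrib]
    refine sum_congr rfl fun k _ => ?_
    split_ifs <;> simp
  set A := ∑ k, (if (m k - h).val < s then c k * 2 ^ (m k - h).val else 0) with hA
  set B := ∑ k, (if (m k - h).val < s then 0 else c k * 2 ^ (m k - h).val) with hB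
  have hAB : A = -B := by
    have := h0
    rw [hsplit] at this
    linarith
  have hdB : (2 : ℤ) ^ (s + 4) ∣ B := by
    rw [hB]
    refine dvd_sum fun k _ => ?_
    split_ifs with h1
    · exact dvd_zero _
    · refine Dvd.dvd.mul_left ?_ _
      exact pow_dvd_pow _ (by rcases hs k with h2 | h2 <;> omega)
  have hdA : (2 : ℤ) ^ (s + 4) ∣ A := by
    rw [hAB]
    exact (dvd_neg).2 hdB
  apply Int.eq_zero_of_abs_lt_dvd hdA
  have h4 : ∀ k, |(if (m k - h).val < s then c k * 2 ^ (m k - h).val else 0)| ≤ w k * 2 ^ s := by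
    intro k
    split_ifs with h1
    · rw [abs_mul, abs_pow]
      have e1 : |(2 : ℤ)| = 2 := by norm_num
      rw [e1]
      calc |c k| * 2 ^ (m k - h).val ≤ (w k * 2 ^ l k) * 2 ^ (m k - h).val :=
            mul_le_mul_of_nonneg_right (hc k) (by positivity)
        _ = w k * 2 ^ (l k + (m k - h).val) := by rw [pow_add]; ring
        _ ≤ w k * 2 ^ s := by
            apply mul_le_mul_of_nonneg_left _ (by positivity)
            exact pow_le_pow_right₀ (by norm_num) (by rcases hs k with h2 | h2 <;> omega)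
    · simp
  have h5 : |A| ≤ 12 * 2 ^ s := by
    calc |A| ≤ ∑ k, |(if (m k - h).val < s then c k * 2 ^ (m k - h).val else 0)| :=
          abs_sum_le_sum_abs _ _
      _ ≤ ∑ k, (w k : ℤ) * 2 ^ s := sum_le_sum fun k _ => h4 k
      _ = ((∑ k, w k : ℕ) : ℤ) * 2 ^ s := by rw [← sum_mul]; push_cast; ring
      _ ≤ 12 * 2 ^ s := by
          apply mul_le_mul_of_nonneg_right _ (by positivity)
          exact_mod_cast hw
  refine lt_of_le_of_lt h5 ?_
  have e2 : (2 : ℤ) ^ (s + 4) = 16 * 2 ^ s := by rw [pow_add]; ring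
  rw [e2]
  have e3 : 0 < (2 : ℤ) ^ s := by positivity
  linarith

/-- a free window in a long cyclic interval -/
theorem exists_window {n : ℕ} [NeZero n] {κ : Type} [Fintype κ] (m : κ → ZMod n)
    (l : κ → ℕ) (g : ZMod n) {L : ℕ} (hL : L ≤ n) (hs : ∑ k, (l k + 4) + 4 ≤ L) :
    ∃ w : ℕ, w + 4 ≤ L ∧ ∀ k, (m k - (g + (w : ZMod n) + 4)).val + l k + 5 ≤ n := by
  classical
  by_contra hcon
  push Not at hcon
  -- every start is blocked
  let Bl : κ → Finset ℕ := fun k =>
    (range (L - 3)).filter fun w => n < (m k - (g + (w : ZMod n) + 4)).val + l k + 5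
  have hcov : range (L - 3) ⊆ univ.biUnion Bl := by
    intro w hw
    have hw' := mem_range.1 hw
    obtain ⟨k, hk⟩ := hcon w (by omega)
    rw [mem_biUnion]
    exact ⟨k, mem_univ _, mem_filter.2 ⟨hw, hk⟩⟩
  have hBl : ∀ k, (Bl k).card ≤ l k + 4 := by
    intro k
    -- the offsets are distinct values in an interval of length `l k + 4`
    have hinj : Set.InjOn (fun w : ℕ => (m k - (g + (w : ZMod n) + 4)).val) (Bl k) := by
      intro w hw w' hw' he
      have h1 := ZMod.val_injective n he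
      have h2 : ((w : ℕ) : ZMod n) = ((w' : ℕ) : ZMod n) := by linear_combination -h1
      rw [ZMod.natCast_eq_natCast_iff'] at h2
      have h3 := mem_range.1 (mem_filter.1 (mem_coe.1 hw)).1
      have h4 := mem_range.1 (mem_filter.1 (mem_coe.1 hw')).1
      rwa [Nat.mod_eq_of_lt (by omega), Nat.mod_eq_of_lt (by omega)] at h2
    have hmaps : ∀ w ∈ Bl k, (m k - (g + (w : ZMod n) + 4)).val ∈ Ico (n - (l k + 4)) n := by
      intro w hw
      have h1 := (mem_filter.1 hw).2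
      have h2 := ZMod.val_lt (m k - (g + (w : ZMod n) + 4))
      rw [mem_Ico]
      omega
    have h1 := card_le_card_of_injOn _ hmaps hinj
    rw [Nat.card_Ico] at h1
    omega
  have h1 : (range (L - 3)).card ≤ ∑ k, (l k + 4) :=
    (card_le_card hcov).trans (card_biUnion_le.trans (sum_le_sum fun k _ => hBl k))
  rw [card_range] at h1
  omega

end Pool.Agent.Lib.MP_eacabd_co.Gold8
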