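import Mathlib
import Pool.Agent.Lib.MP_eacabd_co.Gold8.Cut

/-!
Switching of the Gold functions, part 3: small equations between powers of two.
-/

set_option autoImplicit false

namespace Pool.Agent.Lib.MP_eacabd_co.Gold8

open Finset

theorem two_pow_odd {r s : ℕ} {a b : ℤ} (ha : Odd a) (hb : Odd b)
    (h : 2 ^ r * a = 2 ^ s * b) : r = s ∧ a = b := by
  have key : ∀ {r s : ℕ} {a b : ℤ}, Odd a → 2 ^ r * a = 2 ^ s * b → ¬ r < s := by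
    intro r s a b ha h hlt
    obtain ⟨t, rfl⟩ : ∃ t, s = r + (t + 1) := ⟨s - r - 1, by omega⟩
    rw [pow_add, mul_assoc] at h
    have h1 := mul_left_cancel₀ (by positivity : (2 : ℤ) ^ r ≠ 0) h
    rw [pow_succ] at h1
    obtain ⟨e, he⟩ := ha
    have h2 : 2 * (2 ^ t * b) = 2 * e + 1 := by linarith
    omega
  have h1 : r = s := by
    have e1 := key ha h
    have e2 := key hb h.symm
    omega
  subst h1
  exact ⟨rfl, mul_left_cancel₀ (by positivity) h⟩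

theorem two_pow_inj {r s : ℕ} {a : ℤ} (ha : a ≠ 0) (h : a * 2 ^ r = a * 2 ^ s) : r = s := by
  have h1 : (2 : ℤ) ^ r = 2 ^ s := mul_left_cancel₀ ha h
  have h2 : (2 : ℕ) ^ r = 2 ^ s := by exact_mod_cast h1
  exact Nat.pow_right_injective (le_refl 2) h2

/-- uniqueness of binary expansions with two digits -/
theorem two_digits {a b c d : ℕ} (hab : a < b) (hcd : c < d) (h : 2 ^ a + 2 ^ b = 2 ^ c + 2 ^ d) :
    a = c ∧ b = d := by
  obtain ⟨u, rfl⟩ : ∃ u, b = a + (u + 1) := ⟨b - a - 1, by omega⟩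
  obtain ⟨v, rfl⟩ : ∃ v, d = c + (v + 1) := ⟨d - c - 1, by omega⟩
  have h1 : (2 : ℤ) ^ a * (1 + 2 ^ (u + 1)) = 2 ^ c * (1 + 2 ^ (v + 1)) := by
    have : (2 : ℤ) ^ a + 2 ^ (a + (u + 1)) = 2 ^ c + 2 ^ (c + (v + 1)) := by exact_mod_cast h
    rw [pow_add, pow_add 2 c] at this
    linarith
  have o1 : ∀ u : ℕ, Odd (1 + (2 : ℤ) ^ (u + 1)) := fun u => ⟨2 ^ u, by rw [pow_succ]; ring⟩
  obtain ⟨h2, h3⟩ := two_pow_odd (o1 u) (o1 v) h1
  refine ⟨h2, ?_⟩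
  have h4 : (2 : ℤ) ^ (u + 1) = 2 ^ (v + 1) := by linarith
  have h5 : (2 : ℕ) ^ (u + 1) = 2 ^ (v + 1) := by exact_mod_cast h4
  have h6 := Nat.pow_right_injective (le_refl 2) h5
  omega

theorem two_digits_ne {a b c : ℕ} (hab : a < b) : 2 ^ a + 2 ^ b ≠ 2 ^ c := by
  intro h
  obtain ⟨u, rfl⟩ : ∃ u, b = a + (u + 1) := ⟨b - a - 1, by omega⟩
  have h1 : (2 : ℤ) ^ a * (1 + 2 ^ (u + 1)) = 2 ^ c * 1 := by
    have : (2 : ℤ) ^ a + 2 ^ (a + (u + 1)) = 2 ^ c := by exact_mod_cast h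
    rw [pow_add] at this
    linarith
  have o1 : Odd (1 + (2 : ℤ) ^ (u + 1)) := ⟨2 ^ u, by rw [pow_succ]; ring⟩
  obtain ⟨_, h3⟩ := two_pow_odd o1 odd_one h1
  have h4 : (2 : ℤ) ^ (u + 1) > 0 := by positivity
  linarith

theorem cast_inj {n x y : ℕ} (hx : x < 2 ^ n - 1) (hy : y < 2 ^ n - 1)
    (h : (x : R n) = (y : R n)) : x = y := by
  rw [ZMod.natCast_eq_natCast_iff'] at h
  rwa [Nat.mod_eq_of_lt hx, Nat.mod_eq_of_lt hy] at h

theorem sum_lt {n a b : ℕ} (hn : 8 ≤ n) (ha : a < n) (hb : b < n) (hab : a ≠ b) :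
    2 ^ a + 2 ^ b < 2 ^ n - 1 := by
  wlog h : a < b generalizing a b
  · rw [add_comm]
    exact this hb ha (Ne.symm hab) (by omega)
  obtain ⟨r, rfl⟩ : ∃ r, n = r + 2 := ⟨n - 2, by omega⟩
  have h1 : 2 ^ a ≤ 2 ^ r := Nat.pow_le_pow_right (by norm_num) (by omega)
  have h2 : 2 ^ b ≤ 2 ^ (r + 1) := Nat.pow_le_pow_right (by norm_num) (by omega)
  have h3 : 2 ^ (r + 1) = 2 * 2 ^ r := by rw [pow_succ]; ring
  have h4 : 2 ^ (r + 2) = 4 * 2 ^ r := by rw [pow_add]; ring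
  have h5 : 2 ^ 6 ≤ 2 ^ r := Nat.pow_le_pow_right (by norm_num) (by omega)
  omega

theorem pw_cast {n : ℕ} (a : ZMod n) : pw a = ((2 ^ a.val : ℕ) : R n) := by
  rw [pw]; push_cast; rfl

theorem pw_add_ne_zero {n : ℕ} (hn : 8 ≤ n) [NeZero n] {a b : ZMod n} (hab : a ≠ b) :
    pw a + pw b ≠ 0 := by
  intro h
  have hv : a.val ≠ b.val := fun e => hab (ZMod.val_injective n e)
  have h1 := sum_lt hn (ZMod.val_lt a) (ZMod.val_lt b) hv
  rw [pw_cast, pw_cast, ← Nat.cast_add, ← Nat.cast_zero] at h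
  have h2 := cast_inj h1 (lt_of_le_of_lt (Nat.zero_le _) h1) h
  have h3 : 2 ^ a.val + 2 ^ b.val ≠ 0 := by positivity
  exact h3 h2

theorem pw_add_ne_pw {n : ℕ} (hn : 8 ≤ n) [NeZero n] {a b : ZMod n} (hab : a ≠ b) (z : ZMod n) :
    pw a + pw b ≠ pw z := by
  intro h
  have hv : a.val ≠ b.val := fun e => hab (ZMod.val_injective n e)
  have h1 := sum_lt hn (ZMod.val_lt a) (ZMod.val_lt b) hv
  have h3 : 2 ^ z.val < 2 ^ n - 1 := by
    have h4 := ZMod.val_lt z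
    obtain ⟨r, hr⟩ : ∃ r, n = r + 1 := ⟨n - 1, by omega⟩
    have h5 : 2 ^ z.val ≤ 2 ^ r := Nat.pow_le_pow_right (by norm_num) (by omega)
    have h6 : 2 ^ n = 2 * 2 ^ r := by rw [hr, pow_succ]; ring
    have h7 : 2 ^ 7 ≤ 2 ^ r := Nat.pow_le_pow_right (by norm_num) (by omega)
    omega
  rw [pw_cast, pw_cast, pw_cast, ← Nat.cast_add] at h
  have h2 := cast_inj h1 h3 h
  rcases Nat.lt_or_gt_of_ne hv with h4 | h4
  · exact two_digits_ne h4 h2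
  · rw [add_comm] at h2
    exact two_digits_ne h4 h2

theorem pw_add_eq {n : ℕ} (hn : 8 ≤ n) [NeZero n] {a b y z : ZMod n} (hab : a ≠ b)
    (h : pw a + pw b = pw y + pw z) : (y = a ∧ z = b) ∨ (y = b ∧ z = a) := by
  have hyz : y ≠ z := by
    rintro rfl
    apply pw_add_ne_pw hn hab (y + 1)
    rw [h, pw_add]
    have : pw (1 : ZMod n) = 2 := by
      have h1 := pw_natCast (n := n) 1
      rwa [Nat.cast_one, pow_one] at h1
    rw [this]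
    ring
  have hv : a.val ≠ b.val := fun e => hab (ZMod.val_injective n e)
  have hv' : y.val ≠ z.val := fun e => hyz (ZMod.val_injective n e)
  rw [pw_cast, pw_cast, pw_cast, pw_cast, ← Nat.cast_add, ← Nat.cast_add] at h
  have h2 := cast_inj (sum_lt hn (ZMod.val_lt a) (ZMod.val_lt b) hv)
    (sum_lt hn (ZMod.val_lt y) (ZMod.val_lt z) hv') h
  rcases Nat.lt_or_gt_of_ne hv with h3 | h3 <;> rcases Nat.lt_or_gt_of_ne hv' with h4 | h4
  · obtain ⟨e1, e2⟩ := two_digits h3 h4 h2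
    exact Or.inl ⟨ZMod.val_injective n e1.symm, ZMod.val_injective n e2.symm⟩
  · rw [add_comm (2 ^ y.val)] at h2
    obtain ⟨e1, e2⟩ := two_digits h3 h4 h2
    exact Or.inr ⟨ZMod.val_injective n e2.symm, ZMod.val_injective n e1.symm⟩
  · rw [add_comm (2 ^ a.val)] at h2
    obtain ⟨e1, e2⟩ := two_digits h3 h4 h2
    exact Or.inr ⟨ZMod.val_injective n e1.symm, ZMod.val_injective n e2.symm⟩
  · rw [add_comm (2 ^ a.val), add_comm (2 ^ y.val)] at h2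
    obtain ⟨e1, e2⟩ := two_digits h3 h4 h2
    exact Or.inl ⟨ZMod.val_injective n e2.symm, ZMod.val_injective n e1.symm⟩

/-- the cluster equation -/
theorem cluster {i δ δ' θ r r' : ℕ} (hi : 2 ≤ i) (hδ : 2 ≤ δ) (hθ : θ < δ')
    (h : ((2 : ℤ) ^ (i * θ) + 2 ^ (i * (θ + 1)) - 1 - 2 ^ (i * δ')) * 2 ^ r'
      = (1 - 2 ^ (i * (δ - 1))) * 2 ^ r) :
    θ = 0 ∧ δ' = δ ∧ r = r' + i := by
  obtain ⟨e, rfl⟩ : ∃ e, i = e + 2 := ⟨i - 2, by omega⟩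
  obtain ⟨f, rfl⟩ : ∃ f, δ = f + 2 := ⟨δ - 2, by omega⟩
  have hf : f + 2 - 1 = f + 1 := by omega
  rw [hf] at h
  have hodd : ∀ a : ℕ, 1 ≤ a → ∃ b : ℤ, (2 : ℤ) ^ ((e + 2) * a) = 4 * b ∧ 1 ≤ b := by
    intro a ha
    obtain ⟨a', rfl⟩ : ∃ a', a = a' + 1 := ⟨a - 1, by omega⟩
    refine ⟨2 ^ ((e + 2) * a' + e), ?_, one_le_pow₀ (by norm_num)⟩
    rw [show (e + 2) * (a' + 1) = ((e + 2) * a' + e) + 2 by ring, pow_add]
    ring
  obtain ⟨A, hA, hA1⟩ := hodd (f + 1) (by omega)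
  rcases Nat.eq_zero_or_pos θ with h0 | h0
  · subst h0
    rw [zero_add, mul_zero, pow_zero, mul_one] at h
    rcases Nat.lt_or_ge 1 δ' with h1 | h1
    · obtain ⟨g, rfl⟩ : ∃ g, δ' = g + 2 := ⟨δ' - 2, by omega⟩
      have h2 : (2 : ℤ) ^ (r' + (e + 2)) * (2 ^ ((e + 2) * (g + 1)) - 1)
          = 2 ^ r * (2 ^ ((e + 2) * (f + 1)) - 1) := by
        have e1 : (2 : ℤ) ^ ((e + 2) * (g + 2)) = 2 ^ ((e + 2) * (g + 1)) * 2 ^ (e + 2) := by
          rw [← pow_add]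
          congr 1
        rw [e1] at h
        rw [pow_add 2 r']
        linarith
      obtain ⟨B, hB, hB1⟩ := hodd (g + 1) (by omega)
      have o1 : Odd ((2 : ℤ) ^ ((e + 2) * (g + 1)) - 1) := by
        rw [hB]; exact ⟨2 * B - 1, by ring⟩
      have o2 : Odd ((2 : ℤ) ^ ((e + 2) * (f + 1)) - 1) := by
        rw [hA]; exact ⟨2 * A - 1, by ring⟩
      obtain ⟨h3, h4⟩ := two_pow_odd o1 o2 h2
      have h5 : (2 : ℤ) ^ ((e + 2) * (g + 1)) = 2 ^ ((e + 2) * (f + 1)) := by linarith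
      have h6 : (2 : ℕ) ^ ((e + 2) * (g + 1)) = 2 ^ ((e + 2) * (f + 1)) := by exact_mod_cast h5
      have h7 := Nat.pow_right_injective (le_refl 2) h6
      have h8 := Nat.eq_of_mul_eq_mul_left (by omega : 0 < e + 2) h7
      exact ⟨rfl, by omega, h3.symm⟩
    · exfalso
      have h2 : δ' = 1 := by omega
      subst h2
      rw [mul_one] at h
      have h3 : (0 : ℤ) = (1 - 2 ^ ((e + 2) * (f + 1))) * 2 ^ r := by linarith
      have h4 : (2 : ℤ) ^ r ≠ 0 := by positivity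
      rcases mul_eq_zero.1 h3.symm with h5 | h5
      · rw [hA] at h5
        omega
      · exact h4 h5
  · exfalso
    obtain ⟨B, hB, hB1⟩ := hodd θ (by omega)
    obtain ⟨C, hC, hC1⟩ := hodd (θ + 1) (by omega)
    obtain ⟨D, hD, hD1⟩ := hodd δ' (by omega)
    rw [hA, hB, hC, hD] at h
    have h2 : (2 : ℤ) ^ r' * (4 * D + 1 - 4 * B - 4 * C) = 2 ^ r * (4 * A - 1) := by linarith
    have o1 : Odd (4 * D + 1 - 4 * B - 4 * C) := ⟨2 * D - 2 * B - 2 * C, by ring⟩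
    have o2 : Odd (4 * A - 1) := ⟨2 * A - 1, by ring⟩
    obtain ⟨_, h4⟩ := two_pow_odd o1 o2 h2
    omega

theorem cluster_one {i δ δ' r r' : ℕ} (hi : 2 ≤ i) (hδ : 2 ≤ δ) (hδ' : 1 ≤ δ')
    (h : (-1 - (2 : ℤ) ^ (i * δ')) * 2 ^ r' = (1 - 2 ^ (i * (δ - 1))) * 2 ^ r) : False := by
  obtain ⟨e, rfl⟩ : ∃ e, i = e + 2 := ⟨i - 2, by omega⟩
  have hodd : ∀ a : ℕ, 1 ≤ a → ∃ b : ℤ, (2 : ℤ) ^ ((e + 2) * a) = 4 * b ∧ 1 ≤ b := by
    intro a ha
    obtain ⟨a', rfl⟩ : ∃ a', a = a' + 1 := ⟨a - 1, by omega⟩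
    refine ⟨2 ^ ((e + 2) * a' + e), ?_, one_le_pow₀ (by norm_num)⟩
    rw [show (e + 2) * (a' + 1) = ((e + 2) * a' + e) + 2 by ring, pow_add]
    ring
  obtain ⟨A, hA, hA1⟩ := hodd (δ - 1) (by omega)
  obtain ⟨B, hB, hB1⟩ := hodd δ' hδ'
  rw [hA, hB] at h
  have h2 : (2 : ℤ) ^ r' * (4 * B + 1) = 2 ^ r * (4 * A - 1) := by linarith
  have o1 : Odd (4 * B + 1) := ⟨2 * B, by ring⟩
  have o2 : Odd (4 * A - 1) := ⟨2 * A - 1, by ring⟩
  obtain ⟨_, h4⟩ := two_pow_odd o1 o2 h2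
  omega

end Pool.Agent.Lib.MP_eacabd_co.Gold8
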