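import Mathlib
import Pool.Agent.Lib.MP_eacabd_co.Gold8.Cut

/-!
Switching of the Gold functions, part 2: isolating one term of a relation modulo `2 ^ n - 1`.
-/

set_option autoImplicit false

namespace Pool.Agent.Lib.MP_eacabd_co.Gold8

open Finset

theorem val_sub_add {n : ℕ} [NeZero n] (m h : ZMod n) {t : ℕ} (ht : t ≤ (m - h).val) :
    (m - (h + (t : ZMod n))).val = (m - h).val - t := by
  have h1 : m - (h + (t : ZMod n)) = (((m - h).val - t : ℕ) : ZMod n) := by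
    rw [Nat.cast_sub ht, ZMod.natCast_val, ZMod.cast_id', id]
    ring
  rw [h1, ZMod.val_natCast, Nat.mod_eq_of_lt]
  have := ZMod.val_lt (m - h)
  omega

theorem val_sub_add' {n : ℕ} [NeZero n] (m h : ZMod n) {t : ℕ} (ht : (m - h).val < t) (htn : t ≤ n) :
    (m - (h + (t : ZMod n))).val = (m - h).val + n - t := by
  have h1 : m - (h + (t : ZMod n)) = (((m - h).val + n - t : ℕ) : ZMod n) := by
    rw [Nat.cast_sub (by omega), Nat.cast_add, ZMod.natCast_val, ZMod.cast_id', id,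
      ZMod.natCast_self]
    ring
  rw [h1, ZMod.val_natCast, Nat.mod_eq_of_lt]
  omega

theorem island {n : ℕ} (hn : 8 ≤ n) [NeZero n] {κ lam : Type} [Fintype κ] [Fintype lam]
    {x : ZMod n} {cx : ℤ} {lx wx : ℕ} (hcx : |cx| ≤ wx * 2 ^ lx)
    {m : κ → ZMod n} {c : κ → ℤ} {l w : κ → ℕ} (hc : ∀ k, |c k| ≤ w k * 2 ^ l k)
    {p : lam → ZMod n} {d : lam → ℤ} {lp wp : lam → ℕ} (hd : ∀ j, |d j| ≤ wp j * 2 ^ lp j)
    (hw : wx + ∑ j, wp j + ∑ k, w k ≤ 12) {L : ℕ} (hLn : 2 * L + lx + 1 ≤ n)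
    (hL : ∑ k, (l k + 4) + 4 ≤ L)
    (hfar : ∀ j, 2 * L + lx + 1 ≤ (p j - (x - (L : ZMod n))).val ∧
      (p j - (x - (L : ZMod n))).val + lp j < n)
    (hrel : ((cx : ℤ) : R n) * pw x + ∑ j, ((d j : ℤ) : R n) * pw (p j)
      + ∑ k, ((c k : ℤ) : R n) * pw (m k) = 0) :
    ∃ (h : ZMod n) (s : ℕ),
      cx * 2 ^ (x - h).val + ∑ k, (if (m k - h).val < s then c k * 2 ^ (m k - h).val else 0) = 0 ∧
      (∑ j, ((d j : ℤ) : R n) * pw (p j)
        + ∑ k, (if (m k - h).val < s then 0 else ((c k : ℤ) : R n) * pw (m k)) = 0) := by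
  classical
  -- the two windows
  obtain ⟨u, hu, hu'⟩ := exists_window m l (x - (L : ZMod n)) (L := L) (by omega) hL
  obtain ⟨v, hv, hv'⟩ := exists_window m l (x + ((lx + 1 : ℕ) : ZMod n)) (L := L) (by omega) hL
  set g : ZMod n := x - (L : ZMod n) with hg
  set h : ZMod n := g + ((u + 4 : ℕ) : ZMod n) with hh
  have hh1 : g + (u : ZMod n) + 4 = h := by
    rw [hh]; push_cast; ring
  rw [hh1] at hu'
  -- offset of `x`
  have hxg : (x - g).val = L := by
    have : x - g = (L : ZMod n) := by rw [hg]; ring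
    rw [this, ZMod.val_natCast, Nat.mod_eq_of_lt (by omega)]
  have hxh : (x - h).val = L - (u + 4) := by
    rw [hh, val_sub_add _ _ (by omega), hxg]
  set s : ℕ := (L - (u + 4)) + lx + 1 + v with hs
  have hh2 : x + ((lx + 1 : ℕ) : ZMod n) + (v : ZMod n) + 4 = h + ((s + 4 : ℕ) : ZMod n) := by
    have e : ((L - (u + 4) : ℕ) : ZMod n) = (L : ZMod n) - ((u + 4 : ℕ) : ZMod n) := by
      rw [Nat.cast_sub (by omega)]
    rw [hh, hg, hs]
    push_cast
    push_cast at e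
    rw [e]
    ring
  rw [hh2] at hv'
  have hsn : s + 4 ≤ n := by omega
  have hdis : ∀ k, (m k - h).val + l k < s ∨ s + 4 ≤ (m k - h).val := by
    intro k
    rcases Nat.lt_or_ge (m k - h).val (s + 4) with h1 | h1
    · left
      have h2 := hv' k
      rw [val_sub_add' _ _ h1 hsn] at h2
      omega
    · exact Or.inr h1
  have hfar' : ∀ j, s + 4 ≤ (p j - h).val ∧ (p j - h).val + lp j + 5 ≤ n := by
    intro j
    obtain ⟨h1, h2⟩ := hfar j
    have h3 : (p j - h).val = (p j - g).val - (u + 4) := by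
      rw [hh, val_sub_add _ _ (by omega)]
    rw [h3]
    omega
  -- all atoms together
  let M : (Unit ⊕ lam) ⊕ κ → ZMod n := Sum.elim (Sum.elim (fun _ => x) p) m
  let C : (Unit ⊕ lam) ⊕ κ → ℤ := Sum.elim (Sum.elim (fun _ => cx) d) c
  let Ls : (Unit ⊕ lam) ⊕ κ → ℕ := Sum.elim (Sum.elim (fun _ => lx) lp) l
  let W : (Unit ⊕ lam) ⊕ κ → ℕ := Sum.elim (Sum.elim (fun _ => wx) wp) w
  have hC : ∀ k, |C k| ≤ W k * 2 ^ Ls k := by
    rintro ((_ | j) | k)
    · exact hcx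
    · exact hd j
    · exact hc k
  have hW : ∑ k, W k ≤ 12 := by
    simp only [W, Fintype.sum_sum_type, Sum.elim_inl, Sum.elim_inr, univ_unique, sum_singleton]
    omega
  have hR : ∑ k, ((C k : ℤ) : R n) * pw (M k) = 0 := by
    simp only [C, M, Fintype.sum_sum_type, Sum.elim_inl, Sum.elim_inr, univ_unique, sum_singleton]
    exact hrel
  have hH : ∀ k, (M k - h).val + Ls k + 5 ≤ n := by
    rintro ((_ | j) | k)
    · simp only [M, Ls, Sum.elim_inl]
      rw [hxh]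
      omega
    · exact (hfar' j).2
    · exact hu' k
  have hS : ∀ k, (M k - h).val + Ls k < s ∨ s + 4 ≤ (M k - h).val := by
    rintro ((_ | j) | k)
    · left
      simp only [M, Ls, Sum.elim_inl]
      rw [hxh]
      omega
    · exact Or.inr (hfar' j).1
    · exact hdis k
  have hx1 : (x - h).val < s := by rw [hxh]; omega
  have hj1 : ∀ j, ¬ (p j - h).val < s := fun j => by have := (hfar' j).1; omega
  have hmain : cx * 2 ^ (x - h).val
      + ∑ k, (if (m k - h).val < s then c k * 2 ^ (m k - h).val else 0) = 0 := by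
    have h1 := cut hn hC hW hR hH hS
    rw [Fintype.sum_sum_type, Fintype.sum_sum_type] at h1
    have e1 : ∑ a : Unit, (if (M (Sum.inl (Sum.inl a)) - h).val < s then
        C (Sum.inl (Sum.inl a)) * 2 ^ (M (Sum.inl (Sum.inl a)) - h).val else 0)
        = cx * 2 ^ (x - h).val := by
      rw [univ_unique, sum_singleton]
      exact if_pos hx1
    have e2 : ∑ a : lam, (if (M (Sum.inl (Sum.inr a)) - h).val < s then
        C (Sum.inl (Sum.inr a)) * 2 ^ (M (Sum.inl (Sum.inr a)) - h).val else 0) = 0 :=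
      sum_eq_zero fun j _ => if_neg (hj1 j)
    rw [e1, e2, add_zero] at h1
    exact h1
  refine ⟨h, s, hmain, ?_⟩
  -- the rest
  have hcast : ((cx : ℤ) : R n) * pw x
      + ∑ k, (if (m k - h).val < s then ((c k : ℤ) : R n) * pw (m k) else 0) = 0 := by
    have e1 : ∀ z : ZMod n, pw z = pw h * (2 : R n) ^ (z - h).val := by
      intro z
      have : pw z = pw h * pw (z - h) := by rw [← pw_add]; congr 1; ring
      rw [this, pw]
      rfl
    have e2 := congrArg (fun z : ℤ => pw h * (z : R n)) hmain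
    simp only [Int.cast_zero, mul_zero] at e2
    refine Eq.trans ?_ e2
    push_cast
    rw [mul_add, mul_sum, e1 x]
    congr 1
    · ring
    · refine sum_congr rfl fun k _ => ?_
      split_ifs
      · rw [e1 (m k)]
        ring
      · simp
  have hsplit : ∑ k, ((c k : ℤ) : R n) * pw (m k)
      = ∑ k, (if (m k - h).val < s then ((c k : ℤ) : R n) * pw (m k) else 0)
        + ∑ k, (if (m k - h).val < s then 0 else ((c k : ℤ) : R n) * pw (m k)) := by
    rw [← sum_add_distrib]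
    refine sum_congr rfl fun k _ => ?_
    split_ifs <;> simp
  rw [hsplit] at hrel
  linear_combination hrel - hcast

/-- two atoms -/
theorem eq_two {n : ℕ} (hn : 8 ≤ n) [NeZero n] {m1 m2 : ZMod n} {c1 c2 : ℤ} {l1 l2 w1 w2 : ℕ}
    (h1 : |c1| ≤ w1 * 2 ^ l1) (h2 : |c2| ≤ w2 * 2 ^ l2) (hw : w1 + w2 ≤ 12)
    (hl : l1 + l2 + 12 ≤ n)
    (hrel : ((c1 : ℤ) : R n) * pw m1 = ((c2 : ℤ) : R n) * pw m2) :
    ∃ h : ZMod n, c1 * 2 ^ (m1 - h).val = c2 * 2 ^ (m2 - h).val := by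
  obtain ⟨u, _, hu'⟩ := exists_window (κ := Fin 2) ![m1, m2] ![l1, l2] 0 (L := n) le_rfl (by
    simp only [Fin.sum_univ_two, Matrix.cons_val_zero, Matrix.cons_val_one]
    omega)
  refine ⟨0 + (u : ZMod n) + 4, ?_⟩
  have h3 := rot (κ := Fin 2) hn (m := ![m1, m2]) (c := ![c1, -c2]) (l := ![l1, l2])
    (w := ![w1, w2]) ?_ ?_ ?_ hu'
  · simp only [Fin.sum_univ_two, Matrix.cons_val_zero, Matrix.cons_val_one] at h3
    linarith
  · intro k
    fin_cases k
    · exact h1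
    · simpa using h2
  · simpa [Fin.sum_univ_two] using hw
  · simp only [Fin.sum_univ_two, Matrix.cons_val_zero, Matrix.cons_val_one]
    push_cast
    rw [hrel]
    ring

/-- one atom -/
theorem ne_one {n : ℕ} (hn : 8 ≤ n) [NeZero n] {m1 : ZMod n} {c1 : ℤ} {l1 w1 : ℕ}
    (h1 : |c1| ≤ w1 * 2 ^ l1) (hw : w1 ≤ 12) (hl : l1 + 12 ≤ n)
    (hrel : ((c1 : ℤ) : R n) * pw m1 = 0) : c1 = 0 := by
  obtain ⟨h, h2⟩ := eq_two hn (m1 := m1) (m2 := m1) (c1 := c1) (c2 := 0) (l2 := 0) (w2 := 0)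
    (w1 := w1) (l1 := l1) h1 (by simp) (by omega) (by omega) (by rw [hrel]; simp)
  have h3 : (2 : ℤ) ^ (m1 - h).val ≠ 0 := by positivity
  rw [zero_mul] at h2
  rcases mul_eq_zero.1 h2 with h4 | h4
  · exact h4
  · exact absurd h4 h3

/-- `island` with `0, 1` coefficients instead of conditions -/
theorem island' {n : ℕ} (hn : 8 ≤ n) [NeZero n] {κ lam : Type} [Fintype κ] [Fintype lam]
    {x : ZMod n} {cx : ℤ} {lx wx : ℕ} (hcx : |cx| ≤ wx * 2 ^ lx)
    {m : κ → ZMod n} {c : κ → ℤ} {l w : κ → ℕ} (hc : ∀ k, |c k| ≤ w k * 2 ^ l k)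
    {p : lam → ZMod n} {d : lam → ℤ} {lp wp : lam → ℕ} (hd : ∀ j, |d j| ≤ wp j * 2 ^ lp j)
    (hw : wx + ∑ j, wp j + ∑ k, w k ≤ 12) {L : ℕ} (hLn : 2 * L + lx + 1 ≤ n)
    (hL : ∑ k, (l k + 4) + 4 ≤ L)
    (hfar : ∀ j, 2 * L + lx + 1 ≤ (p j - (x - (L : ZMod n))).val ∧
      (p j - (x - (L : ZMod n))).val + lp j < n)
    (hrel : ((cx : ℤ) : R n) * pw x + ∑ j, ((d j : ℤ) : R n) * pw (p j)
      + ∑ k, ((c k : ℤ) : R n) * pw (m k) = 0) :
    ∃ (h : ZMod n) (χ : κ → ℤ), (∀ k, χ k = 0 ∨ χ k = 1) ∧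
      cx * 2 ^ (x - h).val + ∑ k, χ k * c k * 2 ^ (m k - h).val = 0 ∧
      (∑ j, ((d j : ℤ) : R n) * pw (p j)
        + ∑ k, (((1 - χ k) * c k : ℤ) : R n) * pw (m k) = 0) := by
  classical
  obtain ⟨h, s, h1, h2⟩ := island hn hcx hc hd hw hLn hL hfar hrel
  refine ⟨h, fun k => if (m k - h).val < s then 1 else 0, fun k => ?_, ?_, ?_⟩
  · by_cases h3 : (m k - h).val < s
    · right; exact if_pos h3
    · left; exact if_neg h3
  · refine Eq.trans ?_ h1
    congr 1
    refine sum_congr rfl fun k _ => ?_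
    by_cases h3 : (m k - h).val < s
    · simp [h3]
    · simp [h3]
  · refine Eq.trans ?_ h2
    congr 1
    refine sum_congr rfl fun k _ => ?_
    by_cases h3 : (m k - h).val < s
    · simp [h3]
    · simp [h3]

end Pool.Agent.Lib.MP_eacabd_co.Gold8
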