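import Mathlib
import Pool.Agent.Lib.MP_eacabd_co.Gold8.Island
import Pool.Agent.Lib.MP_eacabd_co.Gold8.Arith

/-!
Switching of the Gold functions, part 4: uniqueness of the exponents in general position.
-/

set_option autoImplicit false

namespace Pool.Agent.Lib.MP_eacabd_co.Gold8

open Finset

/-- cyclic distance at least `3 i + 21` -/
def Far {n : ℕ} (i : ℕ) (x z : ZMod n) : Prop :=
  3 * i + 21 ≤ (z - x).val ∧ (z - x).val + (3 * i + 21) ≤ n

theorem cast_val {n : ℕ} [NeZero n] (z : ZMod n) : ((z.val : ℕ) : ZMod n) = z := by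
  rw [ZMod.natCast_val, ZMod.cast_id', id]

theorem Far.off {n i : ℕ} [NeZero n] {x z : ZMod n} (h : Far i x z) {l : ℕ} (hl : l ≤ i) :
    2 * (2 * i + 20) + i + 1 ≤ (z - (x - ((2 * i + 20 : ℕ) : ZMod n))).val ∧
      (z - (x - ((2 * i + 20 : ℕ) : ZMod n))).val + l < n := by
  obtain ⟨h1, h2⟩ := h
  have e : (z - (x - ((2 * i + 20 : ℕ) : ZMod n))).val = (z - x).val + (2 * i + 20) := by
    have e1 : z - (x - ((2 * i + 20 : ℕ) : ZMod n))
        = (((z - x).val + (2 * i + 20) : ℕ) : ZMod n) := by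
      have e2 := cast_val (z - x)
      rw [Nat.cast_add (z - x).val, e2]
      ring
    rw [e1, ZMod.val_natCast, Nat.mod_eq_of_lt (by omega)]
  rw [e]
  omega

theorem zero_or_one_mul {a b : ℤ} (ha : a = 0 ∨ a = 1) (hb : b = 0 ∨ b = 1) :
    a * b = 0 ∨ a * b = 1 := by
  rcases ha with rfl | rfl <;> rcases hb with rfl | rfl <;> simp

theorem one_sub_zero_or_one {a : ℤ} (ha : a = 0 ∨ a = 1) : 1 - a = 0 ∨ 1 - a = 1 := by
  rcases ha with rfl | rfl <;> simp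

theorem abs_one_add (i : ℕ) : |(1 : ℤ) + 2 ^ i| ≤ 2 * 2 ^ i := by
  have h1 : (1 : ℤ) ≤ 2 ^ i := one_le_pow₀ (by norm_num)
  rw [abs_of_nonneg (by linarith)]
  linarith

theorem abs_mul_01 {a c : ℤ} {B : ℤ} (ha : a = 0 ∨ a = 1) (hc : |c| ≤ B) : |a * c| ≤ B := by
  rcases ha with rfl | rfl
  · simp only [zero_mul, abs_zero]
    exact le_trans (abs_nonneg c) hc
  · simpa using hc

theorem split01 {c d : ℤ} (hc : c = 0 ∨ c = 1) (hd : d = 0 ∨ d = 1) (h : (1 - c) * (1 - d) = 1) :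
    c = 0 ∧ d = 0 := by
  rcases hc with rfl | rfl
  · rcases hd with rfl | rfl
    · exact ⟨rfl, rfl⟩
    · norm_num at h
  · norm_num at h

theorem isl4 {n i : ℕ} (hn : 5 * i + 41 ≤ n) [NeZero n] {x a b y : ZMod n}
    (h1 : Far i x a) (h2 : Far i x b) (h3 : Far i x y) {d3 : ℤ} (hd3 : |d3| ≤ 2 * 2 ^ i)
    {t l j k : ZMod n} {c1 c2 c3 c4 : ℤ} (hc1 : |c1| ≤ 2 * 2 ^ i) (hc2 : |c2| ≤ 2 * 2 ^ i)
    (hc3 : |c3| ≤ 1) (hc4 : |c4| ≤ 1)
    (hrel : (1 + 2 ^ i : R n) * pw x - pw a - pw b + (d3 : R n) * pw y + (c1 : R n) * pw t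
      + (c2 : R n) * pw l + (c3 : R n) * pw j + (c4 : R n) * pw k = 0) :
    ∃ (h : ZMod n) (χ1 χ2 χ3 χ4 : ℤ), (χ1 = 0 ∨ χ1 = 1) ∧ (χ2 = 0 ∨ χ2 = 1) ∧
      (χ3 = 0 ∨ χ3 = 1) ∧ (χ4 = 0 ∨ χ4 = 1) ∧
      (1 + 2 ^ i : ℤ) * 2 ^ (x - h).val + χ1 * c1 * 2 ^ (t - h).val + χ2 * c2 * 2 ^ (l - h).val
        + χ3 * c3 * 2 ^ (j - h).val + χ4 * c4 * 2 ^ (k - h).val = 0 ∧
      - pw a - pw b + (d3 : R n) * pw y + (((1 - χ1) * c1 : ℤ) : R n) * pw t
        + (((1 - χ2) * c2 : ℤ) : R n) * pw l + (((1 - χ3) * c3 : ℤ) : R n) * pw j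
        + (((1 - χ4) * c4 : ℤ) : R n) * pw k = 0 := by
  obtain ⟨h, χ, hχ, e1, e2⟩ := island' (κ := Fin 4) (lam := Fin 3) (by omega : 8 ≤ n) (x := x)
    (cx := 1 + 2 ^ i)
    (lx := i) (wx := 2) (by simpa using abs_one_add i) (m := ![t, l, j, k])
    (c := ![c1, c2, c3, c4]) (l := ![i, i, 0, 0]) (w := ![2, 2, 1, 1]) (by
      intro q
      fin_cases q
      · simpa using hc1
      · simpa using hc2
      · simpa using hc3
      · simpa using hc4)
    (p := ![a, b, y]) (d := ![-1, -1, d3]) (lp := ![0, 0, i]) (wp := ![1, 1, 2]) (by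
      intro q
      fin_cases q
      · simp
      · simp
      · simpa using hd3)
    (by simp [Fin.sum_univ_three, Fin.sum_univ_four])
    (L := 2 * i + 20) (by omega)
    (by simp only [Fin.sum_univ_four, Matrix.cons_val_zero, Matrix.cons_val_one,
          Matrix.cons_val]; omega)
    (by
      intro q
      fin_cases q
      · exact h1.off (Nat.zero_le _)
      · exact h2.off (Nat.zero_le _)
      · exact h3.off le_rfl)
    (by
      simp only [Fin.sum_univ_three, Fin.sum_univ_four, Matrix.cons_val_zero, Matrix.cons_val_one,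
          Matrix.cons_val]
      push_cast
      linear_combination hrel)
  simp only [Fin.sum_univ_three, Fin.sum_univ_four, Matrix.cons_val_zero, Matrix.cons_val_one,
    Matrix.cons_val] at e1 e2
  refine ⟨h, χ 0, χ 1, χ 2, χ 3, hχ 0, hχ 1, hχ 2, hχ 3, ?_, ?_⟩
  · linear_combination e1
  · push_cast at e2 ⊢
    linear_combination e2

theorem val_inj {n i : ℕ} [NeZero n] {z z' h : ZMod n}
    (h6 : (1 + 2 ^ i : ℤ) * 2 ^ (z - h).val = (1 + 2 ^ i) * 2 ^ (z' - h).val) : z' = z := by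
  have hQ : (0 : ℤ) < 1 + 2 ^ i := by positivity
  have h7 := two_pow_inj hQ.ne' h6
  have h8 := ZMod.val_injective n h7
  linear_combination -h8

theorem rest2 {n : ℕ} (hn8 : 8 ≤ n) [NeZero n] {a b j k : ZMod n} (hab : a ≠ b) {u v : ℤ}
    (hu : u = 0 ∨ u = 1) (hv : v = 0 ∨ v = 1)
    (h6 : -pw a - pw b + (u : R n) * pw j + (v : R n) * pw k = 0) :
    u = 1 ∧ v = 1 ∧ ((j = a ∧ k = b) ∨ (j = b ∧ k = a)) := by
  rcases hu with rfl | rfl
  · exfalso
    rcases hv with rfl | rfl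
    · apply pw_add_ne_zero hn8 hab
      push_cast at h6
      linear_combination -h6
    · apply pw_add_ne_pw hn8 hab k
      push_cast at h6
      linear_combination -h6
  · rcases hv with rfl | rfl
    · exfalso
      apply pw_add_ne_pw hn8 hab j
      push_cast at h6
      linear_combination -h6
    · refine ⟨rfl, rfl, pw_add_eq hn8 hab ?_⟩
      push_cast at h6
      linear_combination -h6

theorem nn01 {a : ℤ} (h : a = 0 ∨ a = 1) : 0 ≤ a := by
  rcases h with rfl | rfl <;> norm_num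

theorem ab {n i : ℕ} (hn : 5 * i + 41 ≤ n) [NeZero n] {x y a b : ZMod n} (hab : a ≠ b)
    (h1 : Far i x a) (h2 : Far i x b) (h3 : Far i x y) (h4 : Far i y a) (h5 : Far i y b)
    {j k t l : ZMod n} {e : ℤ} (he : e = 0 ∨ e = 1)
    (hrel : (1 + 2 ^ i : R n) * pw x + (1 + 2 ^ i) * pw y - pw a - pw b
      = (1 + 2 ^ i) * pw t + (e : R n) * (1 + 2 ^ i) * pw l - pw j - pw k) :
    e = 1 ∧ ((j = a ∧ k = b) ∨ (j = b ∧ k = a)) ∧ ((t = x ∧ l = y) ∨ (t = y ∧ l = x)) := by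
  have hn8 : 8 ≤ n := by omega
  obtain ⟨h, χ1, χ2, χ3, χ4, hχ1, hχ2, hχ3, hχ4, e1, e2⟩ := isl4 hn h1 h2 h3
    (d3 := 1 + 2 ^ i) (abs_one_add i) (t := t) (l := l) (j := j) (k := k)
    (c1 := -(1 + 2 ^ i)) (c2 := e * (-(1 + 2 ^ i))) (c3 := 1) (c4 := 1)
    (by rw [abs_neg]; exact abs_one_add i)
    (abs_mul_01 he (by rw [abs_neg]; exact abs_one_add i)) (by simp) (by simp)
    (by push_cast; linear_combination hrel)
  obtain ⟨g, ψ1, ψ2, ψ3, ψ4, hψ1, hψ2, hψ3, hψ4, f1, f2⟩ := isl4 hn h4 h5 h4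
    (d3 := 0) (by simp) (t := t) (l := l) (j := j) (k := k)
    (c1 := (1 - χ1) * -(1 + 2 ^ i)) (c2 := (1 - χ2) * (e * (-(1 + 2 ^ i)))) (c3 := (1 - χ3) * 1)
    (c4 := (1 - χ4) * 1)
    (abs_mul_01 (one_sub_zero_or_one hχ1) (by rw [abs_neg]; exact abs_one_add i))
    (abs_mul_01 (one_sub_zero_or_one hχ2)
      (abs_mul_01 he (by rw [abs_neg]; exact abs_one_add i)))
    (abs_mul_01 (one_sub_zero_or_one hχ3) (by simp))
    (abs_mul_01 (one_sub_zero_or_one hχ4) (by simp))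
    (by push_cast at e2 ⊢; linear_combination e2)
  clear hrel e2
  have hX : (0 : ℤ) < (1 + 2 ^ i) * 2 ^ (x - h).val := by positivity
  have hY : (0 : ℤ) < (1 + 2 ^ i) * 2 ^ (y - g).val := by positivity
  have m3 : 0 ≤ χ3 * 1 * 2 ^ (j - h).val :=
    mul_nonneg (mul_nonneg (nn01 hχ3) zero_le_one) (by positivity)
  have m4 : 0 ≤ χ4 * 1 * 2 ^ (k - h).val :=
    mul_nonneg (mul_nonneg (nn01 hχ4) zero_le_one) (by positivity)
  have m3' : 0 ≤ ψ3 * ((1 - χ3) * 1) * 2 ^ (j - g).val :=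
    mul_nonneg (mul_nonneg (nn01 hψ3)
      (mul_nonneg (nn01 (one_sub_zero_or_one hχ3)) zero_le_one)) (by positivity)
  have m4' : 0 ≤ ψ4 * ((1 - χ4) * 1) * 2 ^ (k - g).val :=
    mul_nonneg (mul_nonneg (nn01 hψ4)
      (mul_nonneg (nn01 (one_sub_zero_or_one hχ4)) zero_le_one)) (by positivity)
  have c3 := zero_or_one_mul (one_sub_zero_or_one hψ3) (one_sub_zero_or_one hχ3)
  have c4 := zero_or_one_mul (one_sub_zero_or_one hψ4) (one_sub_zero_or_one hχ4)
  rcases hχ1 with rfl | rfl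
  · rcases hχ2 with rfl | rfl
    · exfalso
      linarith
    · rcases he with rfl | rfl
      · exfalso
        linarith
      rcases hψ1 with rfl | rfl
      · exfalso
        linarith
      obtain ⟨u1, u2, u3⟩ := rest2 (j := j) (k := k) hn8 hab c3 c4 (by push_cast at f2 ⊢; linear_combination f2)
      obtain ⟨rfl, rfl⟩ := split01 hψ3 hχ3 u1
      obtain ⟨rfl, rfl⟩ := split01 hψ4 hχ4 u2
      exact ⟨rfl, u3, Or.inr ⟨val_inj (h := g) (i := i) (by linarith),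
        val_inj (h := h) (i := i) (by linarith)⟩⟩
  · rcases hχ2 with rfl | rfl
    · rcases he with rfl | rfl
      · exfalso
        linarith
      rcases hψ2 with rfl | rfl
      · exfalso
        linarith
      obtain ⟨u1, u2, u3⟩ := rest2 (j := j) (k := k) hn8 hab c3 c4 (by push_cast at f2 ⊢; linear_combination f2)
      obtain ⟨rfl, rfl⟩ := split01 hψ3 hχ3 u1
      obtain ⟨rfl, rfl⟩ := split01 hψ4 hχ4 u2
      exact ⟨rfl, u3, Or.inl ⟨val_inj (h := h) (i := i) (by linarith),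
        val_inj (h := g) (i := i) (by linarith)⟩⟩
    · exfalso
      linarith

end Pool.Agent.Lib.MP_eacabd_co.Gold8
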