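import Mathlib
import Pool.Agent.Lib.MP_eacabd_co.Gold8.Generic

/-!
Switching of the Gold functions, part 5: uniqueness of the exponents of a short arc.
-/

set_option autoImplicit false

namespace Pool.Agent.Lib.MP_eacabd_co.Gold8

open Finset

theorem abs_one_sub (m : ℕ) : |(1 : ℤ) - 2 ^ m| ≤ 2 ^ m := by
  have h1 : (1 : ℤ) ≤ 2 ^ m := one_le_pow₀ (by norm_num)
  rw [abs_le]
  constructor <;> linarith

theorem cc {n i M : ℕ} (hi : 1 ≤ i) (hn : 4 * (i * M) + 30 ≤ n) [NeZero n] {p y : ZMod n}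
    (hy : y = p + ((n / 2 : ℕ) : ZMod n)) {δ δ' : ℕ} (hδ : 2 ≤ δ) (hδM : δ < M) (hδ' : δ' < M)
    {p' z : ZMod n} {A e : ℤ} (he : e = 0 ∨ e = 1) (hA : |A| ≤ 4 * 2 ^ (i * δ'))
    (hrel : (2 ^ i - 2 ^ (i * δ) : R n) * pw p + (1 + 2 ^ i) * pw y
      = (A : R n) * pw p' + (e : R n) * (1 + 2 ^ i) * pw z) :
    e = 1 ∧ z = y ∧ ∃ h : ZMod n, A * 2 ^ (p' - h).val
      = (1 - 2 ^ (i * (δ - 1))) * 2 ^ (p + (i : ZMod n) - h).val := by
  have hn8 : 8 ≤ n := by omega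
  obtain ⟨f, rfl⟩ : ∃ f, δ = f + 1 := ⟨δ - 1, by omega⟩
  have hf : f + 1 - 1 = f := by omega
  rw [hf]
  have hp1 : (2 ^ i - 2 ^ (i * (f + 1)) : R n) * pw p = (1 - 2 ^ (i * f)) * pw (p + (i : ZMod n)) := by
    rw [pw_add, pw_natCast, mul_add, mul_one, pow_add]
    ring
  rw [hp1] at hrel
  have b1 : i * δ' + i ≤ i * M := by
    have : i * (δ' + 1) ≤ i * M := Nat.mul_le_mul_left i (by omega)
    rwa [mul_add, mul_one] at this
  have b2 : i * f + i + i ≤ i * M := by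
    have : i * (f + 1 + 1) ≤ i * M := Nat.mul_le_mul_left i (by omega)
    rwa [mul_add, mul_add, mul_one] at this
  have hoff : (p + (i : ZMod n) - (y - ((i * M + 12 : ℕ) : ZMod n))).val
      = i + (i * M + 12) + (n - n / 2) := by
    have e1 : p + (i : ZMod n) - (y - ((i * M + 12 : ℕ) : ZMod n))
        = ((i + (i * M + 12) + (n - n / 2) : ℕ) : ZMod n) := by
      have e2 : ((n / 2 : ℕ) : ZMod n) + ((n - n / 2 : ℕ) : ZMod n) = 0 := by
        rw [← Nat.cast_add, Nat.add_sub_cancel' (Nat.div_le_self n 2), ZMod.natCast_self]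
      rw [hy, Nat.cast_add (i + (i * M + 12)), Nat.cast_add i]
      linear_combination -e2
    rw [e1, ZMod.val_natCast, Nat.mod_eq_of_lt (by omega)]
  obtain ⟨h, χ, hχ, e1, e2⟩ := island' (κ := Fin 2) (lam := Fin 1) hn8 (x := y)
    (cx := 1 + 2 ^ i)
    (lx := i) (wx := 2) (by simpa using abs_one_add i) (m := ![p', z])
    (c := ![-A, -(e * (1 + 2 ^ i))]) (l := ![i * δ', i]) (w := ![4, 2]) (by
      intro q
      fin_cases q
      · simpa using hA
      · simpa using abs_mul_01 he (abs_one_add i))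
    (p := ![p + (i : ZMod n)]) (d := ![1 - 2 ^ (i * f)]) (lp := ![i * f]) (wp := ![1]) (by
      intro q
      fin_cases q
      simpa using abs_one_sub (i * f))
    (by simp [Fin.sum_univ_two])
    (L := i * M + 12) (by omega)
    (by simp only [Fin.sum_univ_two, Matrix.cons_val_zero, Matrix.cons_val_one]; omega)
    (by
      intro q
      fin_cases q
      simp only [Fin.zero_eta, Matrix.cons_val_zero]
      rw [hoff]
      omega)
    (by
      simp only [Fin.sum_univ_two, univ_unique, Fin.default_eq_zero, sum_singleton,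
        Matrix.cons_val_zero, Matrix.cons_val_one]
      push_cast
      linear_combination hrel)
  simp only [Fin.sum_univ_two, univ_unique, Fin.default_eq_zero, sum_singleton,
    Matrix.cons_val_zero, Matrix.cons_val_one] at e1 e2
  have hX : (0 : ℤ) < (1 + 2 ^ i) * 2 ^ (y - h).val := by positivity
  have hneg : (1 : ℤ) - 2 ^ (i * f) < 0 := by
    have : (1 : ℤ) < 2 ^ (i * f) := by
      apply one_lt_pow₀ (by norm_num)
      have : 0 < i * f := Nat.mul_pos (by omega) (by omega)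
      omega
    linarith
  have hχ0 := hχ 0
  have hχ1 := hχ 1
  rcases hχ0 with g0 | g0
  · rw [g0] at e1 e2
    rcases hχ1 with g1 | g1
    · exfalso
      rw [g1] at e1
      linarith
    · rw [g1] at e1 e2
      rcases he with rfl | rfl
      · exfalso
        linarith
      refine ⟨rfl, val_inj (h := h) (i := i) (by linarith), ?_⟩
      refine eq_two hn8 (w1 := 4) (w2 := 1) (l1 := i * δ') (l2 := i * f) (by exact_mod_cast hA)
        (by simpa using abs_one_sub (i * f)) (by norm_num) (by omega) ?_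
      push_cast at e2 ⊢
      linear_combination -e2
  · exfalso
    rw [g0] at e2
    have hε := zero_or_one_mul (one_sub_zero_or_one hχ1) he
    obtain ⟨g, e3⟩ := eq_two hn8 (m1 := z) (m2 := p + (i : ZMod n)) (c1 := (1 - χ 1) * e * (1 + 2 ^ i))
      (c2 := 1 - 2 ^ (i * f)) (w1 := 2) (w2 := 1) (l1 := i) (l2 := i * f)
      (by simpa using abs_mul_01 hε (abs_one_add i))
      (by simpa using abs_one_sub (i * f)) (by norm_num) (by omega)
      (by push_cast at e2 ⊢; linear_combination -e2)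
    have h3 : 0 ≤ (1 - χ 1) * e * (1 + 2 ^ i) * 2 ^ (z - g).val :=
      mul_nonneg (mul_nonneg (nn01 hε) (by positivity)) (by positivity)
    have h4 : (1 - 2 ^ (i * f) : ℤ) * 2 ^ (p + (i : ZMod n) - g).val < 0 :=
      mul_neg_of_neg_of_pos hneg (by positivity)
    linarith

/-- the position is determined -/
theorem cc_inner {n i M : ℕ} (hi : 2 ≤ i) (hn : 4 * (i * M) + 30 ≤ n) [NeZero n] {p y : ZMod n}
    (hy : y = p + ((n / 2 : ℕ) : ZMod n)) {δ δ' θ : ℕ} (hδ : 2 ≤ δ) (hδM : δ < M) (hδ' : δ' < M)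
    (hθ : θ < δ') {p' z : ZMod n} 
    (hrel : (2 ^ i - 2 ^ (i * δ) : R n) * pw p + (1 + 2 ^ i) * pw y
      = (2 ^ (i * θ) + 2 ^ (i * (θ + 1)) - 1 - 2 ^ (i * δ')) * pw p' + (1 + 2 ^ i) * pw z) :
    z = y ∧ θ = 0 ∧ δ' = δ ∧ p' = p := by
  have hA : |(2 ^ (i * θ) + 2 ^ (i * (θ + 1)) - 1 - 2 ^ (i * δ') : ℤ)| ≤ 4 * 2 ^ (i * δ') := by
    have a1 : (2 : ℤ) ^ (i * θ) ≤ 2 ^ (i * δ') :=
      pow_le_pow_right₀ (by norm_num) (Nat.mul_le_mul_left i (by omega))
    have a2 : (2 : ℤ) ^ (i * (θ + 1)) ≤ 2 ^ (i * δ') :=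
      pow_le_pow_right₀ (by norm_num) (Nat.mul_le_mul_left i (by omega))
    have a3 : (1 : ℤ) ≤ 2 ^ (i * δ') := one_le_pow₀ (by norm_num)
    have a4 : (1 : ℤ) ≤ 2 ^ (i * θ) := one_le_pow₀ (by norm_num)
    have a5 : (1 : ℤ) ≤ 2 ^ (i * (θ + 1)) := one_le_pow₀ (by norm_num)
    rw [abs_le]
    constructor <;> linarith
  obtain ⟨_, h2, h, h3⟩ := cc (by omega) hn hy hδ hδM hδ' (p' := p') (z := z) (e := 1) (Or.inr rfl) hA
    (by push_cast; linear_combination hrel)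
  obtain ⟨h4, h5, h6⟩ := cluster hi hδ hθ h3
  refine ⟨h2, h4, h5, ?_⟩
  have e1 := cast_val (p + (i : ZMod n) - h)
  have e2 := cast_val (p' - h)
  rw [h6, Nat.cast_add, e2] at e1
  linear_combination e1

theorem cc_outer {n i M : ℕ} (hi : 2 ≤ i) (hn : 4 * (i * M) + 30 ≤ n) [NeZero n] {p y : ZMod n}
    (hy : y = p + ((n / 2 : ℕ) : ZMod n)) {δ δ' : ℕ} (hδ : 2 ≤ δ) (hδM : δ < M) (hδ' : δ' < M)
    (hδ1 : 1 ≤ δ') {p' z : ZMod n} 
    (hrel : (2 ^ i - 2 ^ (i * δ) : R n) * pw p + (1 + 2 ^ i) * pw y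
      = (-1 - 2 ^ (i * δ')) * pw p' + (1 + 2 ^ i) * pw z) : False := by
  have hA : |(-1 - 2 ^ (i * δ') : ℤ)| ≤ 4 * 2 ^ (i * δ') := by
    have a3 : (1 : ℤ) ≤ 2 ^ (i * δ') := one_le_pow₀ (by norm_num)
    rw [abs_le]
    constructor <;> linarith
  obtain ⟨_, h2, h, h3⟩ := cc (by omega) hn hy hδ hδM hδ' (p' := p') (z := z) (e := 1) (Or.inr rfl) hA
    (by push_cast; linear_combination hrel)
  exact cluster_one hi hδ hδ1 h3

theorem cc_one {n i M : ℕ} (hi : 1 ≤ i) (hn : 4 * (i * M) + 30 ≤ n) [NeZero n] {p y : ZMod n}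
    (hy : y = p + ((n / 2 : ℕ) : ZMod n)) {δ δ' θ : ℕ} (hδ : 2 ≤ δ) (hδM : δ < M) (hδ' : δ' < M)
    (hθ : θ < δ') {p' : ZMod n} {B : ℤ} (hB : B = 1 ∨ B = 2)
    (hrel : (2 ^ i - 2 ^ (i * δ) : R n) * pw p + (1 + 2 ^ i) * pw y
      = ((B : R n) * (2 ^ (i * θ) + 2 ^ (i * (θ + 1))) - 1 - 2 ^ (i * δ')) * pw p') : False := by
  have hA : |(B * (2 ^ (i * θ) + 2 ^ (i * (θ + 1))) - 1 - 2 ^ (i * δ') : ℤ)| ≤ 4 * 2 ^ (i * δ') := by
    have a1 : (2 : ℤ) ^ (i * θ) ≤ 2 ^ (i * δ') :=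
      pow_le_pow_right₀ (by norm_num) (Nat.mul_le_mul_left i (by omega))
    have a2 : (2 : ℤ) ^ (i * (θ + 1)) ≤ 2 ^ (i * δ') :=
      pow_le_pow_right₀ (by norm_num) (Nat.mul_le_mul_left i (by omega))
    have a3 : (1 : ℤ) ≤ 2 ^ (i * δ') := one_le_pow₀ (by norm_num)
    have a4 : (1 : ℤ) ≤ 2 ^ (i * θ) := one_le_pow₀ (by norm_num)
    have a5 : (1 : ℤ) ≤ 2 ^ (i * (θ + 1)) := one_le_pow₀ (by norm_num)
    rw [abs_le]
    rcases hB with rfl | rfl <;> constructor <;> linarith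
  obtain ⟨h1, _⟩ := cc hi hn hy hδ hδM hδ' (p' := p') (e := 0) (z := y) (Or.inl rfl) hA
    (by push_cast; linear_combination hrel)
  norm_num at h1

end Pool.Agent.Lib.MP_eacabd_co.Gold8
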