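import Mathlib
import Pool.Agent.Lib.MP_eacabd_co.Gold8.Short

/-!
Switching of the Gold functions, part 6: the positions `i t` modulo `n` and the exponents.
-/

set_option autoImplicit false

namespace Pool.Agent.Lib.MP_eacabd_co.Gold8

open Finset

/-- the position of the `t`-th iterate -/
def P (n i t : ℕ) : ZMod n := ((i * t : ℕ) : ZMod n)

theorem P_add (n i s t : ℕ) : P n i (s + t) = P n i s + ((i * t : ℕ) : ZMod n) := by
  unfold P
  rw [mul_add, Nat.cast_add]

theorem P_per (n i t : ℕ) : P n i (t + n) = P n i t := by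
  rw [P_add, Nat.cast_mul, ZMod.natCast_self, mul_zero, add_zero]

theorem pw_P_add {n : ℕ} [NeZero n] (i s t : ℕ) :
    pw (P n i (s + t)) = 2 ^ (i * t) * pw (P n i s) := by
  rw [P_add, pw_add, pw_natCast, mul_comm]

theorem P_inj {n i : ℕ} (hc : Nat.Coprime i n) {s t : ℕ} (hs : s < n) (ht : t < n)
    (h : P n i s = P n i t) : s = t := by
  unfold P at h
  rw [ZMod.natCast_eq_natCast_iff] at h
  have h1 : s ≡ t [MOD n] := Nat.ModEq.cancel_left_of_coprime (by rwa [Nat.coprime_comm] at hc) h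
  rwa [Nat.ModEq, Nat.mod_eq_of_lt hs, Nat.mod_eq_of_lt ht] at h1

theorem P_surj {n i : ℕ} [NeZero n] (hc : Nat.Coprime i n) (z : ZMod n) :
    ∃ t < n, P n i t = z := by
  obtain ⟨w, hw⟩ : ∃ w : ZMod n, (i : ZMod n) * w = z := by
    have hu := (ZMod.unitOfCoprime i hc)
    refine ⟨((ZMod.unitOfCoprime i hc)⁻¹ : (ZMod n)ˣ) * z, ?_⟩
    rw [← mul_assoc]
    have : (i : ZMod n) * (((ZMod.unitOfCoprime i hc)⁻¹ : (ZMod n)ˣ) : ZMod n) = 1 := by
      have h1 := (ZMod.unitOfCoprime i hc).mul_inv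
      rwa [ZMod.coe_unitOfCoprime] at h1
    rw [this, one_mul]
  refine ⟨w.val, ZMod.val_lt w, ?_⟩
  unfold P
  rw [Nat.cast_mul, cast_val, hw]

theorem Far.symm {n i : ℕ} [NeZero n] {x z : ZMod n} (h : Far i x z) : Far i z x := by
  obtain ⟨h1, h2⟩ := h
  have e : (x - z).val = n - (z - x).val := by
    have e1 : x - z = ((n - (z - x).val : ℕ) : ZMod n) := by
      rw [Nat.cast_sub (ZMod.val_lt (z - x)).le, cast_val, ZMod.natCast_self]
      ring
    rw [e1, ZMod.val_natCast, Nat.mod_eq_of_lt]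
    omega
  unfold Far
  rw [e]
  omega

open Classical in
theorem near_card {n i : ℕ} [NeZero n] (hc : Nat.Coprime i n) {S : Finset ℕ} (hS : S ⊆ range n)
    (z : ZMod n) : (S.filter fun t => ¬ Far i (P n i t) z).card ≤ 6 * i + 42 := by
  have hinj : Set.InjOn (fun t : ℕ => (z - P n i t).val)
      (S.filter fun t => ¬ Far i (P n i t) z) := by
    intro s hs t ht he
    have h1 := ZMod.val_injective n he
    have h2 : P n i s = P n i t := by linear_combination -h1
    exact P_inj hc (mem_range.1 (hS (mem_filter.1 (mem_coe.1 hs)).1))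
      (mem_range.1 (hS (mem_filter.1 (mem_coe.1 ht)).1)) h2
  have hmaps : ∀ t ∈ S.filter fun t => ¬ Far i (P n i t) z,
      (z - P n i t).val ∈ range (3 * i + 21) ∪ Ico (n - (3 * i + 20)) n := by
    intro t ht
    have h1 := (mem_filter.1 ht).2
    have h2 := ZMod.val_lt (z - P n i t)
    unfold Far at h1
    rw [mem_union, mem_range, mem_Ico]
    by_contra hcon
    apply h1
    push Not at hcon
    obtain ⟨h3, h4⟩ := hcon
    constructor
    · omega
    · by_contra h5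
      have := h4 (by omega)
      omega
  have h1 := card_le_card_of_injOn _ hmaps hinj
  have h2 := card_union_le (range (3 * i + 21)) (Ico (n - (3 * i + 20)) n)
  rw [card_range, Nat.card_Ico] at h2
  omega

theorem exists_far {n i : ℕ} [NeZero n] (hc : Nat.Coprime i n) {S : Finset ℕ} (hS : S ⊆ range n)
    (hcard : 18 * i + 127 ≤ S.card) (a b c : ZMod n) :
    ∃ t ∈ S, Far i (P n i t) a ∧ Far i (P n i t) b ∧ Far i (P n i t) c := by
  classical
  by_contra hcon
  push Not at hcon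
  have hsub : S ⊆ (S.filter fun t => ¬ Far i (P n i t) a) ∪ ((S.filter fun t => ¬ Far i (P n i t) b)
      ∪ (S.filter fun t => ¬ Far i (P n i t) c)) := by
    intro t ht
    rw [mem_union, mem_union, mem_filter, mem_filter, mem_filter]
    by_cases h1 : Far i (P n i t) a
    · by_cases h2 : Far i (P n i t) b
      · exact Or.inr (Or.inr ⟨ht, hcon t ht h1 h2⟩)
      · exact Or.inr (Or.inl ⟨ht, h2⟩)
    · exact Or.inl ⟨ht, h1⟩
  have h1 := card_le_card hsub
  have h2 := card_union_le (S.filter fun t => ¬ Far i (P n i t) a)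
    ((S.filter fun t => ¬ Far i (P n i t) b) ∪ (S.filter fun t => ¬ Far i (P n i t) c))
  have h3 := card_union_le (S.filter fun t => ¬ Far i (P n i t) b)
    (S.filter fun t => ¬ Far i (P n i t) c)
  have h4 := near_card hc hS a
  have h5 := near_card hc hS b
  have h6 := near_card hc hS c
  omega

/-- exponents of the quadratic terms -/
def E2 (n i : ℕ) (x : ℕ × ℕ × ℕ × ℕ) : R n :=
  (1 + 2 ^ i) * pw (P n i x.2.2.1) + (1 + 2 ^ i) * pw (P n i x.2.2.2)
    - pw (P n i x.1) - pw (P n i x.2.1)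

/-- exponents of the linear terms -/
def E1 (n i : ℕ) (x : ℕ × ℕ × ℕ) : R n :=
  (1 + 2 ^ i) * pw (P n i x.2.2) - pw (P n i x.1) - pw (P n i x.2.1)

/-- exponents of the squared terms -/
def E1' (n i : ℕ) (x : ℕ × ℕ × ℕ) : R n :=
  (1 + 2 ^ i) * pw (P n i x.2.2 + 1) - pw (P n i x.1) - pw (P n i x.2.1)

/-- index set of the quadratic terms -/
def S2 (n : ℕ) : Finset (ℕ × ℕ × ℕ × ℕ) :=
  (range n ×ˢ range n ×ˢ range n ×ˢ range n).filter fun x =>
    (x.1 < x.2.1 ∧ x.2.2.1 ∈ Ico x.1 x.2.1) ∧ x.2.2.2 ∉ Ico x.1 x.2.1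

/-- index set of the linear terms -/
def S1 (n : ℕ) : Finset (ℕ × ℕ × ℕ) :=
  (range n ×ˢ range n ×ˢ range n).filter fun x => x.1 < x.2.1 ∧ x.2.2 ∈ Ico x.1 x.2.1

theorem mem_S2 {n : ℕ} {j k t l : ℕ} : (j, k, t, l) ∈ S2 n ↔
    k < n ∧ j ≤ t ∧ t < k ∧ l < n ∧ (l < j ∨ k ≤ l) := by
  unfold S2
  simp only [mem_filter, mem_product, mem_range, mem_Ico]
  constructor
  · rintro ⟨⟨h1, h2, h3, h4⟩, ⟨h5, h6⟩, h7⟩
    refine ⟨h2, h6.1, h6.2, h4, ?_⟩
    by_contra hcon
    apply h7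
    omega
  · rintro ⟨h1, h2, h3, h4, h5⟩
    refine ⟨⟨by omega, h1, by omega, h4⟩, ⟨by omega, h2, h3⟩, by omega⟩

theorem mem_S1 {n : ℕ} {j k t : ℕ} : (j, k, t) ∈ S1 n ↔ k < n ∧ j ≤ t ∧ t < k := by
  unfold S1
  simp only [mem_filter, mem_product, mem_range, mem_Ico]
  constructor
  · rintro ⟨⟨h1, h2, h3⟩, h5, h6⟩
    exact ⟨h2, h6.1, h6.2⟩
  · rintro ⟨h1, h2, h3⟩
    refine ⟨⟨by omega, h1, by omega⟩, by omega, h2, h3⟩

/-- general position: both arcs long -/
theorem step_ab {n i : ℕ} (hn : 5 * i + 41 ≤ n) [NeZero n] (hc : Nat.Coprime i n) {j k : ℕ}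
    (hk : k < n) (hjk : j < k) (h1 : 18 * i + 127 ≤ k - j) (h2 : 18 * i + 127 ≤ n - (k - j)) :
    ∃ t l, (j, k, t, l) ∈ S2 n ∧
      (∀ x ∈ S2 n, E2 n i x = E2 n i (j, k, t, l) → x = (j, k, t, l)) ∧
      (∀ x ∈ S1 n, E1 n i x ≠ E2 n i (j, k, t, l)) ∧
      (∀ x ∈ S1 n, E1' n i x ≠ E2 n i (j, k, t, l)) := by
  obtain ⟨t, ht, f1, f2, _⟩ := exists_far hc (S := Ico j k) (i := i) (by
      intro s hs
      rw [mem_Ico] at hs
      rw [mem_range]
      omega)
    (by rw [Nat.card_Ico]; omega) (P n i j) (P n i k) (P n i j)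
  obtain ⟨l, hl, f3, f4, f5⟩ := exists_far hc (S := range n \ Ico j k) (i := i)
    (sdiff_subset) (by
      rw [card_sdiff_of_subset, card_range, Nat.card_Ico]
      · exact h2
      · intro s hs
        rw [mem_Ico] at hs
        rw [mem_range]
        omega) (P n i j) (P n i k) (P n i t)
  rw [mem_Ico] at ht
  rw [mem_sdiff, mem_range, mem_Ico] at hl
  have hjk' : P n i j ≠ P n i k := fun e => by
    have := P_inj hc (by omega) hk e
    omega
  have hx0 : (j, k, t, l) ∈ S2 n := by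
    rw [mem_S2]
    refine ⟨hk, ht.1, ht.2, hl.1, ?_⟩
    by_contra hcon
    apply hl.2
    omega
  have main : ∀ {j' k' : ℕ} {z w : ZMod n} {e : ℤ}, (e = 0 ∨ e = 1) →
      (1 + 2 ^ i) * pw z + (e : R n) * (1 + 2 ^ i) * pw w - pw (P n i j') - pw (P n i k')
        = E2 n i (j, k, t, l) →
      e = 1 ∧ ((P n i j' = P n i j ∧ P n i k' = P n i k) ∨
        (P n i j' = P n i k ∧ P n i k' = P n i j)) ∧
        ((z = P n i t ∧ w = P n i l) ∨ (z = P n i l ∧ w = P n i t)) := by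
    intro j' k' z w e he h
    exact ab hn hjk' f1 f2 f5.symm f3 f4 he (by rw [h]; rfl)
  refine ⟨t, l, hx0, ?_, ?_, ?_⟩
  · rintro ⟨j', k', t', l'⟩ hx hE
    obtain ⟨g1, g2, g3⟩ := main (e := 1) (j' := j') (k' := k') (z := P n i t') (w := P n i l')
      (Or.inr rfl) (by rw [← hE]; unfold E2; push_cast; ring)
    rw [mem_S2] at hx
    obtain ⟨q1, q2, q3, q4, q5⟩ := hx
    have a1 : j' = j ∧ k' = k := by
      rcases g2 with ⟨e1, e2⟩ | ⟨e1, e2⟩
      · exact ⟨P_inj hc (by omega) (by omega) e1, P_inj hc (by omega) (by omega) e2⟩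
      · have e3 := P_inj hc (by omega) (by omega) e1
        have e4 := P_inj hc (by omega) (by omega) e2
        omega
    obtain ⟨rfl, rfl⟩ := a1
    rcases g3 with ⟨e1, e2⟩ | ⟨e1, e2⟩
    · have e3 := P_inj hc (by omega) (by omega) e1
      have e4 := P_inj hc (by omega) (by omega) e2
      rw [e3, e4]
    · have e3 := P_inj hc (by omega) (by omega) e1
      have e4 := P_inj hc (by omega) (by omega) e2
      exfalso
      omega
  · rintro ⟨j', k', t'⟩ hx hE
    obtain ⟨g1, _⟩ := main (e := 0) (j' := j') (k' := k') (z := P n i t') (w := P n i t')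
      (Or.inl rfl) (by rw [← hE]; unfold E1; push_cast; ring)
    norm_num at g1
  · rintro ⟨j', k', t'⟩ hx hE
    obtain ⟨g1, _⟩ := main (e := 0) (j' := j') (k' := k') (z := P n i t' + 1) (w := P n i t')
      (Or.inl rfl) (by rw [← hE]; unfold E1'; push_cast; ring)
    norm_num at g1

end Pool.Agent.Lib.MP_eacabd_co.Gold8
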