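import Mathlib
import Pool.Agent.Lib.MP_eacabd_co.Gold8.Pos

/-!
Switching of the Gold functions, part 7: short arcs.
-/

set_option autoImplicit false

namespace Pool.Agent.Lib.MP_eacabd_co.Gold8

open Finset

theorem pw_one {n : ℕ} [NeZero n] : pw (1 : ZMod n) = 2 := by
  have h1 := pw_natCast (n := n) 1
  rwa [Nat.cast_one, pow_one] at h1

theorem P_out {n i j k l : ℕ} (hjk : j < k) (hk : k < n) (hl : l < n)
    (h : l < j ∨ k ≤ l) : ∃ θ, θ < n - (k - j) ∧ P n i l = P n i (k + θ) ∧ (θ = 0 → l = k) := by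
  rcases h with h | h
  · refine ⟨l + n - k, by omega, ?_, by omega⟩
    rw [show k + (l + n - k) = l + n by omega, P_per]
  · refine ⟨l - k, by omega, ?_, by omega⟩
    rw [show k + (l - k) = l by omega]

theorem P_back {n i j k : ℕ} (hjk : j < k) (hk : k < n) :
    P n i j = P n i (k + (n - (k - j))) := by
  rw [show k + (n - (k - j)) = j + n by omega, P_per]

/-- the exponent of a short arc, quadratic terms -/
theorem uniqC {n i M : ℕ} (hi : 2 ≤ i) (hn : 4 * (i * M) + 30 ≤ n) [NeZero n] {p y : ZMod n}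
    (hy : y = p + ((n / 2 : ℕ) : ZMod n)) {δ : ℕ} (hδ : 2 ≤ δ) (hδM : δ < M)
    {j k t l : ℕ} (hx : (j, k, t, l) ∈ S2 n) (hM : k - j < M ∨ n - (k - j) < M)
    (h : E2 n i (j, k, t, l) = (2 ^ i - 2 ^ (i * δ)) * pw p + (1 + 2 ^ i) * pw y) :
    (P n i j = p ∧ k - j = δ ∧ t = j ∧ P n i l = y) ∨
      (P n i k = p ∧ n - (k - j) = δ ∧ l = k ∧ P n i t = y) := by
  rw [mem_S2] at hx
  obtain ⟨h1, h2, h3, h4, h5⟩ := hx
  unfold E2 at h
  simp only at h
  rcases hM with hM | hM
  · left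
    have e1 : P n i t = P n i (j + (t - j)) := by rw [show j + (t - j) = t by omega]
    have e2 : P n i k = P n i (j + (k - j)) := by rw [show j + (k - j) = k by omega]
    rw [e1, e2, pw_P_add, pw_P_add] at h
    obtain ⟨g1, g2, g3, g4⟩ := cc_inner hi hn hy hδ hδM (δ' := k - j) (θ := t - j) hM (by omega)
      (p' := P n i j) (z := P n i l) (by
        rw [← h, mul_add i (t - j) 1, mul_one, pow_add]
        ring)
    exact ⟨g4, g3, by omega, g1⟩
  · right
    obtain ⟨θ, hθ, e1, e3⟩ := P_out (i := i) (by omega : j < k) h1 h4 h5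
    have e2 := P_back (i := i) (by omega : j < k) h1
    rw [e1, e2, pw_P_add, pw_P_add] at h
    obtain ⟨g1, g2, g3, g4⟩ := cc_inner hi hn hy hδ hδM (δ' := n - (k - j)) (θ := θ) hM hθ
      (p' := P n i k) (z := P n i t) (by
        rw [← h, mul_add i θ 1, mul_one, pow_add]
        ring)
    exact ⟨g4, g3, e3 g2, g1⟩

theorem noneC1 {n i M : ℕ} (hi : 2 ≤ i) (hn : 4 * (i * M) + 30 ≤ n) [NeZero n] {p y : ZMod n}
    (hy : y = p + ((n / 2 : ℕ) : ZMod n)) {δ : ℕ} (hδ : 2 ≤ δ) (hδM : δ < M)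
    {j k t : ℕ} (hx : (j, k, t) ∈ S1 n) (hM : k - j < M ∨ n - (k - j) < M)
    (h : E1 n i (j, k, t) = (2 ^ i - 2 ^ (i * δ)) * pw p + (1 + 2 ^ i) * pw y) : False := by
  rw [mem_S1] at hx
  obtain ⟨h1, h2, h3⟩ := hx
  unfold E1 at h
  simp only at h
  rcases hM with hM | hM
  · have e1 : P n i t = P n i (j + (t - j)) := by rw [show j + (t - j) = t by omega]
    have e2 : P n i k = P n i (j + (k - j)) := by rw [show j + (k - j) = k by omega]
    rw [e1, e2, pw_P_add, pw_P_add] at h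
    refine cc_one (by omega) hn hy hδ hδM (δ' := k - j) (θ := t - j) hM (by omega)
      (p' := P n i j) (B := 1) (Or.inl rfl) ?_
    rw [← h, mul_add i (t - j) 1, mul_one, pow_add]
    push_cast
    ring
  · have e2 := P_back (i := i) (by omega : j < k) h1
    rw [e2, pw_P_add] at h
    refine cc_outer hi hn hy hδ hδM (δ' := n - (k - j)) hM (by omega)
      (p' := P n i k) (z := P n i t) ?_
    rw [← h]
    ring

theorem noneC1' {n i M : ℕ} (hi : 2 ≤ i) (hn : 4 * (i * M) + 30 ≤ n) [NeZero n] {p y : ZMod n}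
    (hy : y = p + ((n / 2 : ℕ) : ZMod n)) {δ : ℕ} (hδ : 2 ≤ δ) (hδM : δ < M)
    {j k t : ℕ} (hx : (j, k, t) ∈ S1 n) (hM : k - j < M ∨ n - (k - j) < M)
    (h : E1' n i (j, k, t) = (2 ^ i - 2 ^ (i * δ)) * pw p + (1 + 2 ^ i) * pw y) : False := by
  rw [mem_S1] at hx
  obtain ⟨h1, h2, h3⟩ := hx
  unfold E1' at h
  simp only at h
  rcases hM with hM | hM
  · have e1 : P n i t = P n i (j + (t - j)) := by rw [show j + (t - j) = t by omega]
    have e2 : P n i k = P n i (j + (k - j)) := by rw [show j + (k - j) = k by omega]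
    rw [e1, e2, pw_add, pw_one, pw_P_add, pw_P_add] at h
    refine cc_one (by omega) hn hy hδ hδM (δ' := k - j) (θ := t - j) hM (by omega)
      (p' := P n i j) (B := 2) (Or.inr rfl) ?_
    rw [← h, mul_add i (t - j) 1, mul_one, pow_add]
    push_cast
    ring
  · have e2 := P_back (i := i) (by omega : j < k) h1
    rw [e2, pw_P_add] at h
    refine cc_outer hi hn hy hδ hδM (δ' := n - (k - j)) hM (by omega)
      (p' := P n i k) (z := P n i t + 1) ?_
    rw [← h]
    ring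

/-- one arc short (and longer than one) -/
theorem step_c {n i M : ℕ} (hi : 2 ≤ i) (hn : 4 * (i * M) + 30 ≤ n) [NeZero n]
    (hc : Nat.Coprime i n) {j k : ℕ} (hk : k < n) (hjk : j < k)
    (hM : (2 ≤ k - j ∧ k - j < M) ∨ (2 ≤ n - (k - j) ∧ n - (k - j) < M)) :
    ∃ t l, (j, k, t, l) ∈ S2 n ∧
      (∀ x ∈ S2 n, (x.2.1 - x.1 < M ∨ n - (x.2.1 - x.1) < M) →
        E2 n i x = E2 n i (j, k, t, l) → x = (j, k, t, l)) ∧
      (∀ x ∈ S1 n, (x.2.1 - x.1 < M ∨ n - (x.2.1 - x.1) < M) → E1 n i x ≠ E2 n i (j, k, t, l)) ∧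
      (∀ x ∈ S1 n, (x.2.1 - x.1 < M ∨ n - (x.2.1 - x.1) < M) →
        E1' n i x ≠ E2 n i (j, k, t, l)) := by
  -- an element far from the short arc lies in the long one
  have hfar : ∀ {s θ : ℕ}, θ < M → P n i (s + θ) ≠ P n i s + ((n / 2 : ℕ) : ZMod n) := by
    intro s θ hθ e
    rw [P_add] at e
    have e1 := add_left_cancel e
    rw [ZMod.natCast_eq_natCast_iff', Nat.mod_eq_of_lt, Nat.mod_eq_of_lt] at e1
    · have : i * θ ≤ i * M := Nat.mul_le_mul_left i hθ.le
      omega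
    · omega
    · have : i * θ ≤ i * M := Nat.mul_le_mul_left i hθ.le
      omega
  rcases hM with ⟨hδ, hδM⟩ | ⟨hδ, hδM⟩
  · obtain ⟨l, hl, hy⟩ := P_surj hc (P n i j + ((n / 2 : ℕ) : ZMod n))
    have hl' : l < j ∨ k ≤ l := by
      by_contra hcon
      push Not at hcon
      apply hfar (s := j) (θ := l - j) (by omega)
      rw [show j + (l - j) = l by omega, hy]
    have hx0 : (j, k, j, l) ∈ S2 n := mem_S2.2 ⟨hk, le_rfl, hjk, hl, hl'⟩
    have hE : E2 n i (j, k, j, l)
        = (2 ^ i - 2 ^ (i * (k - j))) * pw (P n i j) + (1 + 2 ^ i) * pw (P n i l) := by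
      unfold E2
      have e2 : P n i k = P n i (j + (k - j)) := by rw [show j + (k - j) = k by omega]
      simp only
      rw [e2, pw_P_add]
      ring
    refine ⟨j, l, hx0, ?_, ?_, ?_⟩
    · rintro ⟨j', k', t', l'⟩ hx hxM hxE
      have hx' := mem_S2.1 hx
      rcases uniqC hi hn hy hδ hδM hx hxM (by rw [hxE, hE]) with ⟨a1, a2, a3, a4⟩ | ⟨a1, a2, a3, a4⟩
      · have b1 := P_inj hc (by omega) (by omega) a1
        have b2 := P_inj hc (by omega) (by omega) a4
        subst b1 b2 a3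
        have : k' = k := by omega
        rw [this]
      · have b1 := P_inj hc (by omega) (by omega) a1
        exfalso
        omega
    · rintro ⟨j', k', t'⟩ hx hxM hxE
      exact noneC1 hi hn hy hδ hδM hx hxM (by rw [hxE, hE])
    · rintro ⟨j', k', t'⟩ hx hxM hxE
      exact noneC1' hi hn hy hδ hδM hx hxM (by rw [hxE, hE])
  · obtain ⟨t, ht, hy⟩ := P_surj hc (P n i k + ((n / 2 : ℕ) : ZMod n))
    have ht' : j ≤ t ∧ t < k := by
      by_contra hcon
      obtain ⟨θ, hθ, e1, _⟩ := P_out (i := i) hjk hk ht (by omega)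
      apply hfar (s := k) (θ := θ) (by omega)
      rw [← e1, hy]
    have hx0 : (j, k, t, k) ∈ S2 n := mem_S2.2 ⟨hk, ht'.1, ht'.2, hk, Or.inr le_rfl⟩
    have hE : E2 n i (j, k, t, k)
        = (2 ^ i - 2 ^ (i * (n - (k - j)))) * pw (P n i k) + (1 + 2 ^ i) * pw (P n i t) := by
      unfold E2
      have e2 := P_back (i := i) hjk hk
      simp only
      rw [e2, pw_P_add]
      ring
    refine ⟨t, k, hx0, ?_, ?_, ?_⟩
    · rintro ⟨j', k', t', l'⟩ hx hxM hxE
      have hx' := mem_S2.1 hx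
      rcases uniqC hi hn hy hδ hδM hx hxM (by rw [hxE, hE]) with ⟨a1, a2, a3, a4⟩ | ⟨a1, a2, a3, a4⟩
      · have b1 := P_inj hc (by omega) (by omega) a1
        exfalso
        omega
      · have b1 := P_inj hc (by omega) (by omega) a1
        have b2 := P_inj hc (by omega) (by omega) a4
        subst b1 b2 a3
        have : j' = j := by omega
        rw [this]
    · rintro ⟨j', k', t'⟩ hx hxM hxE
      exact noneC1 hi hn hy hδ hδM hx hxM (by rw [hxE, hE])
    · rintro ⟨j', k', t'⟩ hx hxM hxE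
      exact noneC1' hi hn hy hδ hδM hx hxM (by rw [hxE, hE])

end Pool.Agent.Lib.MP_eacabd_co.Gold8
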