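import Mathlib
import Pool.Agent.Lib.MP_eacabd_co.Coef
import Pool.Agent.Lib.MP_eacabd_co.Gold8.StepC

/-!
Switching of the Gold functions, part 8: characters of the multiplicative group and the extraction
of coefficients.
-/

set_option autoImplicit false

namespace Pool.Agent.Lib.MP_eacabd_co.Gold8

open Finset

section Expo

variable {F : Type} [Field F] [Fintype F] [DecidableEq F] [CharP F 2]

/-- the power with exponent modulo `2 ^ n - 1` -/
def ex {n : ℕ} (e : R n) (v : Fˣ) : F := ((v ^ e.val : Fˣ) : F)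

omit [CharP F 2] in
theorem unit_pow {n : ℕ} (hF : Fintype.card F = 2 ^ n) (v : Fˣ) : v ^ (2 ^ n - 1) = 1 := by
  have h1 := pow_card_eq_one (x := v)
  rwa [Fintype.card_units, hF] at h1

omit [CharP F 2] in
theorem unit_pow_mod {n : ℕ} (hF : Fintype.card F = 2 ^ n) (v : Fˣ) (m : ℕ) :
    v ^ (m % (2 ^ n - 1)) = v ^ m := by
  conv_rhs => rw [← Nat.div_add_mod m (2 ^ n - 1), pow_add, pow_mul, unit_pow hF, one_pow, one_mul]

omit [CharP F 2] in
theorem ex_nat {n : ℕ} (hF : Fintype.card F = 2 ^ n) (m : ℕ) (v : Fˣ) :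
    ex ((m : ℕ) : R n) v = (v : F) ^ m := by
  rw [ex, ZMod.val_natCast, unit_pow_mod hF, Units.val_pow_eq_pow_val]

omit [CharP F 2] in
theorem R_nz {n : ℕ} (hF : Fintype.card F = 2 ^ n) : NeZero (2 ^ n - 1) := by
  refine ⟨?_⟩
  have h1 := Fintype.one_lt_card (α := F)
  omega

omit [CharP F 2] in
theorem ex_add {n : ℕ} (hF : Fintype.card F = 2 ^ n) (a b : R n) (v : Fˣ) :
    ex (a + b) v = ex a v * ex b v := by
  have := R_nz hF
  have h1 : a + b = ((a.val + b.val : ℕ) : R n) := by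
    rw [Nat.cast_add, cast_val, cast_val]
  rw [h1, ex_nat hF, pow_add, ex, ex, Units.val_pow_eq_pow_val, Units.val_pow_eq_pow_val]

omit [CharP F 2] in
theorem ex_zero {n : ℕ} (hF : Fintype.card F = 2 ^ n) (v : Fˣ) : ex (0 : R n) v = 1 := by
  have h1 := ex_nat hF 0 v
  rwa [Nat.cast_zero, pow_zero] at h1

omit [Fintype F] [DecidableEq F] [CharP F 2] in
theorem ex_ne {n : ℕ} (a : R n) (v : Fˣ) : (ex a v : F) ≠ 0 := by
  rw [ex]
  exact Units.ne_zero _

omit [CharP F 2] in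
theorem ex_neg {n : ℕ} (hF : Fintype.card F = 2 ^ n) (a : R n) (v : Fˣ) :
    ex (-a) v = (ex a v)⁻¹ := by
  apply eq_inv_of_mul_eq_one_left
  rw [← ex_add hF, neg_add_cancel, ex_zero hF]

omit [CharP F 2] in
theorem ex_sub {n : ℕ} (hF : Fintype.card F = 2 ^ n) (a b : R n) (v : Fˣ) :
    ex (a - b) v = ex a v * (ex b v)⁻¹ := by
  rw [sub_eq_add_neg, ex_add hF a (-b) v, ex_neg hF b v]

omit [CharP F 2] in
theorem ex_P {n : ℕ} [NeZero n] (hF : Fintype.card F = 2 ^ n) (i t : ℕ) (v : Fˣ) :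
    ex (pw (P n i t)) v = (v : F) ^ (2 ^ (i * t)) := by
  rw [P, pw_natCast]
  have h1 := ex_nat hF (2 ^ (i * t)) v
  rwa [Nat.cast_pow, Nat.cast_ofNat] at h1

theorem sum_ex {n : ℕ} (hF : Fintype.card F = 2 ^ n) (e : R n) :
    ∑ v : Fˣ, (ex e v : F) = if e = 0 then 1 else 0 := by
  classical
  have := R_nz hF
  have h1 := FiniteField.sum_pow_units (K := F) e.val
  have h2 : ∑ v : Fˣ, (ex e v : F) = ∑ v : Fˣ, ((v : F) ^ e.val) :=
    sum_congr rfl fun v _ => by rw [ex, Units.val_pow_eq_pow_val]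
  have h3 : ∑ v : Fˣ, ((v : F) ^ e.val) = ∑ v : Fˣ, ((v ^ e.val : Fˣ) : F) :=
    sum_congr rfl fun v _ => by rw [Units.val_pow_eq_pow_val]
  rw [h2]
  have h4 : (Fintype.card F - 1 ∣ e.val) ↔ e = 0 := by
    rw [hF]
    constructor
    · intro hd
      have h5 := ZMod.val_lt e
      rcases Nat.eq_zero_or_pos e.val with h6 | h6
      · exact (ZMod.val_eq_zero e).1 h6
      · have h7 := Nat.le_of_dvd h6 hd
        omega
    · rintro rfl
      rw [ZMod.val_zero]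
      exact dvd_zero _
  rw [h1]
  by_cases h5 : e = 0
  · rw [if_pos (h4.2 h5), if_pos h5, CharTwo.neg_eq]
  · rw [if_neg (fun h => h5 (h4.1 h)), if_neg h5]

/-- the coefficient functional -/
def cfe {n : ℕ} (E : R n) (g : Fˣ → F) : F := ∑ v : Fˣ, g v * ex (-E) v

theorem cfe_sum {n : ℕ} (hF : Fintype.card F = 2 ^ n) {ι : Type} (S : Finset ι) (c : ι → F)
    (e : ι → R n) (E : R n) : cfe E (fun v => ∑ x ∈ S, c x * ex (e x) v)
      = ∑ x ∈ S, if e x = E then c x else 0 := by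
  unfold cfe
  simp only [sum_mul]
  rw [sum_comm]
  refine sum_congr rfl fun x _ => ?_
  have h1 : ∀ v : Fˣ, c x * ex (e x) v * ex (-E) v = c x * (ex (e x - E) v : F) := by
    intro v
    rw [sub_eq_add_neg, ex_add hF]
    ring
  rw [sum_congr rfl fun v _ => h1 v, ← mul_sum, sum_ex hF]
  by_cases h2 : e x = E
  · rw [if_pos (sub_eq_zero.2 h2), if_pos h2, mul_one]
  · rw [if_neg (fun h => h2 (sub_eq_zero.1 h)), if_neg h2, mul_zero]

theorem extract3 {n : ℕ} (hF : Fintype.card F = 2 ^ n) {ι κ : Type} {A : Finset ι} {B : Finset κ}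
    {c2 : ι → F} {e2 : ι → R n} {c1 c1' : κ → F} {e1 e1' : κ → R n}
    (h : ∀ v : Fˣ, ∑ x ∈ A, c2 x * ex (e2 x) v + ∑ x ∈ B, c1 x * ex (e1 x) v
      + ∑ x ∈ B, c1' x * ex (e1' x) v = 0) {x0 : ι} (hx0 : x0 ∈ A)
    (h2 : ∀ x ∈ A, c2 x ≠ 0 → e2 x = e2 x0 → x = x0) (h1 : ∀ x ∈ B, c1 x ≠ 0 → e1 x ≠ e2 x0)
    (h1' : ∀ x ∈ B, c1' x ≠ 0 → e1' x ≠ e2 x0) : c2 x0 = 0 := by
  classical
  have g : cfe (e2 x0) (fun v => ∑ x ∈ A, c2 x * ex (e2 x) v + ∑ x ∈ B, c1 x * ex (e1 x) v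
      + ∑ x ∈ B, c1' x * ex (e1' x) v) = 0 := by
    unfold cfe
    refine sum_eq_zero fun v _ => ?_
    simp only
    rw [h v, zero_mul]
  have g2 : cfe (e2 x0) (fun v => ∑ x ∈ A, c2 x * ex (e2 x) v + ∑ x ∈ B, c1 x * ex (e1 x) v
      + ∑ x ∈ B, c1' x * ex (e1' x) v) = cfe (e2 x0) (fun v => ∑ x ∈ A, c2 x * ex (e2 x) v)
        + cfe (e2 x0) (fun v => ∑ x ∈ B, c1 x * ex (e1 x) v)
        + cfe (e2 x0) (fun v => ∑ x ∈ B, c1' x * ex (e1' x) v) := by
    unfold cfe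
    rw [← sum_add_distrib, ← sum_add_distrib]
    refine sum_congr rfl fun v _ => ?_
    ring
  rw [g2, cfe_sum hF, cfe_sum hF, cfe_sum hF] at g
  have k1 : ∑ x ∈ B, (if e1 x = e2 x0 then c1 x else 0) = 0 := by
    refine sum_eq_zero fun x hx => ?_
    by_cases h3 : e1 x = e2 x0
    · rw [if_pos h3]
      by_contra h4
      exact h1 x hx h4 h3
    · rw [if_neg h3]
  have k1' : ∑ x ∈ B, (if e1' x = e2 x0 then c1' x else 0) = 0 := by
    refine sum_eq_zero fun x hx => ?_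
    by_cases h3 : e1' x = e2 x0
    · rw [if_pos h3]
      by_contra h4
      exact h1' x hx h4 h3
    · rw [if_neg h3]
  have k2 : ∑ x ∈ A, (if e2 x = e2 x0 then c2 x else 0) = c2 x0 := by
    rw [sum_eq_single_of_mem x0 hx0, if_pos rfl]
    intro x hx hne
    by_cases h3 : e2 x = e2 x0
    · rw [if_pos h3]
      by_contra h4
      exact hne (h2 x hx h4 h3)
    · rw [if_neg h3]
  rw [k1, k1', k2, add_zero, add_zero] at g
  exact g

/-- the coefficients vanish -/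
theorem coef_zero {n i : ℕ} (hi : 2 ≤ i) (hc : Nat.Coprime i n) (hn : 400 * i ^ 2 ≤ n)
    (hF : Fintype.card F = 2 ^ n) {C : ℕ → ℕ → F} {U U' : ℕ → F}
    (hU : ∀ t, U t ≠ 0)
    (h : ∀ v : Fˣ, ∑ x ∈ S2 n, C x.1 x.2.1 * (U x.2.2.1 * U x.2.2.2) * ex (E2 n i x) v
      + ∑ x ∈ S1 n, C x.1 x.2.1 * U x.2.2 * ex (E1 n i x) v
      + ∑ x ∈ S1 n, C x.1 x.2.1 * U' x.2.2 * ex (E1' n i x) v = 0)
    {j k : ℕ} (hjk : j < k) (hk : k < n) (h1 : k ≠ j + 1) (h2 : ¬ (j = 0 ∧ k + 1 = n)) :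
    C j k = 0 := by
  have hi2 : 2 * i ≤ i ^ 2 := by
    rw [pow_two]
    exact Nat.mul_le_mul_right i hi
  have hn0 : NeZero n := ⟨by omega⟩
  have hb : 4 * (i * (18 * i + 127)) + 30 ≤ n := by
    have : i * (18 * i + 127) = 18 * i ^ 2 + 127 * i := by ring
    omega
  have hab : ∀ {j k : ℕ}, j < k → k < n → 18 * i + 127 ≤ k - j → 18 * i + 127 ≤ n - (k - j) →
      C j k = 0 := by
    intro j k hjk hk h1 h2
    obtain ⟨t, l, hx, g2, g1, g1'⟩ := step_ab (by omega) hc hk hjk h1 h2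
    have h3 := extract3 hF h hx (fun x hx _ he => g2 x hx he) (fun x hx _ => g1 x hx)
      (fun x hx _ => g1' x hx)
    have h4 : U t * U l ≠ 0 := mul_ne_zero (hU t) (hU l)
    exact (mul_eq_zero.1 h3).resolve_right h4
  by_cases h3 : 18 * i + 127 ≤ k - j ∧ 18 * i + 127 ≤ n - (k - j)
  · exact hab hjk hk h3.1 h3.2
  · have hshort : ∀ {j k : ℕ}, j < k → k < n → C j k ≠ 0 →
        (k - j < 18 * i + 127 ∨ n - (k - j) < 18 * i + 127) := by
      intro j k h4 h5 h6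
      by_contra hcon
      push Not at hcon
      exact h6 (hab h4 h5 hcon.1 hcon.2)
    obtain ⟨t, l, hx, g2, g1, g1'⟩ := step_c (M := 18 * i + 127) hi hb hc hk hjk (by omega)
    have e3 := extract3 hF h hx
      (fun x hx hne he => by
        obtain ⟨j', k', t', l'⟩ := x
        have hx' := mem_S2.1 hx
        exact g2 _ hx (hshort (j := j') (k := k') (by omega) (by omega)
          (fun h => hne (by simp only; rw [h, zero_mul]))) he)
      (fun x hx hne => by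
        obtain ⟨j', k', t'⟩ := x
        have hx' := mem_S1.1 hx
        exact g1 _ hx (hshort (j := j') (k := k') (by omega) (by omega)
          (fun h => hne (by simp only; rw [h, zero_mul]))))
      (fun x hx hne => by
        obtain ⟨j', k', t'⟩ := x
        have hx' := mem_S1.1 hx
        exact g1' _ hx (hshort (j := j') (k := k') (by omega) (by omega)
          (fun h => hne (by simp only; rw [h, zero_mul]))))
    have h4 : U t * U l ≠ 0 := mul_ne_zero (hU t) (hU l)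
    exact (mul_eq_zero.1 e3).resolve_right h4

end Expo

end Pool.Agent.Lib.MP_eacabd_co.Gold8
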