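import Mathlib
import Pool.Agent.Lib.MP_eacabd_co.Gold8.Expo

/-!
Switching of the cube function: uniqueness of the exponents of the last element of a short arc.
-/

set_option autoImplicit false

namespace Pool.Agent.Lib.MP_eacabd_co.Gold8

open Finset

theorem odd_pow_sub {m : ℕ} (hm : 1 ≤ m) : Odd ((2 : ℤ) ^ m - 1) := by
  obtain ⟨k, rfl⟩ : ∃ k, m = k + 1 := ⟨m - 1, by omega⟩
  exact ⟨2 ^ k - 1, by rw [pow_succ]; ring⟩

theorem pow_sub_inj {a b : ℕ} (h : (2 : ℤ) ^ a - 1 = 2 ^ b - 1) : a = b := by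
  have h1 : (2 : ℤ) ^ a = 2 ^ b := by linarith
  have h2 : (2 : ℕ) ^ a = 2 ^ b := by exact_mod_cast h1
  exact Nat.pow_right_injective (le_refl 2) h2

/-- the cluster of an inner element is positive only for the last element -/
theorem last_of_pos {δ θ : ℕ} (hθ : θ < δ) (h : (0 : ℤ) < 2 ^ θ + 2 ^ (θ + 1) - 1 - 2 ^ δ) :
    θ = δ - 1 ∧ 2 ≤ δ := by
  have h1 : θ = δ - 1 := by
    by_contra hne
    obtain ⟨m, rfl⟩ : ∃ m, δ = θ + (m + 2) := ⟨δ - θ - 2, by omega⟩
    have h2 : (2 : ℤ) ^ (θ + (m + 2)) = 2 ^ θ * (2 ^ m * 4) := by rw [pow_add, pow_add]; norm_num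
    have h3 : (1 : ℤ) ≤ 2 ^ θ := one_le_pow₀ (by norm_num)
    have h4 : (1 : ℤ) ≤ 2 ^ m := one_le_pow₀ (by norm_num)
    have h5 : (2 : ℤ) ^ θ * 4 ≤ 2 ^ θ * (2 ^ m * 4) :=
      mul_le_mul_of_nonneg_left (by linarith) (by linarith)
    rw [h2, pow_succ] at h
    linarith
  refine ⟨h1, ?_⟩
  by_contra hcon
  have h2 : δ = 1 := by omega
  subst h2
  have h3 : θ = 0 := by omega
  subst h3
  norm_num at h

/-- what we need to know on the unknown cluster -/
structure Clu (A : ℤ) (δ' θ : ℕ) : Prop where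
  bd : |A| ≤ 4 * 2 ^ δ'
  pos : 0 < A → A = 2 ^ (δ' - 1) - 1 ∧ 2 ≤ δ' ∧ θ = δ' - 1

theorem cc1 {n M D : ℕ} (hD : 2 * M + 12 ≤ D) (hDn : D + M + 14 ≤ n) [NeZero n] {p y : ZMod n}
    (hy : y = p + ((D : ℕ) : ZMod n)) {δ δ' θ : ℕ} (hδ : 2 ≤ δ) (hδM : δ < M) (hδ' : δ' < M)
    {p' z : ZMod n} {A e : ℤ} (he : e = 0 ∨ e = 1) (hbd : |A| ≤ 4 * 2 ^ δ')
    (hA : e = 1 → Clu A δ' θ)
    (hrel : (2 ^ (δ - 1) - 1 : R n) * pw p + (1 + 2) * pw y
      = (A : R n) * pw p' + (e : R n) * (1 + 2) * pw z) :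
    e = 1 ∧ ((z = y ∧ δ' = δ ∧ θ = δ - 1 ∧ p' = p) ∨
      (δ = 3 ∧ δ' = 3 ∧ θ = 2 ∧ z = p ∧ p' = y)) := by
  have hn8 : 8 ≤ n := by omega
  obtain ⟨f, rfl⟩ : ∃ f, δ = f + 1 := ⟨δ - 1, by omega⟩
  have hf : f + 1 - 1 = f := by omega
  rw [hf] at hrel ⊢
  have hoff : (p - (y - ((M + 12 : ℕ) : ZMod n))).val = (M + 12) + (n - D) := by
    have e1 : p - (y - ((M + 12 : ℕ) : ZMod n)) = (((M + 12) + (n - D) : ℕ) : ZMod n) := by
      have e2 : ((D : ℕ) : ZMod n) + ((n - D : ℕ) : ZMod n) = 0 := by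
        rw [← Nat.cast_add, Nat.add_sub_cancel' (by omega), ZMod.natCast_self]
      rw [hy, Nat.cast_add (M + 12)]
      linear_combination -e2
    rw [e1, ZMod.val_natCast, Nat.mod_eq_of_lt (by omega)]
  have hfabs : |(2 : ℤ) ^ f - 1| ≤ 2 ^ f := by
    rw [abs_sub_comm]
    exact abs_one_sub f
  have hfpos : (0 : ℤ) < 2 ^ f - 1 := by
    have : (1 : ℤ) < 2 ^ f := one_lt_pow₀ (by norm_num) (by omega)
    linarith
  have h12 : (1 : ℤ) + 2 = 1 + 2 ^ 1 := by norm_num
  obtain ⟨h, χ, hχ, e1, e2⟩ := island' (κ := Fin 2) (lam := Fin 1) hn8 (x := y)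
    (cx := 1 + 2)
    (lx := 1) (wx := 2) (by norm_num) (m := ![p', z])
    (c := ![-A, -(e * (1 + 2))]) (l := ![δ', 1]) (w := ![4, 2]) (by
      intro q
      fin_cases q
      · simpa using hbd
      · have := abs_mul_01 he (abs_one_add 1)
        rw [← h12] at this
        simp only [Fin.mk_one, Matrix.cons_val_one, Matrix.cons_val_zero, abs_neg]
        exact_mod_cast this)
    (p := ![p]) (d := ![2 ^ f - 1]) (lp := ![f]) (wp := ![1]) (by
      intro q
      fin_cases q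
      simpa using hfabs)
    (by simp [Fin.sum_univ_two])
    (L := M + 12) (by omega)
    (by simp only [Fin.sum_univ_two, Matrix.cons_val_zero, Matrix.cons_val_one]; omega)
    (by
      intro q
      fin_cases q
      simp only [Fin.zero_eta, Matrix.cons_val_zero]
      rw [hoff]
      omega)
    (by
      simp only [Fin.sum_univ_two, univ_unique, Fin.default_eq_zero, sum_singleton,
        Matrix.cons_val_zero, Matrix.cons_val_one]
      push_cast
      linear_combination hrel)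
  simp only [Fin.sum_univ_two, univ_unique, Fin.default_eq_zero, sum_singleton,
    Matrix.cons_val_zero, Matrix.cons_val_one] at e1 e2
  have hX : (0 : ℤ) < (1 + 2) * 2 ^ (y - h).val := by positivity
  have hval3 : ∀ {z z' h : ZMod n}, (1 + 2 : ℤ) * 2 ^ (z - h).val = (1 + 2) * 2 ^ (z' - h).val →
      z' = z := by
    intro z z' h hh
    rw [h12] at hh
    exact val_inj (i := 1) hh
  have hval : ∀ {z z' h : ZMod n}, (z - h).val = (z' - h).val → z = z' := by
    intro z z' h hh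
    have := ZMod.val_injective n hh
    linear_combination this
  have hχ0 := hχ 0
  have hχ1 := hχ 1
  rcases hχ0 with g0 | g0
  · rw [g0] at e1 e2
    rcases hχ1 with g1 | g1
    · exfalso
      rw [g1] at e1
      linarith
    · rw [g1] at e1 e2
      rcases he with rfl | rfl
      · exfalso
        linarith
      obtain ⟨g, e3⟩ := eq_two hn8 (m1 := p') (m2 := p) (c1 := A) (c2 := 2 ^ f - 1) (w1 := 4)
        (w2 := 1) (l1 := δ') (l2 := f) (by exact_mod_cast hbd)
        (by simpa using hfabs) (by norm_num) (by omega)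
        (by push_cast at e2 ⊢; linear_combination -e2)
      have hApos : 0 < A := by
        by_contra hneg
        push Not at hneg
        have h1 : A * 2 ^ (p' - g).val ≤ 0 := mul_nonpos_of_nonpos_of_nonneg hneg (by positivity)
        have h2 : 0 < (2 ^ f - 1 : ℤ) * 2 ^ (p - g).val := mul_pos hfpos (by positivity)
        linarith
      obtain ⟨a1, a2, a3⟩ := (hA rfl).pos hApos
      rw [a1, mul_comm, mul_comm (2 ^ f - 1 : ℤ)] at e3
      obtain ⟨b1, b2⟩ := two_pow_odd (odd_pow_sub (by omega)) (odd_pow_sub (by omega)) e3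
      have b3 := pow_sub_inj b2
      refine ⟨rfl, Or.inl ⟨hval3 (h := h) (by linarith), by omega, by omega, hval b1⟩⟩
  · rw [g0] at e1 e2
    rcases hχ1 with g1 | g1
    · rw [g1] at e1 e2
      rcases he with rfl | rfl
      · exfalso
        have h3 := ne_one hn8 (m1 := p) (c1 := 2 ^ f - 1) (w1 := 1) (l1 := f)
          (by simpa using hfabs) (by norm_num) (by omega)
          (by push_cast at e2 ⊢; linear_combination e2)
        rw [h3] at hfpos
        exact lt_irrefl _ hfpos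
      obtain ⟨g, e3⟩ := eq_two hn8 (m1 := p) (m2 := z) (c1 := 2 ^ f - 1) (c2 := 3) (w1 := 1)
        (w2 := 2) (l1 := f) (l2 := 1) (by simpa using hfabs)
        (by norm_num) (by norm_num) (by omega)
        (by push_cast at e2 ⊢; linear_combination e2)
      have e4 : A * 2 ^ (p' - h).val = 3 * 2 ^ (y - h).val := by linarith
      have hApos : 0 < A := by
        by_contra hneg
        push Not at hneg
        have h1 : A * 2 ^ (p' - h).val ≤ 0 := mul_nonpos_of_nonpos_of_nonneg hneg (by positivity)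
        have h2 : 0 < (3 : ℤ) * 2 ^ (y - h).val := by positivity
        linarith
      obtain ⟨a1, a2, a3⟩ := (hA rfl).pos hApos
      rw [a1, mul_comm, mul_comm (3 : ℤ)] at e4
      rw [mul_comm, mul_comm (3 : ℤ)] at e3
      have o3 : Odd (3 : ℤ) := ⟨1, by norm_num⟩
      obtain ⟨b1, b2⟩ := two_pow_odd (odd_pow_sub (by omega)) o3 e4
      obtain ⟨b3, b4⟩ := two_pow_odd (odd_pow_sub (by omega)) o3 e3
      have b5 := pow_sub_inj (a := δ' - 1) (b := 2) (by rw [b2]; norm_num)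
      have b6 := pow_sub_inj (a := f) (b := 2) (by rw [b4]; norm_num)
      exact ⟨rfl, Or.inr ⟨by omega, by omega, by omega, (hval b3).symm, hval b1⟩⟩
    · exfalso
      rw [g1] at e2
      have h3 := ne_one hn8 (m1 := p) (c1 := 2 ^ f - 1) (w1 := 1) (l1 := f)
        (by simpa using hfabs) (by norm_num) (by omega)
        (by push_cast at e2 ⊢; linear_combination e2)
      rw [h3] at hfpos
      exact lt_irrefl _ hfpos

theorem clu_inner {δ' θ : ℕ} (hθ : θ < δ') :
    Clu (2 ^ θ + 2 ^ (θ + 1) - 1 - 2 ^ δ') δ' θ := by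
  refine ⟨?_, ?_⟩
  · have a1 : (2 : ℤ) ^ θ ≤ 2 ^ δ' := pow_le_pow_right₀ (by norm_num) (by omega)
    have a2 : (2 : ℤ) ^ (θ + 1) ≤ 2 ^ δ' := pow_le_pow_right₀ (by norm_num) (by omega)
    have a3 : (1 : ℤ) ≤ 2 ^ δ' := one_le_pow₀ (by norm_num)
    have a4 : (1 : ℤ) ≤ 2 ^ θ := one_le_pow₀ (by norm_num)
    have a5 : (1 : ℤ) ≤ 2 ^ (θ + 1) := one_le_pow₀ (by norm_num)
    rw [abs_le]
    constructor <;> linarith
  · intro h
    obtain ⟨h1, h2⟩ := last_of_pos hθ h
    refine ⟨?_, h2, h1⟩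
    obtain ⟨m, rfl⟩ : ∃ m, δ' = m + 1 := ⟨δ' - 1, by omega⟩
    have h3 : θ = m := by omega
    subst h3
    rw [Nat.add_sub_cancel]
    ring

theorem clu_outer (δ' θ : ℕ) : Clu (-1 - 2 ^ δ') δ' θ := by
  have a3 : (1 : ℤ) ≤ 2 ^ δ' := one_le_pow₀ (by norm_num)
  refine ⟨?_, ?_⟩
  · rw [abs_le]
    constructor <;> linarith
  · intro h
    exfalso
    linarith

end Pool.Agent.Lib.MP_eacabd_co.Gold8
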