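import Mathlib
import Pool.Agent.Lib.MP_eacabd_co.Gold8.One

/-!
Switching of the cube function: coefficients of short arcs.
-/

set_option autoImplicit false

namespace Pool.Agent.Lib.MP_eacabd_co.Gold8

open Finset

theorem uniq1 {n M D : ℕ} (hD : 2 * M + 12 ≤ D) (hDn : D + M + 14 ≤ n) [NeZero n] {p y : ZMod n}
    (hy : y = p + ((D : ℕ) : ZMod n)) {δ : ℕ} (hδ : 2 ≤ δ) (hδM : δ < M)
    {j k t l : ℕ} (hx : (j, k, t, l) ∈ S2 n) (hM : k - j < M ∨ n - (k - j) < M)
    (h : E2 n 1 (j, k, t, l) = (2 ^ (δ - 1) - 1) * pw p + (1 + 2) * pw y) :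
    ((P n 1 j = p ∧ k - j = δ ∧ t - j = δ - 1 ∧ P n 1 l = y) ∨
      (δ = 3 ∧ k - j = 3 ∧ t - j = 2 ∧ P n 1 l = p ∧ P n 1 j = y)) ∨
    ((P n 1 k = p ∧ n - (k - j) = δ ∧ P n 1 l = P n 1 (k + (δ - 1)) ∧ P n 1 t = y) ∨
      (δ = 3 ∧ n - (k - j) = 3 ∧ P n 1 k = y)) := by
  rw [mem_S2] at hx
  obtain ⟨h1, h2, h3, h4, h5⟩ := hx
  unfold E2 at h
  simp only [pow_one] at h
  rcases hM with hM | hM
  · left
    have e1 : P n 1 t = P n 1 (j + (t - j)) := by rw [show j + (t - j) = t by omega]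
    have e2 : P n 1 k = P n 1 (j + (k - j)) := by rw [show j + (k - j) = k by omega]
    rw [e1, e2, pw_P_add, pw_P_add, one_mul, one_mul] at h
    obtain ⟨_, g⟩ := cc1 hD hDn hy hδ hδM (δ' := k - j) (θ := t - j) hM
      (p' := P n 1 j) (z := P n 1 l) (e := 1) (Or.inr rfl)
      (clu_inner (by omega : t - j < k - j)).bd
      (fun _ => clu_inner (by omega : t - j < k - j)) (by
        rw [← h]
        push_cast
        ring)
    rcases g with ⟨g1, g2, g3, g4⟩ | ⟨g1, g2, g3, g4, g5⟩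
    · exact Or.inl ⟨g4, g2, g3, g1⟩
    · exact Or.inr ⟨g1, g2, g3, g4, g5⟩
  · right
    obtain ⟨θ, hθ, e1, e3⟩ := P_out (i := 1) (by omega : j < k) h1 h4 h5
    have e2 := P_back (i := 1) (by omega : j < k) h1
    rw [e1, e2, pw_P_add, pw_P_add, one_mul, one_mul] at h
    obtain ⟨_, g⟩ := cc1 hD hDn hy hδ hδM (δ' := n - (k - j)) (θ := θ) hM
      (p' := P n 1 k) (z := P n 1 t) (e := 1) (Or.inr rfl)
      (clu_inner hθ).bd (fun _ => clu_inner hθ) (by
        rw [← h]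
        push_cast
        ring)
    rcases g with ⟨g1, g2, g3, g4⟩ | ⟨g1, g2, g3, g4, g5⟩
    · refine Or.inl ⟨g4, g2, ?_, g1⟩
      rw [e1, g3]
    · exact Or.inr ⟨g1, g2, g5⟩

theorem none1 {n M D : ℕ} (hD : 2 * M + 12 ≤ D) (hDn : D + M + 14 ≤ n) [NeZero n] {p y : ZMod n}
    (hy : y = p + ((D : ℕ) : ZMod n)) {δ : ℕ} (hδ : 2 ≤ δ) (hδM : δ < M)
    {j k t : ℕ} (hx : (j, k, t) ∈ S1 n) (hM : k - j < M ∨ n - (k - j) < M)
    (h : E1 n 1 (j, k, t) = (2 ^ (δ - 1) - 1) * pw p + (1 + 2) * pw y) : False := by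
  rw [mem_S1] at hx
  obtain ⟨h1, h2, h3⟩ := hx
  unfold E1 at h
  simp only [pow_one] at h
  rcases hM with hM | hM
  · have e1 : P n 1 t = P n 1 (j + (t - j)) := by rw [show j + (t - j) = t by omega]
    have e2 : P n 1 k = P n 1 (j + (k - j)) := by rw [show j + (k - j) = k by omega]
    rw [e1, e2, pw_P_add, pw_P_add, one_mul, one_mul] at h
    obtain ⟨g, _⟩ := cc1 hD hDn hy hδ hδM (δ' := k - j) (θ := t - j) hM
      (p' := P n 1 j) (z := P n 1 j) (e := 0) (Or.inl rfl)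
      (clu_inner (by omega : t - j < k - j)).bd
      (fun h0 => by norm_num at h0) (by
        rw [← h]
        push_cast
        ring)
    norm_num at g
  · have e2 := P_back (i := 1) (by omega : j < k) h1
    rw [e2, pw_P_add, one_mul] at h
    obtain ⟨_, g⟩ := cc1 hD hDn hy hδ hδM (δ' := n - (k - j)) (θ := n) hM
      (p' := P n 1 k) (z := P n 1 t) (e := 1) (Or.inr rfl)
      (clu_outer _ n).bd (fun _ => clu_outer _ n) (by
        rw [← h]
        push_cast
        ring)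
    omega

theorem none1' {n M D : ℕ} (hD : 2 * M + 12 ≤ D) (hDn : D + M + 14 ≤ n) [NeZero n] {p y : ZMod n}
    (hy : y = p + ((D : ℕ) : ZMod n)) {δ : ℕ} (hδ : 2 ≤ δ) (hδM : δ < M)
    {j k t : ℕ} (hx : (j, k, t) ∈ S1 n) (hM : k - j < M ∨ n - (k - j) < M)
    (h : E1' n 1 (j, k, t) = (2 ^ (δ - 1) - 1) * pw p + (1 + 2) * pw y) : False := by
  rw [mem_S1] at hx
  obtain ⟨h1, h2, h3⟩ := hx
  unfold E1' at h
  simp only [pow_one] at h
  rcases hM with hM | hM
  · have e1 : P n 1 t = P n 1 (j + (t - j)) := by rw [show j + (t - j) = t by omega]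
    have e2 : P n 1 k = P n 1 (j + (k - j)) := by rw [show j + (k - j) = k by omega]
    rw [e1, e2, pw_add, pw_one, pw_P_add, pw_P_add, one_mul, one_mul] at h
    have hbd : |(2 * (2 ^ (t - j) + 2 ^ (t - j + 1)) - 1 - 2 ^ (k - j) : ℤ)| ≤ 4 * 2 ^ (k - j) := by
      have a1 : (2 : ℤ) ^ (t - j) * 2 ≤ 2 ^ (k - j) := by
        rw [← pow_succ]
        exact pow_le_pow_right₀ (by norm_num) (by omega)
      have a3 : (1 : ℤ) ≤ 2 ^ (k - j) := one_le_pow₀ (by norm_num)
      have a4 : (1 : ℤ) ≤ 2 ^ (t - j) := one_le_pow₀ (by norm_num)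
      rw [pow_succ, abs_le]
      constructor <;> linarith
    obtain ⟨g, _⟩ := cc1 hD hDn hy hδ hδM (δ' := k - j) (θ := t - j) hM
      (p' := P n 1 j) (z := P n 1 j) (e := 0) (Or.inl rfl)
      hbd (fun h0 => by norm_num at h0) (by
        rw [← h]
        push_cast
        ring)
    norm_num at g
  · have e2 := P_back (i := 1) (by omega : j < k) h1
    rw [e2, pw_P_add, one_mul] at h
    obtain ⟨_, g⟩ := cc1 hD hDn hy hδ hδM (δ' := n - (k - j)) (θ := n) hM
      (p' := P n 1 k) (z := P n 1 t + 1) (e := 1) (Or.inr rfl)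
      (clu_outer _ n).bd (fun _ => clu_outer _ n) (by
        rw [← h]
        push_cast
        ring)
    omega

theorem not_mem_arc {n M : ℕ} [NeZero n] (hn : 4 * M + 30 ≤ n) {s θ : ℕ} (hθ : θ < M) :
    P n 1 (s + θ) ≠ P n 1 s + ((n / 2 : ℕ) : ZMod n) := by
  intro e
  rw [P_add] at e
  have e1 := add_left_cancel e
  rw [ZMod.natCast_eq_natCast_iff', Nat.mod_eq_of_lt, Nat.mod_eq_of_lt] at e1
  · omega
  · omega
  · omega

/-- one arc short, not of length `3` -/
theorem step_c1 {n M : ℕ} (hn : 4 * M + 30 ≤ n) [NeZero n] {j k : ℕ} (hk : k < n) (hjk : j < k)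
    (hM : (2 ≤ k - j ∧ k - j ≠ 3 ∧ k - j < M) ∨
      (2 ≤ n - (k - j) ∧ n - (k - j) ≠ 3 ∧ n - (k - j) < M)) :
    ∃ t l, (j, k, t, l) ∈ S2 n ∧
      (∀ x ∈ S2 n, (x.2.1 - x.1 < M ∨ n - (x.2.1 - x.1) < M) →
        E2 n 1 x = E2 n 1 (j, k, t, l) → x = (j, k, t, l)) ∧
      (∀ x ∈ S1 n, (x.2.1 - x.1 < M ∨ n - (x.2.1 - x.1) < M) → E1 n 1 x ≠ E2 n 1 (j, k, t, l)) ∧
      (∀ x ∈ S1 n, (x.2.1 - x.1 < M ∨ n - (x.2.1 - x.1) < M) →
        E1' n 1 x ≠ E2 n 1 (j, k, t, l)) := by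
  have hc : Nat.Coprime 1 n := Nat.coprime_one_left n
  have hD : 2 * M + 12 ≤ n / 2 := by omega
  have hDn : n / 2 + M + 14 ≤ n := by omega
  rcases hM with ⟨hδ, hδ3, hδM⟩ | ⟨hδ, hδ3, hδM⟩
  · obtain ⟨l, hl, hy⟩ := P_surj hc (P n 1 j + ((n / 2 : ℕ) : ZMod n))
    have hl' : l < j ∨ k ≤ l := by
      by_contra hcon
      push Not at hcon
      apply not_mem_arc hn (s := j) (θ := l - j) (by omega)
      rw [show j + (l - j) = l by omega, hy]
    have hx0 : (j, k, k - 1, l) ∈ S2 n := mem_S2.2 ⟨hk, by omega, by omega, hl, hl'⟩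
    have hE : E2 n 1 (j, k, k - 1, l)
        = (2 ^ (k - j - 1) - 1) * pw (P n 1 j) + (1 + 2) * pw (P n 1 l) := by
      unfold E2
      have e1 : P n 1 (k - 1) = P n 1 (j + (k - j - 1)) := by
        rw [show j + (k - j - 1) = k - 1 by omega]
      have e2 : P n 1 k = P n 1 (j + ((k - j - 1) + 1)) := by
        rw [show j + ((k - j - 1) + 1) = k by omega]
      simp only
      rw [e1, e2, pw_P_add, pw_P_add, one_mul, one_mul, pow_succ]
      ring
    refine ⟨k - 1, l, hx0, ?_, ?_, ?_⟩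
    · rintro ⟨j', k', t', l'⟩ hx hxM hxE
      have hx' := mem_S2.1 hx
      rcases uniq1 hD hDn hy hδ hδM hx hxM (by rw [hxE, hE]) with
        (⟨a1, a2, a3, a4⟩ | ⟨a1, _⟩) | (⟨a1, a2, a3, a4⟩ | ⟨a1, _⟩)
      · have b1 := P_inj hc (by omega) (by omega) a1
        have b2 := P_inj hc (by omega) (by omega) a4
        subst b1 b2
        have b3 : k' = k := by omega
        have b4 : t' = k - 1 := by omega
        rw [b3, b4]
      · omega
      · have b1 := P_inj hc (by omega) (by omega) a1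
        exfalso
        omega
      · omega
    · rintro ⟨j', k', t'⟩ hx hxM hxE
      exact none1 hD hDn hy hδ hδM hx hxM (by rw [hxE, hE])
    · rintro ⟨j', k', t'⟩ hx hxM hxE
      exact none1' hD hDn hy hδ hδM hx hxM (by rw [hxE, hE])
  · obtain ⟨t, ht, hy⟩ := P_surj hc (P n 1 k + ((n / 2 : ℕ) : ZMod n))
    have ht' : j ≤ t ∧ t < k := by
      by_contra hcon
      obtain ⟨θ, hθ, e1, _⟩ := P_out (i := 1) hjk hk ht (by omega)
      apply not_mem_arc hn (s := k) (θ := θ) (by omega)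
      rw [← e1, hy]
    obtain ⟨l, hl, hlj, hPl⟩ : ∃ l, l < n ∧ (l < j ∨ k ≤ l) ∧
        P n 1 l = P n 1 (k + (n - (k - j) - 1)) := by
      rcases Nat.eq_zero_or_pos j with rfl | hj
      · exact ⟨n - 1, by omega, by omega, by rw [show k + (n - (k - 0) - 1) = n - 1 by omega]⟩
      · refine ⟨j - 1, by omega, by omega, ?_⟩
        rw [show k + (n - (k - j) - 1) = (j - 1) + n by omega, P_per]
    have hx0 : (j, k, t, l) ∈ S2 n := mem_S2.2 ⟨hk, ht'.1, ht'.2, hl, hlj⟩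
    have hE : E2 n 1 (j, k, t, l)
        = (2 ^ (n - (k - j) - 1) - 1) * pw (P n 1 k) + (1 + 2) * pw (P n 1 t) := by
      unfold E2
      have e2 : P n 1 j = P n 1 (k + ((n - (k - j) - 1) + 1)) := by
        rw [P_back (i := 1) hjk hk]
        congr 1
        omega
      simp only
      rw [hPl, e2, pw_P_add, pw_P_add, one_mul, one_mul, pow_succ]
      ring
    refine ⟨t, l, hx0, ?_, ?_, ?_⟩
    · rintro ⟨j', k', t', l'⟩ hx hxM hxE
      have hx' := mem_S2.1 hx
      rcases uniq1 hD hDn hy hδ hδM hx hxM (by rw [hxE, hE]) with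
        (⟨a1, a2, a3, a4⟩ | ⟨a1, _⟩) | (⟨a1, a2, a3, a4⟩ | ⟨a1, _⟩)
      · have b1 := P_inj hc (by omega) (by omega) a1
        exfalso
        omega
      · omega
      · have b1 := P_inj hc (by omega) (by omega) a1
        have b2 := P_inj hc (by omega) (by omega) a4
        subst b1 b2
        have b3 : j' = j := by omega
        subst b3
        rw [← hPl] at a3
        rw [P_inj hc (by omega) (by omega) a3]
      · omega
    · rintro ⟨j', k', t'⟩ hx hxM hxE
      exact none1 hD hDn hy hδ hδM hx hxM (by rw [hxE, hE])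
    · rintro ⟨j', k', t'⟩ hx hxM hxE
      exact none1' hD hDn hy hδ hδM hx hxM (by rw [hxE, hE])

/-- the collision for arcs of length `3` -/
theorem step_three {n M D : ℕ} (hD : 2 * M + 12 ≤ D) (hDn : D + M + 14 ≤ n) (hM3 : 3 < M)
    [NeZero n] :
    (0, 3, 2, D) ∈ S2 n ∧ (D, D + 3, D + 2, 0) ∈ S2 n ∧
      E2 n 1 (D, D + 3, D + 2, 0) = E2 n 1 (0, 3, 2, D) ∧
      (∀ x ∈ S2 n, (x.2.1 - x.1 < M ∨ n - (x.2.1 - x.1) < M) →
        E2 n 1 x = E2 n 1 (0, 3, 2, D) → x = (0, 3, 2, D) ∨ x = (D, D + 3, D + 2, 0)) ∧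
      (∀ x ∈ S1 n, (x.2.1 - x.1 < M ∨ n - (x.2.1 - x.1) < M) → E1 n 1 x ≠ E2 n 1 (0, 3, 2, D)) ∧
      (∀ x ∈ S1 n, (x.2.1 - x.1 < M ∨ n - (x.2.1 - x.1) < M) →
        E1' n 1 x ≠ E2 n 1 (0, 3, 2, D)) := by
  have hc : Nat.Coprime 1 n := Nat.coprime_one_left n
  have hy : P n 1 D = P n 1 0 + ((D : ℕ) : ZMod n) := by
    have := P_add n 1 0 D
    rwa [zero_add, one_mul] at this
  have hE : E2 n 1 (0, 3, 2, D)
      = (2 ^ (3 - 1) - 1) * pw (P n 1 0) + (1 + 2) * pw (P n 1 D) := by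
    unfold E2
    have e1 : P n 1 2 = P n 1 (0 + 2) := by rw [zero_add]
    have e2 : P n 1 3 = P n 1 (0 + 3) := by rw [zero_add]
    simp only
    rw [e1, e2, pw_P_add, pw_P_add]
    norm_num
    ring
  have hE' : E2 n 1 (D, D + 3, D + 2, 0)
      = (2 ^ (3 - 1) - 1) * pw (P n 1 D) + (1 + 2) * pw (P n 1 0) := by
    unfold E2
    simp only
    rw [pw_P_add, pw_P_add]
    norm_num
    ring
  refine ⟨mem_S2.2 (by omega), mem_S2.2 (by omega), ?_, ?_, ?_, ?_⟩
  · rw [hE, hE']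
    norm_num
    ring
  · rintro ⟨j', k', t', l'⟩ hx hxM hxE
    have hx' := mem_S2.1 hx
    rcases uniq1 hD hDn hy (by norm_num) hM3 hx hxM (by rw [hxE, hE]) with
      (⟨a1, a2, a3, a4⟩ | ⟨a1, a2, a3, a4, a5⟩) | (⟨a1, a2, a3, a4⟩ | ⟨a1, a2, a3⟩)
    · left
      have b1 := P_inj hc (by omega) (by omega) a1
      have b2 := P_inj hc (by omega) (by omega) a4
      have b3 : k' = 3 := by omega
      have b4 : t' = 2 := by omega
      rw [b1, b2, b3, b4]
    · right
      have b1 := P_inj hc (by omega) (by omega) a5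
      have b2 := P_inj hc (by omega) (by omega) a4
      have b3 : k' = D + 3 := by omega
      have b4 : t' = D + 2 := by omega
      rw [b1, b2, b3, b4]
    · have b1 := P_inj hc (by omega) (by omega) a1
      exfalso
      omega
    · have b1 := P_inj hc (by omega) (by omega) a3
      exfalso
      omega
  · rintro ⟨j', k', t'⟩ hx hxM hxE
    exact none1 hD hDn hy (by norm_num) hM3 hx hxM (by rw [hxE, hE])
  · rintro ⟨j', k', t'⟩ hx hxM hxE
    exact none1' hD hDn hy (by norm_num) hM3 hx hxM (by rw [hxE, hE])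

section Field

variable {F : Type} [Field F] [Fintype F] [DecidableEq F] [CharP F 2]

theorem extract_two {n : ℕ} (hF : Fintype.card F = 2 ^ n) {ι κ : Type} {A : Finset ι}
    {B : Finset κ} {c2 : ι → F} {e2 : ι → R n} {c1 c1' : κ → F} {e1 e1' : κ → R n}
    (h : ∀ v : Fˣ, ∑ x ∈ A, c2 x * ex (e2 x) v + ∑ x ∈ B, c1 x * ex (e1 x) v
      + ∑ x ∈ B, c1' x * ex (e1' x) v = 0) {x0 x1 : ι} (hx0 : x0 ∈ A) (hx1 : x1 ∈ A)
    (hne : x0 ≠ x1) (h01 : e2 x1 = e2 x0)
    (h2 : ∀ x ∈ A, c2 x ≠ 0 → e2 x = e2 x0 → x = x0 ∨ x = x1)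
    (h1 : ∀ x ∈ B, c1 x ≠ 0 → e1 x ≠ e2 x0)
    (h1' : ∀ x ∈ B, c1' x ≠ 0 → e1' x ≠ e2 x0) : c2 x0 + c2 x1 = 0 := by
  classical
  have g : cfe (e2 x0) (fun v => ∑ x ∈ A, c2 x * ex (e2 x) v + ∑ x ∈ B, c1 x * ex (e1 x) v
      + ∑ x ∈ B, c1' x * ex (e1' x) v) = 0 := by
    unfold cfe
    refine sum_eq_zero fun v _ => ?_
    simp only
    rw [h v, zero_mul]
  have g2 : cfe (e2 x0) (fun v => ∑ x ∈ A, c2 x * ex (e2 x) v + ∑ x ∈ B, c1 x * ex (e1 x) v
      + ∑ x ∈ B, c1' x * ex (e1' x) v) = cfe (e2 x0) (fun v => ∑ x ∈ A, c2 x * ex (e2 x) v)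
        + cfe (e2 x0) (fun v => ∑ x ∈ B, c1 x * ex (e1 x) v)
        + cfe (e2 x0) (fun v => ∑ x ∈ B, c1' x * ex (e1' x) v) := by
    unfold cfe
    rw [← sum_add_distrib, ← sum_add_distrib]
    refine sum_congr rfl fun v _ => ?_
    ring
  rw [g2, cfe_sum hF, cfe_sum hF, cfe_sum hF] at g
  have k1 : ∑ x ∈ B, (if e1 x = e2 x0 then c1 x else 0) = 0 := by
    refine sum_eq_zero fun x hx => ?_
    by_cases h3 : e1 x = e2 x0
    · rw [if_pos h3]
      by_contra h4
      exact h1 x hx h4 h3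
    · rw [if_neg h3]
  have k1' : ∑ x ∈ B, (if e1' x = e2 x0 then c1' x else 0) = 0 := by
    refine sum_eq_zero fun x hx => ?_
    by_cases h3 : e1' x = e2 x0
    · rw [if_pos h3]
      by_contra h4
      exact h1' x hx h4 h3
    · rw [if_neg h3]
  have k2 : ∑ x ∈ A, (if e2 x = e2 x0 then c2 x else 0) = c2 x0 + c2 x1 := by
    rw [sum_eq_add x0 x1 hne, if_pos rfl, if_pos h01]
    · intro x hx hne'
      by_cases h3 : e2 x = e2 x0
      · rw [if_pos h3]
        by_contra h4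
        rcases h2 x hx h4 h3 with h5 | h5
        · exact hne'.1 h5
        · exact hne'.2 h5
      · rw [if_neg h3]
    · intro h3
      exact absurd hx0 h3
    · intro h3
      exact absurd hx1 h3
  rw [k1, k1', k2, add_zero, add_zero] at g
  exact g

/-- the coefficients for the cube function -/
theorem coef_one {n : ℕ} (hn : 610 ≤ n)
    (hF : Fintype.card F = 2 ^ n) {C : ℕ → ℕ → F} {U U' : ℕ → F}
    (hU : ∀ t, U t ≠ 0)
    (h : ∀ v : Fˣ, ∑ x ∈ S2 n, C x.1 x.2.1 * (U x.2.2.1 * U x.2.2.2) * ex (E2 n 1 x) v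
      + ∑ x ∈ S1 n, C x.1 x.2.1 * U x.2.2 * ex (E1 n 1 x) v
      + ∑ x ∈ S1 n, C x.1 x.2.1 * U' x.2.2 * ex (E1' n 1 x) v = 0) :
    (∀ j k, j < k → k < n → k ≠ j + 1 → ¬ (j = 0 ∧ k + 1 = n) → k ≠ j + 3 → n ≠ k - j + 3 →
      C j k = 0) ∧
    (∀ D, 302 ≤ D → D + 159 ≤ n → C 0 3 * (U 2 * U D) = C D (D + 3) * (U (D + 2) * U 0)) := by
  have hn0 : NeZero n := ⟨by omega⟩
  have hc : Nat.Coprime 1 n := Nat.coprime_one_left n
  have hab : ∀ {j k : ℕ}, j < k → k < n → 145 ≤ k - j → 145 ≤ n - (k - j) →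
      C j k = 0 := by
    intro j k hjk hk h1 h2
    obtain ⟨t, l, hx, g2, g1, g1'⟩ := step_ab (i := 1) (by omega) hc hk hjk (by omega) (by omega)
    have h3 := extract3 hF h hx (fun x hx _ he => g2 x hx he) (fun x hx _ => g1 x hx)
      (fun x hx _ => g1' x hx)
    have h4 : U t * U l ≠ 0 := mul_ne_zero (hU t) (hU l)
    exact (mul_eq_zero.1 h3).resolve_right h4
  have hshort : ∀ {j k : ℕ}, j < k → k < n → C j k ≠ 0 →
      (k - j < 145 ∨ n - (k - j) < 145) := by
    intro j k h4 h5 h6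
    by_contra hcon
    push Not at hcon
    exact h6 (hab h4 h5 hcon.1 hcon.2)
  refine ⟨?_, ?_⟩
  · intro j k hjk hk h1 h2 h5 h6
    by_cases h3 : 145 ≤ k - j ∧ 145 ≤ n - (k - j)
    · exact hab hjk hk h3.1 h3.2
    · obtain ⟨t, l, hx, g2, g1, g1'⟩ := step_c1 (M := 145) (by omega) hk hjk (by omega)
      have e3 := extract3 hF h hx
        (fun x hx hne he => by
          obtain ⟨j', k', t', l'⟩ := x
          have hx' := mem_S2.1 hx
          exact g2 _ hx (hshort (j := j') (k := k') (by omega) (by omega)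
            (fun h => hne (by simp only; rw [h, zero_mul]))) he)
        (fun x hx hne => by
          obtain ⟨j', k', t'⟩ := x
          have hx' := mem_S1.1 hx
          exact g1 _ hx (hshort (j := j') (k := k') (by omega) (by omega)
            (fun h => hne (by simp only; rw [h, zero_mul]))))
        (fun x hx hne => by
          obtain ⟨j', k', t'⟩ := x
          have hx' := mem_S1.1 hx
          exact g1' _ hx (hshort (j := j') (k := k') (by omega) (by omega)
            (fun h => hne (by simp only; rw [h, zero_mul]))))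
      have h4 : U t * U l ≠ 0 := mul_ne_zero (hU t) (hU l)
      exact (mul_eq_zero.1 e3).resolve_right h4
  · intro D hD hDn
    obtain ⟨hx0, hx1, h01, g2, g1, g1'⟩ := step_three (n := n) (M := 145) (D := D) (by omega)
      (by omega) (by norm_num)
    have e3 := extract_two hF h hx0 hx1 (by
        intro he
        have := congrArg Prod.fst he
        simp only at this
        omega) h01
      (fun x hx hne he => by
        obtain ⟨j', k', t', l'⟩ := x
        have hx' := mem_S2.1 hx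
        exact g2 _ hx (hshort (j := j') (k := k') (by omega) (by omega)
          (fun h => hne (by simp only; rw [h, zero_mul]))) he)
      (fun x hx hne => by
        obtain ⟨j', k', t'⟩ := x
        have hx' := mem_S1.1 hx
        exact g1 _ hx (hshort (j := j') (k := k') (by omega) (by omega)
          (fun h => hne (by simp only; rw [h, zero_mul]))))
      (fun x hx hne => by
        obtain ⟨j', k', t'⟩ := x
        have hx' := mem_S1.1 hx
        exact g1' _ hx (hshort (j := j') (k := k') (by omega) (by omega)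
          (fun h => hne (by simp only; rw [h, zero_mul]))))
    simp only at e3
    rwa [CharTwo.add_eq_zero] at e3

end Field

end Pool.Agent.Lib.MP_eacabd_co.Gold8
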