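import Mathlib
import Pool.Agent.Lib.MP_eacabd_co.Gold8.Expo

/-!
Switching of the Gold functions, part 9: the equation `y ^ (2 ^ i) + y = w`.
-/

set_option autoImplicit false

namespace Pool.Agent.Lib.MP_eacabd_co.Gold8

open Finset

theorem sum_per {M : Type} [AddCommMonoid M] {n i : ℕ} [NeZero n] (hc : Nat.Coprime i n)
    (g : ℕ → M) (hg : ∀ e, g (e + n) = g e) :
    ∑ e ∈ range n, g e = ∑ j ∈ range n, g (i * j) := by
  have hp : Function.Periodic g n := hg
  symm
  refine sum_nbij (fun j => (i * j) % n) ?_ ?_ ?_ ?_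
  · intro j _
    exact mem_range.2 (Nat.mod_lt _ (Nat.pos_of_ne_zero (NeZero.ne n)))
  · intro s hs t ht he
    refine P_inj hc (mem_range.1 hs) (mem_range.1 ht) ?_
    unfold P
    rw [ZMod.natCast_eq_natCast_iff']
    exact he
  · intro e he
    have he' := mem_range.1 (mem_coe.1 he)
    obtain ⟨t, ht, h⟩ := P_surj hc ((e : ℕ) : ZMod n)
    refine ⟨t, mem_coe.2 (mem_range.2 ht), ?_⟩
    unfold P at h
    rw [ZMod.natCast_eq_natCast_iff', Nat.mod_eq_of_lt he'] at h
    exact h
  · intro j _
    exact (hp.map_mod_nat (i * j)).symm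

section Sol

variable {F : Type} [Field F] [Fintype F] [DecidableEq F] [CharP F 2]

theorem fix_two {n i : ℕ} (hc : Nat.Coprime i n) (hF : Fintype.card F = 2 ^ n) {y : F}
    (hy : y ^ (2 ^ i) = y) : y = 0 ∨ y = 1 := by
  have h1 : Function.IsPeriodicPt (frobenius F 2) i y := by
    show (frobenius F 2)^[i] y = y
    rw [iterate_frobenius, hy]
  have h2 : Function.IsPeriodicPt (frobenius F 2) n y := by
    show (frobenius F 2)^[n] y = y
    rw [iterate_frobenius]
    exact pow_card' hF y
  have h3 := h1.gcd h2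
  rw [hc] at h3
  have h4 : (frobenius F 2)^[1] y = y := h3
  rw [Function.iterate_one, frobenius_def] at h4
  exact zero_or_one_of_sq h4

/-- the map `y ↦ y ^ (2 ^ i) + y` -/
def phi (F : Type) [Field F] [CharP F 2] (i : ℕ) : F →+ F where
  toFun y := y ^ (2 ^ i) + y
  map_zero' := by simp
  map_add' x y := by
    rw [add_pow_char_pow]
    ring

/-- the trace as an additive map -/
def tau (F : Type) [Field F] [CharP F 2] (n : ℕ) : F →+ F where
  toFun w := tr n w
  map_zero' := by
    unfold tr
    refine sum_eq_zero fun t _ => ?_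
    rw [zero_pow]
    positivity
  map_add' x y := by
    unfold tr
    rw [← sum_add_distrib]
    refine sum_congr rfl fun t _ => ?_
    rw [add_pow_char_pow]

theorem trg_eq {n i : ℕ} [NeZero n] (hc : Nat.Coprime i n) (hF : Fintype.card F = 2 ^ n) (w : F) :
    ∑ t ∈ range n, w ^ (2 ^ (i * t)) = tr n w := by
  unfold tr
  rw [sum_per hc (fun e => w ^ (2 ^ e)) (fun e => by
    rw [pow_add, pow_mul]
    exact pow_card' hF _)]

theorem card_phi {n i : ℕ} (hc : Nat.Coprime i n) (hF : Fintype.card F = 2 ^ n) :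
    2 * Nat.card (phi F i).range = 2 ^ n := by
  have hker : Nat.card (phi F i).ker = 2 := by
    have e : ((phi F i).ker : Set F) = {0, 1} := by
      ext y
      simp only [SetLike.mem_coe, AddMonoidHom.mem_ker, Set.mem_insert_iff, Set.mem_singleton_iff]
      show y ^ (2 ^ i) + y = 0 ↔ _
      rw [CharTwo.add_eq_zero]
      constructor
      · exact fix_two hc hF
      · rintro (rfl | rfl)
        · rw [zero_pow]
          positivity
        · rw [one_pow]
    have e2 : Nat.card (phi F i).ker = ((phi F i).ker : Set F).ncard := rfl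
    rw [e2, e, Set.ncard_pair zero_ne_one]
  have h1 : (phi F i).ker.index = Nat.card (phi F i).range := AddSubgroup.index_ker _
  have h2 := (phi F i).ker.card_mul_index
  rw [hker, h1, Nat.card_eq_fintype_card (α := F), hF] at h2
  exact h2

theorem card_tau {n : ℕ} (hF : Fintype.card F = 2 ^ n) :
    2 * Nat.card (tau F n).ker = 2 ^ n := by
  have hr : Nat.card (tau F n).range = 2 := by
    have e : ((tau F n).range : Set F) = {0, 1} := by
      apply Set.eq_of_subset_of_ncard_le
      · rintro _ ⟨w, rfl⟩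
        exact zero_or_one_of_sq (tr_sq hF w)
      · rw [Set.ncard_pair zero_ne_one]
        by_contra hcon
        push Not at hcon
        have h0 : (0 : F) ∈ ((tau F n).range : Set F) := ⟨0, map_zero _⟩
        have h2 : ∀ w : F, tr n w = 0 := by
          intro w
          have h3 : (tr n w) ∈ ((tau F n).range : Set F) := ⟨w, rfl⟩
          have h4 : ((tau F n).range : Set F).ncard ≤ 1 := by omega
          rw [Set.ncard_le_one_iff] at h4
          exact h4 h3 h0
        have h5 := sum_units hF (1 : F)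
        rw [sum_eq_zero] at h5
        · exact zero_ne_one h5
        · intro y _
          rw [h2, mul_zero]
      · exact Set.toFinite _
    have e2 : Nat.card (tau F n).range = ((tau F n).range : Set F).ncard := rfl
    rw [e2, e, Set.ncard_pair zero_ne_one]
  have h1 : (tau F n).ker.index = Nat.card (tau F n).range := AddSubgroup.index_ker _
  have h2 := (tau F n).ker.card_mul_index
  rw [h1, hr, Nat.card_eq_fintype_card (α := F), hF] at h2
  rw [mul_comm]
  exact h2

theorem tr_phi {n i : ℕ} [NeZero n] (hc : Nat.Coprime i n) (hF : Fintype.card F = 2 ^ n) (y : F) :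
    tr n (y ^ (2 ^ i) + y) = 0 := by
  rw [← trg_eq hc hF]
  have h1 : ∀ t, (y ^ (2 ^ i) + y) ^ (2 ^ (i * t)) = y ^ (2 ^ (i * (t + 1))) + y ^ (2 ^ (i * t)) := by
    intro t
    rw [add_pow_char_pow, ← pow_mul, ← pow_add]
    congr 3
    ring
  rw [sum_congr rfl fun t _ => h1 t, sum_add_distrib]
  have h2 : ∑ t ∈ range (n + 1), y ^ (2 ^ (i * t))
      = ∑ t ∈ range n, y ^ (2 ^ (i * (t + 1))) + y ^ (2 ^ (i * 0)) := sum_range_succ' _ _
  have h3 : ∑ t ∈ range (n + 1), y ^ (2 ^ (i * t))
      = ∑ t ∈ range n, y ^ (2 ^ (i * t)) + y ^ (2 ^ (i * n)) := sum_range_succ _ _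
  have h4 : y ^ (2 ^ (i * n)) = y := by
    rw [mul_comm, pow_mul]
    clear h2 h3
    induction i with
    | zero => rw [pow_zero, pow_one]
    | succ m ih =>
      have ih' : ∀ m : ℕ, y ^ ((2 ^ n) ^ m) = y := by
        intro m
        induction m with
        | zero => rw [pow_zero, pow_one]
        | succ m ih => rw [pow_succ, pow_mul, ih, pow_card' hF]
      exact ih' _
  rw [h4, h2, mul_zero, pow_zero, pow_one] at h3
  rw [add_right_cancel h3, CharTwo.add_self_eq_zero]

/-- solvability -/
theorem exists_y {n i : ℕ} [NeZero n] (hc : Nat.Coprime i n) (hF : Fintype.card F = 2 ^ n) {w : F}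
    (hw : tr n w = 0) : ∃ y : F, y ^ (2 ^ i) + y = w := by
  have h1 : (phi F i).range ≤ (tau F n).ker := by
    rintro _ ⟨y, rfl⟩
    rw [AddMonoidHom.mem_ker]
    exact tr_phi hc hF y
  have h2 : (phi F i).range = (tau F n).ker := by
    apply AddSubgroup.eq_of_le_of_card_ge h1
    have := card_phi hc hF (i := i)
    have := card_tau hF
    omega
  have h3 : w ∈ (tau F n).ker := by
    rw [AddMonoidHom.mem_ker]
    exact hw
  rw [← h2] at h3
  exact h3

end Sol

end Pool.Agent.Lib.MP_eacabd_co.Gold8
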