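import Mathlib
import Pool.Agent.Lib.MP_eacabd_co.Gold8.Sol

/-!
Switching of the Gold functions, part 10: the identity of functions on the multiplicative group and
the main lemma on coefficients.
-/

set_option autoImplicit false

namespace Pool.Agent.Lib.MP_eacabd_co.Gold8

open Finset

theorem sum_S2 {M : Type} [AddCommMonoid M] (n : ℕ) (f : ℕ → ℕ → ℕ → ℕ → M) :
    ∑ x ∈ S2 n, f x.1 x.2.1 x.2.2.1 x.2.2.2 = ∑ j ∈ range n, ∑ k ∈ range n,
      if j < k then ∑ t ∈ Ico j k, ∑ l ∈ range n \ Ico j k, f j k t l else 0 := by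
  unfold S2
  rw [sum_filter, sum_product]
  refine sum_congr rfl fun j hj => ?_
  rw [sum_product]
  refine sum_congr rfl fun k hk => ?_
  rw [mem_range] at hj hk
  rw [sum_product]
  split_ifs with h
  · have e : Ico j k = (range n).filter fun t => t ∈ Ico j k := by
      ext t
      rw [mem_filter, mem_range, mem_Ico]
      omega
    conv_rhs => rw [e, sum_filter]
    refine sum_congr rfl fun t _ => ?_
    split_ifs with h2
    · rw [← e, ← filter_notMem_eq_sdiff, sum_filter]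
      refine sum_congr rfl fun l _ => ?_
      simp only [h, h2, and_self, true_and]
    · refine sum_eq_zero fun l _ => ?_
      rw [if_neg]
      rintro ⟨⟨_, h3⟩, _⟩
      exact h2 h3
  · refine sum_eq_zero fun t _ => sum_eq_zero fun l _ => ?_
    rw [if_neg]
    rintro ⟨⟨h3, _⟩, _⟩
    exact h h3

theorem sum_S1 {M : Type} [AddCommMonoid M] (n : ℕ) (f : ℕ → ℕ → ℕ → M) :
    ∑ x ∈ S1 n, f x.1 x.2.1 x.2.2 = ∑ j ∈ range n, ∑ k ∈ range n,
      if j < k then ∑ t ∈ Ico j k, f j k t else 0 := by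
  unfold S1
  rw [sum_filter, sum_product]
  refine sum_congr rfl fun j hj => ?_
  rw [sum_product]
  refine sum_congr rfl fun k hk => ?_
  rw [mem_range] at hj hk
  split_ifs with h
  · have e : Ico j k = (range n).filter fun t => t ∈ Ico j k := by
      ext t
      rw [mem_filter, mem_range, mem_Ico]
      omega
    conv_rhs => rw [e, sum_filter]
    refine sum_congr rfl fun t _ => ?_
    simp only [h, true_and]
  · refine sum_eq_zero fun t _ => ?_
    rw [if_neg]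
    rintro ⟨h3, _⟩
    exact h h3

section Ident

variable {F : Type} [Field F] [Fintype F] [DecidableEq F] [CharP F 2]

theorem telescope {w y : F} {i : ℕ} (h : y ^ (2 ^ i) + y = w) {j k : ℕ} (hjk : j ≤ k) :
    ∑ t ∈ Ico j k, w ^ (2 ^ (i * t)) = y ^ (2 ^ (i * j)) + y ^ (2 ^ (i * k)) := by
  induction k, hjk using Nat.le_induction with
  | base => rw [Ico_self, sum_empty, CharTwo.add_self_eq_zero]
  | succ k hk ih =>
    rw [sum_Ico_succ_top hk, ih]
    have h1 : w ^ (2 ^ (i * k)) = y ^ (2 ^ (i * (k + 1))) + y ^ (2 ^ (i * k)) := by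
      rw [← h, add_pow_char_pow, ← pow_mul, ← pow_add]
      congr 3
      ring
    rw [h1]
    have two : (2 : F) = 0 := CharTwo.two_eq_zero
    linear_combination (y ^ (2 ^ (i * k))) * two

/-- the vanishing on the bad planes, in terms of coefficients -/
def Vanish (n i : ℕ) (u : F) (C : ℕ → ℕ → F) : Prop :=
  ∀ a y : F, a ≠ 0 → a * a ^ (2 ^ i) * (y ^ (2 ^ i) + y) = u →
    ∑ j ∈ range n, ∑ k ∈ range n, (if j < k then C j k * (a ^ (2 ^ (i * j)) * a ^ (2 ^ (i * k)) *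
      (y ^ (2 ^ (i * j)) + y ^ (2 ^ (i * k)))) else 0) = 0

theorem bracket {n i : ℕ} [NeZero n] (hc : Nat.Coprime i n) (hF : Fintype.card F = 2 ^ n) {u : F}
    {C : ℕ → ℕ → F} (hV : Vanish n i u C) {v : F} (hv : v ≠ 0) :
    ∑ j ∈ range n, ∑ k ∈ range n, (if j < k then
      C j k * (v ^ (2 ^ (i * j)))⁻¹ * (v ^ (2 ^ (i * k)))⁻¹ *
      ((∑ t ∈ Ico j k, (u * v * v ^ (2 ^ i)) ^ (2 ^ (i * t))) *
        (∑ t ∈ range n \ Ico j k, (u * v * v ^ (2 ^ i)) ^ (2 ^ (i * t)))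
      + (∑ t ∈ Ico j k, (u * v * v ^ (2 ^ i)) ^ (2 ^ (i * t)))
      + (∑ t ∈ Ico j k, (u * v * v ^ (2 ^ i)) ^ (2 ^ (i * t))) ^ 2) else 0) = 0 := by
  have two : (2 : F) = 0 := CharTwo.two_eq_zero
  set w : F := u * v * v ^ (2 ^ i) with hw
  have hsum : ∀ {j k : ℕ}, k < n → ∑ t ∈ range n \ Ico j k, w ^ (2 ^ (i * t))
      = tr n w + ∑ t ∈ Ico j k, w ^ (2 ^ (i * t)) := by
    intro j k hk
    have h1 : Ico j k ⊆ range n := by
      intro t ht
      rw [mem_Ico] at ht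
      rw [mem_range]
      omega
    have h2 := sum_sdiff (f := fun t => w ^ (2 ^ (i * t))) h1
    rw [trg_eq hc hF] at h2
    rw [← h2, add_assoc, CharTwo.add_self_eq_zero, add_zero]
  rcases zero_or_one_of_sq (tr_sq hF w) with h0 | h0
  · obtain ⟨y, hy⟩ := exists_y hc hF h0
    have h1 := hV v⁻¹ y (inv_ne_zero hv) (by
      rw [hy, hw, inv_pow]
      have h3 : v ^ (2 ^ i) ≠ 0 := pow_ne_zero _ hv
      field_simp)
    refine Eq.trans ?_ h1
    refine sum_congr rfl fun j _ => sum_congr rfl fun k hk => ?_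
    rw [mem_range] at hk
    split_ifs with h
    · rw [hsum hk, h0, zero_add, telescope hy h.le, inv_pow, inv_pow]
      linear_combination (C j k * (v ^ (2 ^ (i * j)))⁻¹ * (v ^ (2 ^ (i * k)))⁻¹ *
        (y ^ (2 ^ (i * j)) + y ^ (2 ^ (i * k))) ^ 2) * two
    · rfl
  · refine sum_eq_zero fun j _ => sum_eq_zero fun k hk => ?_
    rw [mem_range] at hk
    split_ifs with h
    · rw [hsum hk, h0]
      set s : F := ∑ t ∈ Ico j k, w ^ (2 ^ (i * t))
      linear_combination (C j k * (v ^ (2 ^ (i * j)))⁻¹ * (v ^ (2 ^ (i * k)))⁻¹ * (s + s ^ 2)) * two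
    · rfl

theorem ident {n i : ℕ} [NeZero n] (hc : Nat.Coprime i n) (hF : Fintype.card F = 2 ^ n) {u : F}
    {C : ℕ → ℕ → F} (hV : Vanish n i u C) (v : Fˣ) :
    ∑ x ∈ S2 n, C x.1 x.2.1 * (u ^ (2 ^ (i * x.2.2.1)) * u ^ (2 ^ (i * x.2.2.2))) * ex (E2 n i x) v
      + ∑ x ∈ S1 n, C x.1 x.2.1 * u ^ (2 ^ (i * x.2.2)) * ex (E1 n i x) v
      + ∑ x ∈ S1 n, C x.1 x.2.1 * (u ^ (2 ^ (i * x.2.2))) ^ 2 * ex (E1' n i x) v = 0 := by
  have hv : (v : F) ≠ 0 := v.ne_zero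
  have hW : ∀ t : ℕ, (u * v * (v : F) ^ (2 ^ i)) ^ (2 ^ (i * t))
      = u ^ (2 ^ (i * t)) * ex ((1 + 2 ^ i) * pw (P n i t)) v := by
    intro t
    have h1 : (1 + 2 ^ i : R n) * pw (P n i t) = pw (P n i t) + pw (P n i (t + 1)) := by
      rw [pw_P_add, mul_one]
      ring
    rw [h1, ex_add hF, ex_P hF, ex_P hF, mul_pow, mul_pow, ← pow_mul, ← pow_add]
    have h2 : i + i * t = i * (t + 1) := by ring
    rw [h2]
    ring
  have hW2 : ∀ t : ℕ, ((u * v * (v : F) ^ (2 ^ i)) ^ (2 ^ (i * t))) ^ 2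
      = (u ^ (2 ^ (i * t))) ^ 2 * ex ((1 + 2 ^ i) * pw (P n i t + 1)) v := by
    intro t
    have h1 : (1 + 2 ^ i : R n) * pw (P n i t + 1)
        = (1 + 2 ^ i) * pw (P n i t) + (1 + 2 ^ i) * pw (P n i t) := by
      rw [pw_add, pw_one]
      ring
    rw [hW, h1, ex_add hF]
    ring
  have e2 : ∀ j k t l : ℕ, C j k * (u ^ (2 ^ (i * t)) * u ^ (2 ^ (i * l))) *
      ex (E2 n i (j, k, t, l)) v = C j k * ((v : F) ^ (2 ^ (i * j)))⁻¹ *
        ((v : F) ^ (2 ^ (i * k)))⁻¹ * ((u * v * (v : F) ^ (2 ^ i)) ^ (2 ^ (i * t)) *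
          (u * v * (v : F) ^ (2 ^ i)) ^ (2 ^ (i * l))) := by
    intro j k t l
    unfold E2
    simp only
    rw [ex_sub hF, ex_sub hF, ex_add hF, ex_P hF, ex_P hF, hW, hW]
    ring
  have e1 : ∀ j k t : ℕ, C j k * u ^ (2 ^ (i * t)) *
      ex (E1 n i (j, k, t)) v = C j k * ((v : F) ^ (2 ^ (i * j)))⁻¹ *
        ((v : F) ^ (2 ^ (i * k)))⁻¹ * ((u * v * (v : F) ^ (2 ^ i)) ^ (2 ^ (i * t))) := by
    intro j k t
    unfold E1
    simp only
    rw [ex_sub hF, ex_sub hF, ex_P hF, ex_P hF, hW]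
    ring
  have e1' : ∀ j k t : ℕ, C j k * (u ^ (2 ^ (i * t))) ^ 2 *
      ex (E1' n i (j, k, t)) v = C j k * ((v : F) ^ (2 ^ (i * j)))⁻¹ *
        ((v : F) ^ (2 ^ (i * k)))⁻¹ * ((u * v * (v : F) ^ (2 ^ i)) ^ (2 ^ (i * t))) ^ 2 := by
    intro j k t
    unfold E1'
    simp only
    rw [ex_sub hF, ex_sub hF, ex_P hF, ex_P hF, hW2]
    ring
  have s2 := sum_S2 n (fun j k t l => C j k * (u ^ (2 ^ (i * t)) * u ^ (2 ^ (i * l))) *
      (ex (E2 n i (j, k, t, l)) v : F))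
  have s1 := sum_S1 n (fun j k t => C j k * u ^ (2 ^ (i * t)) * (ex (E1 n i (j, k, t)) v : F))
  have s1' := sum_S1 n (fun j k t => C j k * (u ^ (2 ^ (i * t))) ^ 2 *
    (ex (E1' n i (j, k, t)) v : F))
  simp only [Prod.mk.eta] at s2 s1 s1'
  rw [s2, s1, s1', ← sum_add_distrib, ← sum_add_distrib]
  refine Eq.trans ?_ (bracket hc hF hV hv)
  refine sum_congr rfl fun j _ => ?_
  rw [← sum_add_distrib, ← sum_add_distrib]
  refine sum_congr rfl fun k _ => ?_
  split_ifs with h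
  · rw [sum_congr rfl fun t _ => sum_congr rfl fun l _ => e2 j k t l,
      sum_congr rfl fun t _ => e1 j k t, sum_congr rfl fun t _ => e1' j k t,
      sum_pow_char (p := 2), sum_mul_sum]
    simp only [← mul_sum]
    ring
  · rw [add_zero, add_zero]

/-- the main lemma on coefficients -/
theorem main_lemma {n i : ℕ} (hi : 2 ≤ i) (hc : Nat.Coprime i n) (hn : 400 * i ^ 2 ≤ n)
    (hF : Fintype.card F = 2 ^ n) {u : F} (hu : u ≠ 0) {C : ℕ → ℕ → F} (hV : Vanish n i u C)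
    {j k : ℕ} (hjk : j < k) (hk : k < n) (h1 : k ≠ j + 1) (h2 : ¬ (j = 0 ∧ k + 1 = n)) :
    C j k = 0 := by
  have hn0 : NeZero n := ⟨by omega⟩
  exact coef_zero hi hc hn hF (U := fun t => u ^ (2 ^ (i * t)))
    (U' := fun t => (u ^ (2 ^ (i * t))) ^ 2) (fun t => pow_ne_zero _ hu) (ident hc hF hV)
    hjk hk h1 h2

end Ident

end Pool.Agent.Lib.MP_eacabd_co.Gold8
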