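import Mathlib
import Pool.Agent.Lib.MP_eacabd_co.Deriv
import Pool.Agent.Lib.MP_eacabd_co.Tri
import Pool.Agent.Lib.MP_eacabd_co.Gold8.Ident

/-!
Switching of the Gold functions, part 11: alternating trilinear maps which vanish on the bad planes
vanish; third derivatives.
-/

set_option autoImplicit false

namespace Pool.Agent.Lib.MP_eacabd_co.Gold8

open Finset

section Tril

variable {F : Type} [Field F] [Fintype F] [DecidableEq F] [CharP F 2]

/-- the planes on which the Gold form takes the value `u` -/
def Bad (i : ℕ) (u a b : F) : Prop := a * b ^ (2 ^ i) + a ^ (2 ^ i) * b = u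

theorem sum_pairs' (f : ℕ → ℕ → F) (n : ℕ) (h0 : ∀ j, f j j = 0) :
    ∑ j ∈ range n, ∑ k ∈ range n, f j k
      = ∑ j ∈ range n, ∑ k ∈ range n, if j < k then f j k + f k j else 0 := by
  have h1 : ∑ j ∈ range n, ∑ k ∈ range n, f j k
      = ∑ j ∈ range n, ∑ k ∈ range n, (if j < k then f j k else 0)
        + ∑ j ∈ range n, ∑ k ∈ range n, (if k < j then f j k else 0) := by
    rw [← sum_add_distrib]
    refine sum_congr rfl fun j _ => ?_
    rw [← sum_add_distrib]
    refine sum_congr rfl fun k _ => ?_
    rcases Nat.lt_trichotomy j k with h | h | h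
    · rw [if_pos h, if_neg (by omega), add_zero]
    · subst h
      rw [if_neg (lt_irrefl _), h0, add_zero]
    · rw [if_neg (by omega), if_pos h, zero_add]
  rw [h1, sum_comm (s := range n) (t := range n) (f := fun j k => if k < j then f j k else 0),
    ← sum_add_distrib]
  refine sum_congr rfl fun j _ => ?_
  rw [← sum_add_distrib]
  refine sum_congr rfl fun k _ => ?_
  split_ifs
  · rfl
  · rw [add_zero]

theorem vanish_of {n i : ℕ} [NeZero n] (hc : Nat.Coprime i n) (hF : Fintype.card F = 2 ^ n) {u : F}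
    {B : F → F → F} {g : ℕ → ℕ → F}
    (hB : ∀ x y, B x y = ∑ e ∈ range n, ∑ e' ∈ range n, g e e' * x ^ (2 ^ e) * y ^ (2 ^ e'))
    (hp1 : ∀ e e', g (e + n) e' = g e e') (hp2 : ∀ e e', g e (e' + n) = g e e')
    (hs : ∀ e e', g e e' = g e' e) (ha : ∀ e, g e e = 0)
    (hbad : ∀ a b, Bad i u a b → B a b = 0) : Vanish n i u (fun j k => g (i * j) (i * k)) := by
  intro a y _ hy
  have hb : Bad i u a (a * y) := by
    unfold Bad
    rw [mul_pow, ← hy]
    ring
  have h1 := hbad _ _ hb
  rw [hB] at h1
  have hper : ∀ (x : F) (e : ℕ), x ^ (2 ^ (e + n)) = x ^ (2 ^ e) := by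
    intro x e
    rw [pow_add, pow_mul]
    exact pow_card' hF _
  have h2 : ∀ e, ∑ e' ∈ range n, g e e' * a ^ (2 ^ e) * (a * y) ^ (2 ^ e')
      = ∑ k ∈ range n, g e (i * k) * a ^ (2 ^ e) * (a * y) ^ (2 ^ (i * k)) := by
    intro e
    exact sum_per hc (fun e' => g e e' * a ^ (2 ^ e) * (a * y) ^ (2 ^ e')) (fun e' => by
      rw [hp2, hper])
  rw [sum_congr rfl fun e _ => h2 e,
    sum_per hc (fun e => ∑ k ∈ range n, g e (i * k) * a ^ (2 ^ e) * (a * y) ^ (2 ^ (i * k)))
      (fun e => by
        refine sum_congr rfl fun k _ => ?_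
        rw [hp1, hper]),
    sum_pairs' (fun j k => g (i * j) (i * k) * a ^ (2 ^ (i * j)) * (a * y) ^ (2 ^ (i * k))) n
      (fun j => by rw [ha]; ring)] at h1
  refine Eq.trans ?_ h1
  refine sum_congr rfl fun j _ => sum_congr rfl fun k _ => ?_
  split_ifs
  · rw [hs (i * k) (i * j), mul_pow, mul_pow]
    ring
  · rfl

theorem tri_zero_gold {n i : ℕ} (hi : 2 ≤ i) (hc : Nat.Coprime i n) (hn : 400 * i ^ 2 ≤ n)
    (hF : Fintype.card F = 2 ^ n) {u : F} (hu : u ≠ 0) {T : F → F → F → F} (hT : Tri T)
    (hbad : ∀ a b, Bad i u a b → ∀ z, T a b z = 0) (x y z : F) : T x y z = 0 := by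
  have hi2 : 2 * i ≤ i ^ 2 := by
    rw [pow_two]
    exact Nat.mul_le_mul_right i hi
  have hn0 : NeZero n := ⟨by omega⟩
  have hV : Vanish n i u (fun j k => t T (i * j) (i * k) 0) := by
    refine vanish_of hc hF (B := fun x y => cf (T x y) 0) (g := fun e e' => t T e e' 0)
      (fun x y => cf_eq hF hT x y 0) (fun e e' => t_per hF e e' 0) (fun e e' => t_per2 hF hT e e' 0)
      (fun e e' => t_s12 hT e e' 0) (fun e => t_alt hT e 0) ?_
    intro a b hab
    unfold cf
    refine sum_eq_zero fun z _ => ?_
    rw [hbad a b hab, zero_mul]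
  have hML : ∀ {j k : ℕ}, j < k → k < n → k ≠ j + 1 → ¬ (j = 0 ∧ k + 1 = n) →
      t T (i * j) (i * k) 0 = 0 := fun h1 h2 h3 h4 => main_lemma hi hc hn hF hu hV h1 h2 h3 h4
  have hj0 : ∀ b, t T 0 b 0 = 0 := by
    intro b
    rw [t_s23 hT, t_alt hT]
  have hb0 : ∀ a, t T a 0 0 = 0 := by
    intro a
    rw [t_s12 hT, hj0]
  have hlt : ∀ {j k : ℕ}, j < k → k < n → t T (i * j) (i * k) 0 = 0 := by
    intro j k hjk hk
    rcases Nat.eq_zero_or_pos j with rfl | hj
    · rw [mul_zero, hj0]
    by_cases h1 : k = j + 1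
    · subst h1
      by_cases h2 : n - j = 2
      · -- shift by one
        have h3 : t T (i * j) (i * (j + 1)) 0 ^ (2 ^ i) = 0 := by
          rw [t_pow hT]
          have e1 : i * j + i = i * (n - 1) := by
            rw [show n - 1 = j + 1 by omega]
            ring
          have e2 : ∀ m c : ℕ, t T (i * (n - 1)) (0 + m * n) c = t T (i * (n - 1)) 0 c := by
            intro m c
            induction m with
            | zero => rw [zero_mul, add_zero]
            | succ m ih => rw [← ih, add_mul, one_mul, ← add_assoc, t_per2 hF hT]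
          have e3 : i * (j + 1) + i = 0 + i * n := by
            rw [show n = j + 2 by omega]
            ring
          rw [e1, e3, e2, zero_add, t_s23 hT, t_s12 hT]
          have h4 := hML (j := 1) (k := n - 1) (by omega) (by omega) (by omega) (by omega)
          rwa [mul_one] at h4
        exact (pow_eq_zero_iff (by positivity)).1 h3
      · -- shift by `n - j`
        have h3 : t T (i * j) (i * (j + 1)) 0 ^ (2 ^ (i * (n - j))) = 0 := by
          rw [t_pow hT]
          have e1 : i * j + i * (n - j) = 0 + i * n := by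
            rw [← mul_add, Nat.add_sub_cancel' (by omega), zero_add]
          have e2 : i * (j + 1) + i * (n - j) = i + i * n := by
            have : i * j + i * (n - j) = i * n := by
              rw [← mul_add, Nat.add_sub_cancel' (by omega)]
            rw [mul_add, mul_one]
            omega
          have e3 : ∀ (m : ℕ) (a b c : ℕ), t T (a + m * n) b c = t T a b c := by
            intro m a b c
            induction m with
            | zero => rw [zero_mul, add_zero]
            | succ m ih => rw [← ih, add_mul, one_mul, ← add_assoc, t_per hF]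
          rw [e1, e2, e3, t_s12 hT, e3, zero_add, t_s23 hT]
          have h4 := hML (j := 1) (k := n - j) (by omega) (by omega) (by omega) (by omega)
          rwa [mul_one] at h4
        exact (pow_eq_zero_iff (by positivity)).1 h3
    · exact hML hjk hk h1 (by omega)
  have hall : ∀ a b, t T a b 0 = 0 := by
    intro a b
    have hper1 : ∀ a b, t T (a % n) b 0 = t T a b 0 := by
      intro a b
      have hp : Function.Periodic (fun a => t T a b 0) n := fun a => t_per hF a b 0
      exact hp.map_mod_nat a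
    obtain ⟨j, hj, e1⟩ := P_surj hc ((a : ℕ) : ZMod n)
    obtain ⟨k, hk, e2⟩ := P_surj hc ((b : ℕ) : ZMod n)
    unfold P at e1 e2
    rw [ZMod.natCast_eq_natCast_iff'] at e1 e2
    rw [← hper1, ← e1, hper1, t_s12 hT, ← hper1, ← e2, hper1, t_s12 hT]
    rcases Nat.lt_trichotomy j k with h | h | h
    · exact hlt h hk
    · rw [h, t_alt hT]
    · rw [t_s12 hT]
      exact hlt h hj
  refine eq_zero_of_t hF hT ?_ x y z
  intro a _ b _ c hcn
  have h1 : t T a b c ^ (2 ^ (n - c)) = 0 := by
    rw [t_pow hT, show c + (n - c) = 0 + n by omega, t_per3 hF hT, hall]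
  exact (pow_eq_zero_iff (by positivity)).1 h1

/-- idempotent valued functions whose second derivatives on the planes `B` vanish -/
def MB (B : F → F → Prop) (g : F → F) : Prop :=
  (∀ x, g x ^ 2 = g x) ∧ ∀ a b, B a b → D a (D b g) = 0

theorem D_sq' {g : F → F} (h : ∀ x, g x ^ 2 = g x) (e x : F) : D e g x ^ 2 = D e g x := by
  unfold D
  rw [CharTwo.add_sq, h, h]

theorem MB_D {B : F → F → Prop} {g : F → F} (h : MB B g) (e : F) : MB B (D e g) := by
  refine ⟨D_sq' h.1 e, ?_⟩
  intro a b hab
  rw [D_comm b e, D_comm a e, h.2 a b hab, D_of_zero]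

theorem MB_DL {B : F → F → Prop} {g : F → F} (h : MB B g) (l : List F) : MB B (DL l g) := by
  induction l with
  | nil => exact h
  | cons a l ih => exact MB_D ih a

theorem stepB {B : F → F → Prop}
    (hB : ∀ T : F → F → F → F, Tri T → (∀ a b, B a b → ∀ z, T a b z = 0) → ∀ x y z, T x y z = 0)
    {g : F → F} (hg : MB B g) (h4 : ∀ w x y z, D w (D x (D y (D z g))) = 0) (x y z : F) :
    D x (D y (D z g)) = 0 := by
  have hT : Tri (fun x y z ↦ D x (D y (D z g)) 0) := by
    refine ⟨?_, ?_, ?_, ?_, ?_⟩
    · intro x x' y z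
      show D (x + x') (D y (D z g)) 0 = _
      rw [D_add, h4]
      simp
    · intro x y z
      show D x (D y (D z g)) 0 = D y (D x (D z g)) 0
      rw [D_comm]
    · intro x y z
      show D x (D y (D z g)) 0 = D x (D z (D y g)) 0
      rw [D_comm y z]
    · intro x z
      show D x (D x (D z g)) 0 = 0
      rw [D_self]
      rfl
    · intro x y z
      exact ((MB_D (MB_D (MB_D hg z) y) x).1) 0
  have hbad : ∀ a b, B a b → ∀ z, (fun x y z ↦ D x (D y (D z g)) 0) a b z = 0 := by
    intro a b hab z
    show D a (D b (D z g)) 0 = 0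
    rw [D_comm b z, D_comm a z, hg.2 a b hab, D_of_zero]
    rfl
  have h0 : D x (D y (D z g)) 0 = 0 := hB _ hT hbad x y z
  funext w
  have h5 : D w (D x (D y (D z g))) 0 = 0 := by
    rw [h4]
    rfl
  have h6 : D w (D x (D y (D z g))) 0 = D x (D y (D z g)) (0 + w) + D x (D y (D z g)) 0 := rfl
  rw [h5, h0, add_zero, zero_add] at h6
  exact h6.symm

theorem third_zero {B : F → F → Prop}
    (hB : ∀ T : F → F → F → F, Tri T → (∀ a b, B a b → ∀ z, T a b z = 0) → ∀ x y z, T x y z = 0)
    {f : F → F} (hf : MB B f) (x y z : F) : D x (D y (D z f)) = 0 := by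
  have down : ∀ k : ℕ, (∀ l : List F, l.length = k + 4 → DL l f = 0) →
      ∀ l : List F, l.length = k + 3 → DL l f = 0 := by
    intro k h l hl
    match l, hl with
    | x :: y :: z :: l', hl =>
      have h1 : DL (x :: y :: z :: l') f = D x (D y (D z (DL l' f))) := rfl
      rw [h1]
      refine stepB hB (MB_DL hf l') ?_ x y z
      intro w x y z
      have h2 : DL (w :: x :: y :: z :: l') f = D w (D x (D y (D z (DL l' f)))) := rfl
      rw [← h2]
      refine h _ ?_
      simp only [List.length_cons] at hl ⊢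
      omega
  have key : ∀ k : ℕ, (∀ l : List F, l.length = k + 3 → DL l f = 0) →
      ∀ l : List F, l.length = 3 → DL l f = 0 := by
    intro k
    induction k with
    | zero => intro h; exact h
    | succ k ih =>
      intro h
      exact ih (down k h)
  exact key (Fintype.card F) (fun l hl ↦ DL_long l (by omega) f) [x, y, z] rfl

end Tril

end Pool.Agent.Lib.MP_eacabd_co.Gold8
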