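import Mathlib
import Pool.Agent.Lib.MP_eacabd_co.Gold8.Tril

/-!
Switching of the Gold functions, part 12: alternating bilinear maps which vanish on the bad planes,
and the Boolean functions.
-/

set_option autoImplicit false

namespace Pool.Agent.Lib.MP_eacabd_co.Gold8

open Finset

section Quad

variable {F : Type} [Field F] [Fintype F] [DecidableEq F] [CharP F 2]

/-- an alternating bilinear map with values in the prime field -/
structure Alt2 (A : F → F → F) : Prop where
  add : ∀ x x' y, A (x + x') y = A x y + A x' y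
  symm : ∀ x y, A x y = A y x
  alt : ∀ x, A x x = 0
  sq : ∀ x y, A x y ^ 2 = A x y

/-- the coefficients -/
def al (A : F → F → F) (j k : ℕ) : F := cf (fun x => cf (fun y => A x y) k) j

variable {A : F → F → F}

omit [CharP F 2] in
theorem cf_per {n : ℕ} (hF : Fintype.card F = 2 ^ n) (φ : F → F) (j : ℕ) :
    cf φ (j + n) = cf φ j := by
  unfold cf
  refine sum_congr rfl fun y _ => ?_
  have : ((y⁻¹ : Fˣ) : F) ^ (2 ^ (j + n)) = ((y⁻¹ : Fˣ) : F) ^ (2 ^ j) := by
    rw [pow_add, pow_mul, ← hF]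
    exact FiniteField.pow_card _
  rw [this]

theorem al_eq (A : F → F → F) (j k : ℕ) : al A j k = ∑ x : Fˣ, ∑ y : Fˣ, A x y *
    ((x⁻¹ : Fˣ) : F) ^ (2 ^ j) * ((y⁻¹ : Fˣ) : F) ^ (2 ^ k) := by
  unfold al cf
  refine sum_congr rfl fun x _ => ?_
  rw [sum_mul]
  refine sum_congr rfl fun y _ => ?_
  ring

theorem al_symm (hA : Alt2 A) (j k : ℕ) : al A j k = al A k j := by
  rw [al_eq, al_eq, sum_comm]
  refine sum_congr rfl fun x _ => sum_congr rfl fun y _ => ?_
  rw [hA.symm]
  ring

theorem al_alt (hA : Alt2 A) (j : ℕ) : al A j j = 0 := by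
  rw [al_eq]
  refine sum_symm_zero _ ?_ ?_
  · intro x y
    rw [hA.symm]
    ring
  · intro x
    rw [hA.alt]
    ring

theorem al_sq (hA : Alt2 A) (j k : ℕ) : al A j k ^ 2 = al A (j + 1) (k + 1) := by
  rw [al_eq, al_eq, sum_pow_char]
  refine sum_congr rfl fun x _ => ?_
  rw [sum_pow_char]
  refine sum_congr rfl fun y _ => ?_
  rw [mul_pow, mul_pow, hA.sq, ← pow_mul, ← pow_mul, ← pow_succ, ← pow_succ]

theorem al_pow (hA : Alt2 A) (j k s : ℕ) : al A j k ^ (2 ^ s) = al A (j + s) (k + s) := by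
  induction s with
  | zero => simp
  | succ s ih =>
    rw [pow_succ, pow_mul, ih, al_sq hA]
    rfl

theorem al_exp {n : ℕ} (hF : Fintype.card F = 2 ^ n) (hA : Alt2 A) (x y : F) :
    A x y = ∑ e ∈ range n, ∑ e' ∈ range n, al A e e' * x ^ (2 ^ e) * y ^ (2 ^ e') := by
  have hy : ∀ x y y', A x (y + y') = A x y + A x y' := by
    intro x y y'
    rw [hA.symm, hA.add, hA.symm y, hA.symm y']
  have h1 := additive_eq hF (φ := fun y => A x y) (fun y y' => hy x y y') y
  have h1' : A x y = ∑ k ∈ range n, cf (fun y => A x y) k * y ^ (2 ^ k) := h1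
  have hx : ∀ k x x', cf (fun y => A (x + x') y) k = cf (fun y => A x y) k
      + cf (fun y => A x' y) k := by
    intro k x x'
    rw [← cf_add]
    congr 1
    funext y
    exact hA.add _ _ _
  rw [h1', sum_comm]
  refine sum_congr rfl fun k _ => ?_
  have h2 := additive_eq hF (φ := fun x => cf (fun y => A x y) k) (fun x x' => hx k x x') x
  have h2' : cf (fun y => A x y) k = ∑ j ∈ range n, al A j k * x ^ (2 ^ j) := h2
  rw [h2', sum_mul]

theorem tr_add (n : ℕ) (x y : F) : tr n (x + y) = tr n x + tr n y := (tau F n).map_add x y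

theorem tr_frob {n i : ℕ} [NeZero n] (hc : Nat.Coprime i n) (hF : Fintype.card F = 2 ^ n) (y : F) :
    tr n (y ^ (2 ^ i)) = tr n y := by
  have h1 := tr_phi hc hF y
  rw [tr_add, CharTwo.add_eq_zero] at h1
  exact h1

theorem bil_gold {n i : ℕ} (hi : 2 ≤ i) (hc : Nat.Coprime i n) (hn : 400 * i ^ 2 ≤ n)
    (hF : Fintype.card F = 2 ^ n) {u : F} (hu : u ≠ 0) (hA : Alt2 A)
    (hbad : ∀ a b, Bad i u a b → A a b = 0) :
    ∃ c : F, ∀ x y, A x y = tr n (c * (x * y ^ (2 ^ i) + x ^ (2 ^ i) * y)) := by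
  have hi2 : 2 * i ≤ i ^ 2 := by
    rw [pow_two]
    exact Nat.mul_le_mul_right i hi
  have hn0 : NeZero n := ⟨by omega⟩
  have hp1 : ∀ e e', al A (e + n) e' = al A e e' := fun e e' => cf_per hF _ e
  have hp2 : ∀ e e', al A e (e' + n) = al A e e' := fun e e' => by
    rw [al_symm hA, hp1, al_symm hA]
  have hV : Vanish n i u (fun j k => al A (i * j) (i * k)) :=
    vanish_of hc hF (B := A) (g := fun e e' => al A e e') (fun x y => al_exp hF hA x y)
      hp1 hp2 (al_symm hA) (al_alt hA) hbad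
  have hrow : ∀ j, j < n → j ≠ 1 → j ≠ n - 1 → al A (i * j) 0 = 0 := by
    intro j hj h1 h2
    rcases Nat.eq_zero_or_pos j with rfl | h0
    · rw [mul_zero]
      exact al_alt hA 0
    · have h3 := main_lemma hi hc hn hF hu hV (j := 0) (k := j) h0 hj (by omega) (by omega)
      simp only [mul_zero] at h3
      rw [al_symm hA]
      exact h3
  refine ⟨al A i 0, fun x y => ?_⟩
  -- the functional `A x` is a trace
  have h1 : A x y = tr n (cf (A x) 0 * y) := by
    have hy : ∀ y y', A x (y + y') = A x y + A x y' := by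
      intro y y'
      rw [hA.symm, hA.add, hA.symm y, hA.symm y']
    rw [additive_eq hF hy y]
    unfold tr
    refine sum_congr rfl fun k _ => ?_
    rw [mul_pow]
    congr 1
    unfold cf
    rw [sum_pow_char_pow]
    refine sum_congr rfl fun z _ => ?_
    have h2 : ∀ s : ℕ, A x z ^ (2 ^ s) = A x z := by
      intro s
      induction s with
      | zero => rw [pow_zero, pow_one]
      | succ s ih => rw [pow_succ, pow_mul, ih, hA.sq]
    rw [mul_pow, h2, pow_zero, pow_one]
  have h2 : cf (A x) 0 = al A i 0 * x ^ (2 ^ i)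
      + al A (i * (n - 1)) 0 * x ^ (2 ^ (i * (n - 1))) := by
    have hx : ∀ x x', cf (A (x + x')) 0 = cf (A x) 0 + cf (A x') 0 := by
      intro x x'
      rw [← cf_add]
      congr 1
      funext y
      exact hA.add _ _ _
    have h3 := additive_eq hF (φ := fun x => cf (A x) 0) hx x
    have h3' : cf (A x) 0 = ∑ e ∈ range n, al A e 0 * x ^ (2 ^ e) := h3
    rw [h3', sum_per hc (fun e => al A e 0 * x ^ (2 ^ e)) (fun e => by
      rw [hp1, pow_add, pow_mul]
      congr 1
      exact pow_card' hF _),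
      sum_eq_add 1 (n - 1) (by omega) (fun j hj h4 => by
        rw [hrow j (mem_range.1 hj) h4.1 h4.2, zero_mul]) (fun h => by
        exfalso
        exact h (mem_range.2 (by omega))) (fun h => by
        exfalso
        exact h (mem_range.2 (by omega))), mul_one]
  have h4 : al A (i * (n - 1)) 0 ^ (2 ^ i) = al A i 0 := by
    rw [al_pow hA]
    have e1 : i * (n - 1) + i = 0 + i * n := by
      obtain ⟨m, rfl⟩ : ∃ m, n = m + 1 := ⟨n - 1, by omega⟩
      rw [Nat.add_sub_cancel]
      ring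
    have e3 : ∀ (m : ℕ) (a b : ℕ), al A (a + m * n) b = al A a b := by
      intro m a b
      induction m with
      | zero => rw [zero_mul, add_zero]
      | succ m ih => rw [← ih, add_mul, one_mul, ← add_assoc, hp1]
    rw [e1, e3, zero_add, al_symm hA]
  have h5 : tr n (al A (i * (n - 1)) 0 * x ^ (2 ^ (i * (n - 1))) * y)
      = tr n (al A i 0 * (x * y ^ (2 ^ i))) := by
    rw [← tr_frob hc hF (al A (i * (n - 1)) 0 * x ^ (2 ^ (i * (n - 1))) * y), mul_pow, mul_pow, h4,
      ← pow_mul, ← pow_add]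
    have e1 : i * (n - 1) + i = n * i := by
      obtain ⟨m, rfl⟩ : ∃ m, n = m + 1 := ⟨n - 1, by omega⟩
      rw [Nat.add_sub_cancel]
      ring
    have e2 : ∀ m : ℕ, x ^ ((2 ^ n) ^ m) = x := by
      intro m
      induction m with
      | zero => rw [pow_zero, pow_one]
      | succ m ih => rw [pow_succ, pow_mul, ih, pow_card' hF]
    rw [e1, pow_mul, e2, mul_assoc]
  rw [h1, h2, add_mul, tr_add, h5, ← tr_add]
  congr 1
  ring

theorem exists_bad {n i : ℕ} (hi : 2 ≤ i) (hc : Nat.Coprime i n) (hn : 400 * i ^ 2 ≤ n)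
    (hF : Fintype.card F = 2 ^ n) {u : F} (hu : u ≠ 0) : ∃ a b : F, Bad i u a b := by
  have hi2 : 2 * i ≤ i ^ 2 := by
    rw [pow_two]
    exact Nat.mul_le_mul_right i hi
  by_contra hcon
  push Not at hcon
  have hV : Vanish n i u (fun _ _ => (1 : F)) := by
    intro a y _ hy
    exfalso
    apply hcon a (a * y)
    unfold Bad
    rw [mul_pow, ← hy]
    ring
  have h1 := main_lemma hi hc hn hF hu hV (j := 0) (k := 2) (by omega) (by omega) (by omega)
    (by omega)
  exact one_ne_zero h1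

/-- the Boolean functions -/
theorem gold_bool {n i : ℕ} (hi : 2 ≤ i) (hc : Nat.Coprime i n) (hn : 400 * i ^ 2 ≤ n)
    (hF : Fintype.card F = 2 ^ n) {u : F} (hu : u ≠ 0) {f : F → F} (hf : MB (Bad i u) f) :
    ∃ (c : F) (l : F →+ F), tr n (c * u) = 0 ∧
      ∀ x, f x = tr n (c * x ^ (2 ^ i + 1)) + l x + f 0 := by
  have two : (2 : F) = 0 := CharTwo.two_eq_zero
  have h3 := third_zero (fun T hT hb => tri_zero_gold hi hc hn hF hu hT hb) hf
  have hA : Alt2 (fun x y => D x (D y f) 0) := by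
    refine ⟨?_, ?_, ?_, ?_⟩
    · intro x x' y
      show D (x + x') (D y f) 0 = _
      rw [D_add, h3]
      simp
    · intro x y
      show D x (D y f) 0 = D y (D x f) 0
      rw [D_comm]
    · intro x
      show D x (D x f) 0 = 0
      rw [D_self]
      rfl
    · intro x y
      exact ((MB_D (MB_D hf y) x).1) 0
  obtain ⟨c, hc'⟩ := bil_gold hi hc hn hF hu hA (fun a b hab => by
    show D a (D b f) 0 = 0
    rw [hf.2 a b hab]
    rfl)
  have hu0 : tr n (c * u) = 0 := by
    obtain ⟨a, b, hab⟩ := exists_bad hi hc hn hF hu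
    have h4 : D a (D b f) 0 = tr n (c * (a * b ^ (2 ^ i) + a ^ (2 ^ i) * b)) := hc' a b
    rw [hf.2 a b hab] at h4
    unfold Bad at hab
    rw [hab] at h4
    exact h4.symm
  have hadd : ∀ x y, f (x + y) = f x + f y + f 0
      + tr n (c * (x * y ^ (2 ^ i) + x ^ (2 ^ i) * y)) := by
    intro x y
    have h4 : D x (D y f) 0 = tr n (c * (x * y ^ (2 ^ i) + x ^ (2 ^ i) * y)) := hc' x y
    rw [← h4]
    simp only [D, zero_add]
    linear_combination (-(f x) - f y - f 0) * two
  refine ⟨c, ⟨⟨fun x => f x + tr n (c * x ^ (2 ^ i + 1)) + f 0, ?_⟩, ?_⟩, hu0, ?_⟩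
  · have h4 : tr n (c * (0 : F) ^ (2 ^ i + 1)) = 0 := by
      rw [zero_pow (Nat.succ_ne_zero _), mul_zero]
      exact (tau F n).map_zero
    rw [h4]
    linear_combination (f 0) * two
  · intro x y
    simp only
    have h4 : c * (x + y) ^ (2 ^ i + 1) = c * x ^ (2 ^ i + 1) + c * y ^ (2 ^ i + 1)
        + c * (x * y ^ (2 ^ i) + x ^ (2 ^ i) * y) := by
      rw [pow_succ, add_pow_char_pow]
      ring
    rw [h4, tr_add, tr_add, hadd]
    linear_combination (tr n (c * (x * y ^ (2 ^ i) + x ^ (2 ^ i) * y))) * two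
  · intro x
    show f x = tr n (c * x ^ (2 ^ i + 1)) + (f x + tr n (c * x ^ (2 ^ i + 1)) + f 0) + f 0
    linear_combination (-(tr n (c * x ^ (2 ^ i + 1))) - f 0) * two

end Quad

end Pool.Agent.Lib.MP_eacabd_co.Gold8
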