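import Mathlib
import Pool.Agent.Lib.MP_eacabd_co.Main
import Pool.Agent.Lib.MP_eacabd_co.Gold8.Quad
import Pool.Agent.Lib.MP_eacabd_co.Gold8.OneC

/-!
Switching of the cube function: the Boolean functions.
-/

set_option autoImplicit false

namespace Pool.Agent.Lib.MP_eacabd_co.Gold8

open Finset

section Quad

variable {F : Type} [Field F] [Fintype F] [DecidableEq F] [CharP F 2]

theorem tr_two_pow {n : ℕ} [NeZero n] (hF : Fintype.card F = 2 ^ n) (y : F) (s : ℕ) :
    tr n (y ^ (2 ^ s)) = tr n y := by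
  induction s with
  | zero => rw [pow_zero, pow_one]
  | succ s ih =>
    have h1 := tr_frob (i := 1) (Nat.coprime_one_left n) hF (y ^ (2 ^ s))
    rw [← pow_mul, ← pow_add] at h1
    rw [h1, ih]

theorem one_lemma {n : ℕ} (hn : 610 ≤ n) (hF : Fintype.card F = 2 ^ n) {u : F} (hu : u ≠ 0)
    {C : ℕ → ℕ → F} (hV : Vanish n 1 u C) :
    (∀ j k, j < k → k < n → k ≠ j + 1 → ¬ (j = 0 ∧ k + 1 = n) → k ≠ j + 3 → n ≠ k - j + 3 →
      C j k = 0) ∧
    (∀ D, 302 ≤ D → D + 159 ≤ n → C 0 3 * (u ^ (2 ^ (1 * 2)) * u ^ (2 ^ (1 * D)))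
      = C D (D + 3) * (u ^ (2 ^ (1 * (D + 2))) * u ^ (2 ^ (1 * 0)))) := by
  have hn0 : NeZero n := ⟨by omega⟩
  exact coef_one hn hF (U := fun t => u ^ (2 ^ (1 * t)))
    (U' := fun t => (u ^ (2 ^ (1 * t))) ^ 2) (fun t => pow_ne_zero _ hu)
    (ident (Nat.coprime_one_left n) hF hV)

theorem exists_bad1 {n : ℕ} (hn : 610 ≤ n) (hF : Fintype.card F = 2 ^ n) {u : F} (hu : u ≠ 0) :
    ∃ a b : F, Bad 1 u a b := by
  by_contra hcon
  push Not at hcon
  have hV : Vanish n 1 u (fun _ _ => (1 : F)) := by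
    intro a y _ hy
    exfalso
    apply hcon a (a * y)
    unfold Bad
    rw [mul_pow, ← hy]
    ring
  have h1 := (one_lemma hn hF hu hV).1 0 2 (by omega) (by omega) (by omega) (by omega) (by omega)
    (by omega)
  exact one_ne_zero h1

/-- the function of Budaghyan, Carlet and Leander -/
theorem bcl_zero {n : ℕ} [NeZero n] (hF : Fintype.card F = 2 ^ n) {u e a b : F} (hu : u ≠ 0)
    (he : e * u ^ 3 = 1) (hab : Bad 1 u a b) : tr n (e * (a * b ^ 8 + a ^ 8 * b)) = 0 := by
  have two : (2 : F) = 0 := CharTwo.two_eq_zero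
  unfold Bad at hab
  rw [pow_one] at hab
  have ha : a ≠ 0 := by
    rintro rfl
    apply hu
    rw [← hab]
    ring
  set w : F := (b / a) ^ 2 + b / a with hw
  set z : F := a ^ 3 / u with hz
  have hwz : w * z = 1 := by
    rw [hw, hz]
    field_simp
    linear_combination hab
  have h1 : e * (a * b ^ 8 + a ^ 8 * b) = ((b / a) ^ 2 + b / a) + (z ^ 2 + z) := by
    have hb : b = a * (b / a) := by field_simp
    set y : F := b / a with hy
    have e0 : e = 1 / u ^ 3 := by
      field_simp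
      exact he
    have e1 : u = a ^ 3 * w := by
      rw [← hab, hb, hw]
      ring
    have hw0 : w ≠ 0 := left_ne_zero_of_mul_eq_one hwz
    have e2 : z = 1 / w := by
      field_simp
      rw [mul_comm]
      exact hwz
    have e3 : y ^ 8 + y = w ^ 4 + w ^ 2 + w := by
      rw [hw]
      linear_combination (-(2 * y ^ 7) - 3 * y ^ 6 - 2 * y ^ 5 - y ^ 4 - y ^ 3 - y ^ 2) * two
    have e4 : e * (a * b ^ 8 + a ^ 8 * b) = (w ^ 4 + w ^ 2 + w) / w ^ 3 := by
      rw [← e3, e0, e1]
      conv_lhs => rw [hb]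
      field_simp
    rw [e4, e2]
    field_simp
    ring
  rw [h1, tr_add]
  have h2 := tr_phi (i := 1) (Nat.coprime_one_left n) hF (b / a)
  have h3 := tr_phi (i := 1) (Nat.coprime_one_left n) hF z
  rw [pow_one] at h2 h3
  rw [h2, h3, add_zero]

theorem bil_one {n : ℕ} (hn : 610 ≤ n) (hF : Fintype.card F = 2 ^ n) {u : F} (hu : u ≠ 0)
    {A : F → F → F} (hA : Alt2 A) (hbad : ∀ a b, Bad 1 u a b → A a b = 0) :
    ∃ c e : F, (e = 0 ∨ e * u ^ 3 = 1) ∧
      ∀ x y, A x y = tr n (c * (x * y ^ 2 + x ^ 2 * y)) + tr n (e * (x * y ^ 8 + x ^ 8 * y)) := by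
  have hn0 : NeZero n := ⟨by omega⟩
  have hc : Nat.Coprime 1 n := Nat.coprime_one_left n
  have hp1 : ∀ e e', al A (e + n) e' = al A e e' := fun e e' => cf_per hF _ e
  have hp2 : ∀ e e', al A e (e' + n) = al A e e' := fun e e' => by
    rw [al_symm hA, hp1, al_symm hA]
  have hV : Vanish n 1 u (fun j k => al A (1 * j) (1 * k)) :=
    vanish_of hc hF (B := A) (g := fun e e' => al A e e') (fun x y => al_exp hF hA x y)
      hp1 hp2 (al_symm hA) (al_alt hA) hbad
  obtain ⟨m1, m2⟩ := one_lemma hn hF hu hV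
  simp only [one_mul, pow_zero, pow_one] at m1 m2
  have hrow : ∀ j, j < n → j ≠ 1 → j ≠ 3 → j ≠ n - 3 → j ≠ n - 1 → al A j 0 = 0 := by
    intro j hj h1 h2 h3 h4
    rcases Nat.eq_zero_or_pos j with rfl | h0
    · exact al_alt hA 0
    · rw [al_symm hA]
      exact m1 0 j h0 hj (by omega) (by omega) (by omega) (by omega)
  -- the coefficient at distance three
  have hκ : al A 3 0 = 0 ∨ al A 3 0 * u ^ 3 = 1 := by
    have key : ∀ D, 302 ≤ D → D + 159 ≤ n → (al A 3 0 * u ^ 3) ^ (2 ^ D) = al A 3 0 * u ^ 3 := by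
      intro D h1 h2
      have h3 := m2 D h1 h2
      have h4 : al A D (D + 3) = al A 3 0 ^ (2 ^ D) := by
        rw [al_pow hA, al_symm hA]
        congr 1
        · omega
        · omega
      rw [h4, al_symm hA 0 3] at h3
      have h5 : u ^ (2 ^ (D + 2)) = (u ^ 3) ^ (2 ^ D) * u ^ (2 ^ D) := by
        rw [← pow_mul, ← pow_add]
        congr 1
        rw [pow_add]
        ring
      rw [h5] at h3
      have h6 : u * u ^ (2 ^ D) ≠ 0 := mul_ne_zero hu (pow_ne_zero _ hu)
      rw [mul_pow]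
      apply mul_right_cancel₀ h6
      linear_combination -h3
    have h1 := key (n / 2) (by omega) (by omega)
    have h2 := key (n / 2 + 1) (by omega) (by omega)
    rw [show 2 ^ (n / 2 + 1) = 2 ^ (n / 2) * 2 from pow_succ 2 (n / 2), pow_mul, h1] at h2
    rcases zero_or_one_of_sq h2 with h3 | h3
    · left
      exact (mul_eq_zero.1 h3).resolve_right (pow_ne_zero _ hu)
    · exact Or.inr h3
  refine ⟨al A 1 0, al A 3 0, hκ, fun x y => ?_⟩
  -- the functional `A x` is a trace
  have h1 : A x y = tr n (cf (A x) 0 * y) := by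
    have hy : ∀ y y', A x (y + y') = A x y + A x y' := by
      intro y y'
      rw [hA.symm, hA.add, hA.symm y, hA.symm y']
    rw [additive_eq hF hy y]
    unfold tr
    refine sum_congr rfl fun k _ => ?_
    rw [mul_pow]
    congr 1
    unfold cf
    rw [sum_pow_char_pow]
    refine sum_congr rfl fun z _ => ?_
    have h2 : ∀ s : ℕ, A x z ^ (2 ^ s) = A x z := by
      intro s
      induction s with
      | zero => rw [pow_zero, pow_one]
      | succ s ih => rw [pow_succ, pow_mul, ih, hA.sq]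
    rw [mul_pow, h2, pow_zero, pow_one]
  have h2 : cf (A x) 0 = al A 1 0 * x ^ 2 + al A 3 0 * x ^ 8 + al A (n - 3) 0 * x ^ (2 ^ (n - 3))
      + al A (n - 1) 0 * x ^ (2 ^ (n - 1)) := by
    have hx : ∀ x x', cf (A (x + x')) 0 = cf (A x) 0 + cf (A x') 0 := by
      intro x x'
      rw [← cf_add]
      congr 1
      funext y
      exact hA.add _ _ _
    have h3 := additive_eq hF (φ := fun x => cf (A x) 0) hx x
    have h3' : cf (A x) 0 = ∑ e ∈ range n, al A e 0 * x ^ (2 ^ e) := h3
    have h4 : ∑ e ∈ ({1, 3, n - 3, n - 1} : Finset ℕ), al A e 0 * x ^ (2 ^ e)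
        = ∑ e ∈ range n, al A e 0 * x ^ (2 ^ e) := by
      apply sum_subset
      · intro e he
        simp only [mem_insert, mem_singleton] at he
        rw [mem_range]
        omega
      · intro e he hne
        simp only [mem_insert, mem_singleton] at hne
        push Not at hne
        rw [hrow e (mem_range.1 he) hne.1 hne.2.1 hne.2.2.1 hne.2.2.2, zero_mul]
    rw [h3', ← h4, sum_insert, sum_insert, sum_insert, sum_singleton]
    · norm_num
      ring
    · simp only [mem_singleton]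
      omega
    · simp only [mem_insert, mem_singleton]
      omega
    · simp only [mem_insert, mem_singleton]
      omega
  have back : ∀ s, s < n → tr n (al A (n - s) 0 * x ^ (2 ^ (n - s)) * y)
      = tr n (al A s 0 * (x * y ^ (2 ^ s))) := by
    intro s hs
    have h4 : al A (n - s) 0 ^ (2 ^ s) = al A s 0 := by
      rw [al_pow hA, show n - s + s = 0 + n by omega, hp1, zero_add, al_symm hA]
    rw [← tr_two_pow hF (al A (n - s) 0 * x ^ (2 ^ (n - s)) * y) s, mul_pow, mul_pow, h4,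
      ← pow_mul, ← pow_add, show n - s + s = n by omega, pow_card' hF, mul_assoc]
  rw [h1, h2, add_mul, add_mul, add_mul, tr_add, tr_add, tr_add, back 3 (by omega),
    back 1 (by omega), mul_add, mul_add, tr_add, tr_add]
  norm_num
  rw [show al A 1 0 * x ^ 2 * y = al A 1 0 * (x ^ 2 * y) by ring,
    show al A 3 0 * x ^ 8 * y = al A 3 0 * (x ^ 8 * y) by ring]
  ring

/-- the Boolean functions, cube case -/
theorem cube_bool {n : ℕ} (hn : 610 ≤ n) (hF : Fintype.card F = 2 ^ n) {u : F} (hu : u ≠ 0)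
    {f : F → F} (hf : MB (Bad 1 u) f) :
    ∃ (c e : F) (l : F →+ F), tr n (c * u) = 0 ∧ (e = 0 ∨ e * u ^ 3 = 1) ∧
      ∀ x, f x = tr n (c * x ^ 3) + tr n (e * x ^ 9) + l x + f 0 := by
  have two : (2 : F) = 0 := CharTwo.two_eq_zero
  have hn0 : NeZero n := ⟨by omega⟩
  have h3 : ∀ x y z : F, D x (D y (D z f)) = 0 := by
    obtain ⟨m, rfl⟩ : ∃ m, n = m + 1 := ⟨n - 1, by omega⟩
    refine bool_main (by omega : 4 ≤ m) hF hu ⟨hf.1, ?_⟩
    intro a b hab
    apply hf.2
    unfold Bad
    rw [← hab]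
    ring
  have hA : Alt2 (fun x y => D x (D y f) 0) := by
    refine ⟨?_, ?_, ?_, ?_⟩
    · intro x x' y
      show D (x + x') (D y f) 0 = _
      rw [D_add, h3]
      simp
    · intro x y
      show D x (D y f) 0 = D y (D x f) 0
      rw [D_comm]
    · intro x
      show D x (D x f) 0 = 0
      rw [D_self]
      rfl
    · intro x y
      exact ((MB_D (MB_D hf y) x).1) 0
  obtain ⟨c, e, he, hc'⟩ := bil_one hn hF hu hA (fun a b hab => by
    show D a (D b f) 0 = 0
    rw [hf.2 a b hab]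
    rfl)
  have hu0 : tr n (c * u) = 0 := by
    obtain ⟨a, b, hab⟩ := exists_bad1 hn hF hu
    have h4 : D a (D b f) 0 = tr n (c * (a * b ^ 2 + a ^ 2 * b))
      + tr n (e * (a * b ^ 8 + a ^ 8 * b)) := hc' a b
    have h5 : tr n (e * (a * b ^ 8 + a ^ 8 * b)) = 0 := by
      rcases he with h0 | h0
      · rw [h0, zero_mul]
        exact (tau F n).map_zero
      · exact bcl_zero hF hu h0 hab
    rw [hf.2 a b hab, h5, add_zero] at h4
    unfold Bad at hab
    rw [pow_one] at hab
    rw [hab] at h4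
    exact h4.symm
  have hadd : ∀ x y, f (x + y) = f x + f y + f 0
      + (tr n (c * (x * y ^ 2 + x ^ 2 * y)) + tr n (e * (x * y ^ 8 + x ^ 8 * y))) := by
    intro x y
    have h4 : D x (D y f) 0 = tr n (c * (x * y ^ 2 + x ^ 2 * y))
      + tr n (e * (x * y ^ 8 + x ^ 8 * y)) := hc' x y
    rw [← h4]
    simp only [D, zero_add]
    linear_combination (-(f x) - f y - f 0) * two
  have t0 : tr n (0 : F) = 0 := (tau F n).map_zero
  refine ⟨c, e, ⟨⟨fun x => f x + tr n (c * x ^ 3) + tr n (e * x ^ 9) + f 0, ?_⟩, ?_⟩, hu0, he, ?_⟩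
  · rw [zero_pow (by norm_num), zero_pow (by norm_num), mul_zero, mul_zero, t0]
    linear_combination (f 0) * two
  · intro x y
    simp only
    have h4 : c * (x + y) ^ 3 = c * x ^ 3 + c * y ^ 3 + c * (x * y ^ 2 + x ^ 2 * y) := by
      linear_combination (c * (x ^ 2 * y + x * y ^ 2)) * two
    have h5 : e * (x + y) ^ 9 = e * x ^ 9 + e * y ^ 9 + e * (x * y ^ 8 + x ^ 8 * y) := by
      have h6 : (x + y) ^ 8 = x ^ 8 + y ^ 8 := by
        have := add_pow_char_pow (p := 2) x y (n := 3)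
        norm_num at this
        exact this
      rw [show (x + y) ^ 9 = (x + y) ^ 8 * (x + y) by ring, h6]
      ring
    rw [h4, h5, tr_add, tr_add, tr_add, tr_add, hadd]
    linear_combination (tr n (c * (x * y ^ 2 + x ^ 2 * y)) + tr n (e * (x * y ^ 8 + x ^ 8 * y)))
      * two
  · intro x
    show f x = tr n (c * x ^ 3) + tr n (e * x ^ 9) + (f x + tr n (c * x ^ 3) + tr n (e * x ^ 9)
      + f 0) + f 0
    linear_combination (-(tr n (c * x ^ 3)) - tr n (e * x ^ 9) - f 0) * two

end Quad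

end Pool.Agent.Lib.MP_eacabd_co.Gold8
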