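import Mathlib

/-!
Switching of the Gold functions: definitions.
-/

set_option autoImplicit false

namespace Pool.Agent.Lib.MP_eacabd_co.Gold8

/-- almost perfect nonlinear -/
def IsAPN {F : Type} [Field F] (G : F → F) : Prop :=
  ∀ a b : F, a ≠ 0 → {x : F | G (x + a) + G x = b}.ncard ≤ 2

/-- algebraic degree at most one (characteristic two): all second order derivatives vanish -/
def DegLeOne {F : Type} [Field F] (G : F → F) : Prop :=
  ∀ w x y : F, G (w + x + y) + G (w + x) + G (w + y) + G w = 0

/-- algebraic degree at most two (characteristic two): all third order derivatives vanish -/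
def DegLeTwo {F : Type} [Field F] (G : F → F) : Prop :=
  ∀ w x y z : F, G (w + x + y + z) + G (w + x + y) + G (w + x + z) + G (w + y + z) +
    G (w + x) + G (w + y) + G (w + z) + G w = 0

/-- quadratic: algebraic degree exactly two -/
def IsQuadratic {F : Type} [Field F] (G : F → F) : Prop := DegLeTwo G ∧ ¬ DegLeOne G

/-- CCZ-equivalence: an affine permutation of `F × F` maps the graph of `G` onto the graph of
`H` -/
def CCZ {F : Type} [Field F] (G H : F → F) : Prop :=
  ∃ (L : (F × F) ≃+ (F × F)) (c : F × F),
    (fun p => L p + c) '' {p : F × F | p.2 = G p.1} = {p : F × F | p.2 = H p.1}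

/-- property (N): CCZ-equivalent to no power function and to no quadratic function -/
def PropN {F : Type} [Field F] (H : F → F) : Prop :=
  (∀ d : ℕ, ¬ CCZ H (fun x => x ^ d)) ∧ ∀ Q : F → F, IsQuadratic Q → ¬ CCZ H Q

/-- EA-equivalence: `G = A ∘ H ∘ (B + c) + C + d`, `A`, `B` additive bijections, `C` additive -/
def EA {F : Type} [Field F] (G H : F → F) : Prop :=
  ∃ (A B : F ≃+ F) (C : F →+ F) (c d : F), ∀ x, G x = A (H (B x + c)) + C x + d

/-- the absolute trace of the field with `2^n` elements -/
def Tr {F : Type} [Field F] (n : ℕ) (x : F) : F := ∑ t ∈ Finset.range n, x ^ (2 ^ t)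

/-- one step: an EA-equivalence, or a change of one coordinate function which leads to an APN
function -/
def Step {F : Type} [Field F] (G H : F → F) : Prop :=
  EA H G ∨ (IsAPN H ∧ ∃ (u : F) (f : F → F), (∀ x, f x = 0 ∨ f x = 1) ∧ ∀ x, H x = G x + u * f x)

end Pool.Agent.Lib.MP_eacabd_co.Gold8
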