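import Mathlib
import Pool.Agent.Lib.MP_eacabd_co.Gold8.Defs8
import Pool.Agent.Lib.MP_eacabd_co.Gold8.Quad

/-!
Switching of the Gold functions: from APN functions to Boolean functions; the case `i ≥ 2`.
-/

set_option autoImplicit false

namespace Pool.Agent.Lib.MP_eacabd_co.Gold8

theorem apn_ne {F : Type} [Field F] [Finite F] [CharP F 2] {G : F → F} (h : IsAPN G) {x y : F}
    (hx : x ≠ 0) (hy : y ≠ 0) (hxy : x ≠ y) (w : F) :
    G (w + x + y) + G (w + x) + G (w + y) + G w ≠ 0 := by
  intro hc
  have two : (2 : F) = 0 := CharTwo.two_eq_zero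
  have h1 := h x (G (w + x) + G w) hx
  have hsub : ({w, w + x, w + y} : Set F) ⊆ {v : F | G (v + x) + G v = G (w + x) + G w} := by
    intro v hv
    simp only [Set.mem_insert_iff, Set.mem_singleton_iff] at hv
    rw [Set.mem_ofPred_eq]
    rcases hv with rfl | rfl | rfl
    · rfl
    · have e : w + x + x = w := by rw [add_assoc, CharTwo.add_self_eq_zero, add_zero]
      rw [e, add_comm]
    · have e : w + y + x = w + x + y := by ring
      rw [e]
      linear_combination hc - (G (w + x) + G w) * two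
  have h2 : ({w, w + x, w + y} : Set F).ncard = 3 := by
    rw [Set.ncard_eq_three]
    refine ⟨w, w + x, w + y, ?_, ?_, ?_, rfl⟩
    · intro he
      exact hx (left_eq_add.mp he)
    · intro he
      exact hy (left_eq_add.mp he)
    · intro he
      exact hxy (add_left_cancel he)
  have h3 := Set.ncard_le_ncard hsub (Set.toFinite _)
  omega

/-- second derivative of the Gold function -/
theorem gold_second {F : Type} [Field F] [CharP F 2] (i : ℕ) (w x y : F) :
    (w + x + y) ^ (2 ^ i + 1) + (w + x) ^ (2 ^ i + 1) + (w + y) ^ (2 ^ i + 1) + w ^ (2 ^ i + 1)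
      = x * y ^ (2 ^ i) + x ^ (2 ^ i) * y := by
  have two : (2 : F) = 0 := CharTwo.two_eq_zero
  rw [pow_succ, pow_succ, pow_succ, pow_succ, add_pow_char_pow, add_pow_char_pow,
    add_pow_char_pow]
  linear_combination (2 * w ^ (2 ^ i) * w + w ^ (2 ^ i) * x + w ^ (2 ^ i) * y + x ^ (2 ^ i) * w
    + x ^ (2 ^ i) * x + y ^ (2 ^ i) * w + y ^ (2 ^ i) * y) * two

theorem second {i : ℕ} {F : Type} [Field F] [CharP F 2] (u : F) (G0 s G : F → F)
    (A B : F ≃+ F) (C : F →+ F) (c d : F)
    (hAB : ∀ x, G0 x = A ((B x + c) ^ (2 ^ i + 1)) + C x + d)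
    (hGs : ∀ x, G x = G0 x + u * s x) (w x y : F) :
    G (w + x + y) + G (w + x) + G (w + y) + G w =
      A (B x * B y ^ (2 ^ i) + B x ^ (2 ^ i) * B y)
        + u * (s (w + x + y) + s (w + x) + s (w + y) + s w) := by
  have two : (2 : F) = 0 := CharTwo.two_eq_zero
  have e := gold_second i (B w + c) (B x) (B y)
  have e1 : B (w + x + y) + c = B w + c + B x + B y := by rw [map_add, map_add]; ring
  have e2 : B (w + x) + c = B w + c + B x := by rw [map_add]; ring
  have e3 : B (w + y) + c = B w + c + B y := by rw [map_add]; ring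
  rw [hGs, hGs, hGs, hGs, hAB, hAB, hAB, hAB, ← e, e1, e2, e3, map_add A, map_add A, map_add A]
  simp only [map_add]
  linear_combination (2 * C w + C x + C y + 2 * d) * two

/-- the transported Boolean function -/
theorem toMB {i : ℕ} {F : Type} [Field F] [Fintype F] [DecidableEq F] [CharP F 2] {u : F} {G0 s G : F → F}
    (A B : F ≃+ F) (C : F →+ F) (c d : F)
    (hAB : ∀ x, G0 x = A ((B x + c) ^ (2 ^ i + 1)) + C x + d)
    (h01 : ∀ x, s x = 0 ∨ s x = 1) (hGs : ∀ x, G x = G0 x + u * s x) (hapn : IsAPN G)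
    (hu : u ≠ 0) : MB (Bad i (A.symm u)) (fun v => s (B.symm (v + c))) := by
  have hs : ∀ x, s x ^ 2 = s x := by
    intro x
    rcases h01 x with h | h <;> rw [h] <;> norm_num
  have hu' : A.symm u ≠ 0 := by
    intro h0
    apply hu
    have := congrArg A h0
    rwa [AddEquiv.apply_symm_apply, map_zero] at this
  refine ⟨fun v => hs _, ?_⟩
  intro a b hab
  unfold Bad at hab
  funext v
  show s (B.symm (v + a + b + c)) + s (B.symm (v + a + c)) + (s (B.symm (v + b + c))
    + s (B.symm (v + c))) = 0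
  have e1 : B.symm (v + a + b + c) = B.symm (v + c) + B.symm a + B.symm b := by
    rw [← map_add, ← map_add]
    congr 1
    ring
  have e2 : B.symm (v + a + c) = B.symm (v + c) + B.symm a := by
    rw [← map_add]
    congr 1
    ring
  have e3 : B.symm (v + b + c) = B.symm (v + c) + B.symm b := by
    rw [← map_add]
    congr 1
    ring
  rw [e1, e2, e3]
  set p := B.symm (v + c)
  set x := B.symm a with hx
  set y := B.symm b with hy
  have hBx : B x = a := B.apply_symm_apply a
  have hBy : B y = b := B.apply_symm_apply b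
  have hab0 : a * b ^ (2 ^ i) + a ^ (2 ^ i) * b ≠ 0 := by rw [hab]; exact hu'
  have hx0 : x ≠ 0 := by
    intro h0
    rw [h0, map_zero] at hBx
    apply hab0
    rw [← hBx, zero_pow (by positivity)]
    ring
  have hy0 : y ≠ 0 := by
    intro h0
    rw [h0, map_zero] at hBy
    apply hab0
    rw [← hBy, zero_pow (by positivity)]
    ring
  have hxy : x ≠ y := by
    intro h0
    rw [h0, hBy] at hBx
    apply hab0
    rw [← hBx, mul_comm (b ^ (2 ^ i)), CharTwo.add_self_eq_zero]
  have h5 := apn_ne hapn hx0 hy0 hxy p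
  rw [second u G0 s G A B C c d hAB hGs, hBx, hBy, hab, AddEquiv.apply_symm_apply] at h5
  have h6 : (s (p + x + y) + s (p + x) + (s (p + y) + s p)) ^ 2 =
      s (p + x + y) + s (p + x) + (s (p + y) + s p) := by
    rw [CharTwo.add_sq, CharTwo.add_sq, CharTwo.add_sq, hs, hs, hs, hs]
  rcases zero_or_one_of_sq h6 with h7 | h7
  · exact h7
  · exfalso
    apply h5
    have h8 : s (p + x + y) + s (p + x) + s (p + y) + s p = 1 := by rw [← h7]; ring
    rw [h8, mul_one, CharTwo.add_self_eq_zero]

/-- the linear involution `z ↦ z + u · tr (c z)`, `tr (c u) = 0` -/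
theorem invol {n : ℕ} {F : Type} [Field F] [Fintype F] [DecidableEq F] [CharP F 2]
    (hF : Fintype.card F = 2 ^ n) {u c : F} (hcu : tr n (c * u) = 0) :
    ∃ L : F ≃+ F, ∀ z, L z = z + u * tr n (c * z) := by
  have htr : ∀ z : F, tr n z = 0 ∨ tr n z = 1 := fun z => zero_or_one_of_sq (tr_sq hF z)
  let L0 : F →+ F :=
    { toFun := fun z => z + u * tr n (c * z)
      map_zero' := by
        rw [mul_zero]
        have : tr n (0 : F) = 0 := (tau F n).map_zero
        rw [this, mul_zero, add_zero]
      map_add' := by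
        intro x y
        rw [mul_add, tr_add]
        ring }
  have hLL : ∀ z, L0 (L0 z) = z := by
    intro z
    show z + u * tr n (c * z) + u * tr n (c * (z + u * tr n (c * z))) = z
    have h1 : tr n (c * (z + u * tr n (c * z))) = tr n (c * z) := by
      rcases htr (c * z) with h0 | h0
      · rw [h0, mul_zero, add_zero, h0]
      · rw [h0, mul_one, mul_add, tr_add, hcu, h0, add_zero]
    rw [h1, add_assoc, CharTwo.add_self_eq_zero, add_zero]
  exact ⟨{ toFun := L0, invFun := L0, left_inv := hLL, right_inv := hLL, map_add' := L0.map_add },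
    fun _ => rfl⟩

theorem switch_gold {i n : ℕ} (hi : 2 ≤ i) (hc : Nat.Coprime i n) (hn : 400 * i ^ 2 ≤ n)
    {F : Type} [Field F] [Fintype F] (hF : Fintype.card F = 2 ^ n) (u : F) (G0 s G : F → F)
    (hG0 : EA G0 (fun x => x ^ (2 ^ i + 1))) (h01 : ∀ x, s x = 0 ∨ s x = 1)
    (hGs : ∀ x, G x = G0 x + u * s x) (hapn : IsAPN G) :
    EA G (fun x => x ^ (2 ^ i + 1)) := by
  classical
  have : CharP F 2 := charP_of_card_eq_prime_pow (p := 2) (f := n) (by simpa using hF)
  have two : (2 : F) = 0 := CharTwo.two_eq_zero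
  obtain ⟨A, B, C, c, d, hAB⟩ := hG0
  by_cases hu : u = 0
  · exact ⟨A, B, C, c, d, fun x => by rw [hGs, hu, zero_mul, add_zero, hAB]⟩
  have hM := toMB (i := i) A B C c d hAB h01 hGs hapn hu
  have hu' : A.symm u ≠ 0 := by
    intro h0
    apply hu
    have := congrArg A h0
    rwa [AddEquiv.apply_symm_apply, map_zero] at this
  have htr : ∀ z : F, tr n z = 0 ∨ tr n z = 1 := fun z => zero_or_one_of_sq (tr_sq hF z)
  have hAu : ∀ e : F, (e = 0 ∨ e = 1) → A (A.symm u * e) = u * e := by
    rintro e (rfl | rfl)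
    · rw [mul_zero, mul_zero, map_zero]
    · rw [mul_one, mul_one, AddEquiv.apply_symm_apply]
  have e1 : ∀ x, B.symm (B x + c + c) = x := by
    intro x
    rw [add_assoc, CharTwo.add_self_eq_zero, add_zero, AddEquiv.symm_apply_apply]
  obtain ⟨c0, l, hcu, hl⟩ := gold_bool hi hc hn hF hu' hM
  obtain ⟨L, hL⟩ := invol hF hcu
  have hs' : ∀ x, s x = tr n (c0 * (B x + c) ^ (2 ^ i + 1)) + l (B x) + l c
      + s (B.symm (0 + c)) := by
    intro x
    have h1 := hl (B x + c)
    rw [e1, map_add] at h1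
    rw [h1]
    ring
  refine ⟨L.trans A, B, C + (AddMonoidHom.mulLeft u).comp (l.comp B.toAddMonoidHom), c,
    d + u * (l c + s (B.symm (0 + c))), ?_⟩
  intro x
  rw [hGs, hAB]
  show A ((B x + c) ^ (2 ^ i + 1)) + C x + d + u * s x
    = A (L ((B x + c) ^ (2 ^ i + 1))) + (C x + u * l (B x))
      + (d + u * (l c + s (B.symm (0 + c))))
  rw [hL, map_add A, hAu _ (htr _)]
  linear_combination u * hs' x

theorem EA.refl {F : Type} [Field F] (G : F → F) : EA G G :=
  ⟨AddEquiv.refl F, AddEquiv.refl F, 0, 0, 0, fun x => by simp⟩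

theorem EA.trans {F : Type} [Field F] {G H K : F → F} (h1 : EA G H) (h2 : EA H K) : EA G K := by
  obtain ⟨A, B, C, c, d, h⟩ := h1
  obtain ⟨A', B', C', c', d', h'⟩ := h2
  refine ⟨A'.trans A, B.trans B', (A.toAddMonoidHom.comp (C'.comp B.toAddMonoidHom)) + C,
    B' c + c', A (C' c) + A d' + d, fun x => ?_⟩
  rw [h, h']
  show A (A' (K (B' (B x + c) + c')) + C' (B x + c) + d') + C x + d
    = A (A' (K (B' (B x) + (B' c + c')))) + (A (C' (B x)) + C x) + (A (C' c) + A d' + d)
  rw [map_add B', map_add A, map_add A, map_add C', map_add A]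
  rw [add_assoc (B' (B x))]
  ring

/-- a function with bilinear second derivative, not identically zero, is quadratic -/
theorem quadratic_of {F : Type} [Field F] [CharP F 2] {G : F → F} {S : F → F → F}
    (h2 : ∀ w x y : F, G (w + x + y) + G (w + x) + G (w + y) + G w = S x y)
    (hS : ∃ x y, S x y ≠ 0) : IsQuadratic G := by
  have two : (2 : F) = 0 := CharTwo.two_eq_zero
  refine ⟨?_, ?_⟩
  · intro w x y z
    have i1 := h2 w x y
    have i2 := h2 (w + z) x y
    rw [show w + z + x + y = w + x + y + z by ring, show w + z + x = w + x + z by ring,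
      show w + z + y = w + y + z by ring] at i2
    linear_combination i1 + i2 + (S x y) * two
  · intro h1
    obtain ⟨x, y, hxy⟩ := hS
    apply hxy
    rw [← h2 0 x y]
    exact h1 0 x y

theorem exists_not_fixed {n i : ℕ} (hn : 2 ≤ n) (hc : Nat.Coprime i n) {F : Type} [Field F]
    [Fintype F] [DecidableEq F] [CharP F 2] (hF : Fintype.card F = 2 ^ n) :
    ∃ y : F, y ^ (2 ^ i) + y ≠ 0 := by
  by_contra hcon
  push Not at hcon
  have h4 : Fintype.card F ≤ ({0, 1} : Finset F).card := by
    apply Finset.card_le_card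
    intro y _
    rw [Finset.mem_insert, Finset.mem_singleton]
    have h5 := hcon y
    rw [CharTwo.add_eq_zero] at h5
    exact fix_two hc hF h5
  have h5 : ({0, 1} : Finset F).card ≤ 2 := Finset.card_le_two
  have h6 : 2 ^ 2 ≤ 2 ^ n := Nat.pow_le_pow_right (by norm_num) hn
  rw [hF] at h4
  omega

/-- functions EA-equivalent to the Gold function are quadratic -/
theorem quadratic_gold {n i : ℕ} (hn : 2 ≤ n) (hc : Nat.Coprime i n) {F : Type} [Field F]
    [Fintype F] (hF : Fintype.card F = 2 ^ n) {G : F → F}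
    (h : EA G (fun x => x ^ (2 ^ i + 1))) : IsQuadratic G := by
  classical
  have : CharP F 2 := charP_of_card_eq_prime_pow (p := 2) (f := n) (by simpa using hF)
  obtain ⟨A, B, C, c, d, hAB⟩ := h
  refine quadratic_of (S := fun x y => A (B x * B y ^ (2 ^ i) + B x ^ (2 ^ i) * B y)) ?_ ?_
  · intro w x y
    have h2 := second (0 : F) G (fun _ => 0) G A B C c d hAB (fun x => by ring) w x y
    rw [h2]
    ring
  · obtain ⟨y, hy⟩ := exists_not_fixed hn hc hF
    refine ⟨B.symm 1, B.symm y, fun h0 => hy ?_⟩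
    rw [AddEquiv.apply_symm_apply, AddEquiv.apply_symm_apply, one_pow, one_mul, one_mul,
      ← map_zero A] at h0
    exact A.injective h0

end Pool.Agent.Lib.MP_eacabd_co.Gold8
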